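import Pool.Agent.DWH.HalfPlane

/-!
# Module Chain: the Kobayashi distance, basic facts
-/

open Set Filter Topology Metric

namespace Pool.Agent.DWH

noncomputable section

variable {E : Type*} [NormedAddCommGroup E] [NormedSpace ℂ E]
variable {E' : Type*} [NormedAddCommGroup E'] [NormedSpace ℂ E']

theorem pd_zero : pd 0 = 0 := by simp [pd]

theorem pd_nonneg {r : ℝ} (h0 : 0 ≤ r) (h1 : r < 1) : 0 ≤ pd r := by
  unfold pd
  apply div_nonneg _ (by norm_num)
  apply Real.log_nonneg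
  rw [le_div_iff₀ (by linarith)]
  linarith

/-- `(1+r)/(1-r) = e^{2 pd r}` -/
theorem exp_pd {r : ℝ} (h0 : 0 ≤ r) (h1 : r < 1) : Real.exp (2 * pd r) = (1 + r) / (1 - r) := by
  unfold pd
  rw [mul_div_cancel₀ _ (two_ne_zero)]
  exact Real.exp_log (div_pos (by linarith) (by linarith))

theorem pd_tanh (t : ℝ) : pd (Real.tanh t) = t := by
  have hc := Real.cosh_pos t
  have e1 : 1 + Real.tanh t = Real.exp t / Real.cosh t := by
    rw [Real.tanh_eq_sinh_div_cosh, ← Real.cosh_add_sinh]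
    field_simp
  have e2 : 1 - Real.tanh t = Real.exp (-t) / Real.cosh t := by
    rw [Real.tanh_eq_sinh_div_cosh, ← Real.cosh_sub_sinh]
    field_simp
  unfold pd
  rw [e1, e2, div_div_div_cancel_right₀ hc.ne', ← Real.exp_sub, Real.log_exp]
  ring

theorem tanh_pd {r : ℝ} (h0 : 0 ≤ r) (h1 : r < 1) : Real.tanh (pd r) = r := by
  have h := exp_pd h0 h1
  have hx : Real.exp (2 * pd r) = Real.exp (pd r) * Real.exp (pd r) := by
    rw [← Real.exp_add]; ring_nf
  have hy : Real.exp (-(pd r)) = (Real.exp (pd r))⁻¹ := Real.exp_neg _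
  have hp := Real.exp_pos (pd r)
  rw [hx] at h
  set z := Real.exp (pd r) with hz
  have h1' : (1 - r) ≠ 0 := by linarith
  rw [eq_div_iff h1'] at h
  rw [Real.tanh_eq_sinh_div_cosh, Real.sinh_eq, Real.cosh_eq, hy, ← hz]
  have hzz : z + z⁻¹ ≠ 0 := by positivity
  rw [div_div_div_cancel_right₀ (two_ne_zero), div_eq_iff hzz]
  field_simp
  nlinarith

theorem pd_mono {r s : ℝ} (h0 : 0 ≤ r) (h : r ≤ s) (h1 : s < 1) : pd r ≤ pd s := by
  unfold pd
  apply div_le_div_of_nonneg_right _ (by norm_num)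
  apply Real.log_le_log (div_pos (by linarith) (by linarith))
  rw [div_le_div_iff₀ (by linarith) (by linarith)]
  nlinarith

theorem le_pd {r : ℝ} (h0 : 0 ≤ r) (h1 : r < 1) : r ≤ pd r := by
  have h := Real.hasSum_log_sub_log_of_abs_lt_one (x := r) (by rw [abs_of_nonneg h0]; exact h1)
  have h2 := le_hasSum h 0 (fun k _ => by positivity)
  unfold pd
  rw [Real.log_div (by linarith) (by linarith)]
  simp at h2
  linarith

theorem pd_le {r : ℝ} (h0 : 0 ≤ r) (h1 : r < 1) : pd r ≤ r / (1 - r) := by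
  unfold pd
  have h := Real.log_le_sub_one_of_pos (x := (1 + r) / (1 - r)) (div_pos (by linarith) (by linarith))
  have e : (1 + r) / (1 - r) - 1 = 2 * (r / (1 - r)) := by
    have : (1 - r) ≠ 0 := by linarith
    field_simp
    ring
  rw [e] at h
  linarith

theorem KChain.mem_left {Ω : Set E} {x y : E} {L : ℝ} (h : KChain Ω x y L) : x ∈ Ω := by
  cases h with
  | nil hx => exact hx
  | cons φ r h0 h1 hφ h0' hr hc => rw [← h0']; exact hφ.2 (by simp)

theorem KChain.mem_right {Ω : Set E} {x y : E} {L : ℝ} (h : KChain Ω x y L) : y ∈ Ω := by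
  induction h with
  | nil hx => exact hx
  | cons φ r h0 h1 hφ h0' hr hc ih => exact ih

theorem KChain.nonneg {Ω : Set E} {x y : E} {L : ℝ} (h : KChain Ω x y L) : 0 ≤ L := by
  induction h with
  | nil hx => exact le_rfl
  | cons φ r h0 h1 hφ h0' hr hc ih => exact add_nonneg (pd_nonneg h0 h1) ih

theorem KChain.trans {Ω : Set E} {x y z : E} {L L' : ℝ} (h : KChain Ω x y L)
    (h' : KChain Ω y z L') : KChain Ω x z (L + L') := by
  induction h with
  | nil hx => rw [zero_add]; exact h'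
  | cons φ r h0 h1 hφ h0' hr hc ih =>
    rw [add_assoc]
    exact KChain.cons φ r h0 h1 hφ h0' hr (ih h')

theorem KChain.congr {Ω : Set E} {x y : E} {L L' : ℝ} (h : KChain Ω x y L) (e : L = L') :
    KChain Ω x y L' := e ▸ h

/-- the disc automorphism `(w + s)/(1 + s w)` -/
theorem mob_mem {s : ℝ} (hs : |s| < 1) {w : ℂ} (hw : w ∈ ball (0 : ℂ) 1) :
    (1 + s * w) ≠ 0 ∧ (w + s) / (1 + s * w) ∈ ball (0 : ℂ) 1 := by
  rw [mem_ball_zero_iff] at hw ⊢
  have hne : (1 + s * w) ≠ 0 := by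
    intro h
    have h2 : ‖(s : ℂ) * w‖ < 1 := by
      rw [norm_mul, Complex.norm_real, Real.norm_eq_abs]
      calc |s| * ‖w‖ ≤ |s| * 1 := mul_le_mul_of_nonneg_left hw.le (abs_nonneg _)
        _ < 1 := by linarith
    have h3 : (s : ℂ) * w = -1 := by linear_combination h
    rw [h3] at h2
    simp at h2
  refine ⟨hne, ?_⟩
  rw [norm_div, div_lt_one (norm_pos_iff.mpr hne)]
  have h1 : ‖w + s‖ ^ 2 < ‖1 + s * w‖ ^ 2 := by
    rw [Complex.sq_norm, Complex.sq_norm, Complex.normSq_apply, Complex.normSq_apply]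
    have hw2 : w.re * w.re + w.im * w.im < 1 := by
      have : ‖w‖ ^ 2 < 1 := by nlinarith [norm_nonneg w]
      rw [Complex.sq_norm, Complex.normSq_apply] at this
      exact this
    have hs2 : s * s < 1 := by
      have := sq_abs s
      nlinarith [abs_nonneg s]
    simp
    nlinarith [mul_pos (sub_pos.mpr hw2) (sub_pos.mpr hs2)]
  exact lt_of_pow_lt_pow_left₀ 2 (norm_nonneg _) h1

theorem IsDisc.mob {Ω : Set E} {φ : ℂ → E} {s : ℝ} (hs : |s| < 1) (h : IsDisc Ω φ) :
    IsDisc Ω (fun w : ℂ => φ ((w + s) / (1 + s * w))) := by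
  refine ⟨?_, fun w hw => h.2 (mob_mem hs hw).2⟩
  apply h.1.comp (t := ball 0 1)
  · apply DifferentiableOn.div (by fun_prop) (by fun_prop)
    intro w hw
    exact (mob_mem hs hw).1
  · intro w hw
    exact (mob_mem hs hw).2

theorem IsDisc.negArg {Ω : Set E} {φ : ℂ → E} (h : IsDisc Ω φ) :
    IsDisc Ω (fun w : ℂ => φ (-w)) := by
  have hm : MapsTo (fun w : ℂ => -w) (ball (0 : ℂ) 1) (ball (0 : ℂ) 1) := by
    intro w hw
    simpa using hw
  exact ⟨h.1.comp (by fun_prop) hm, fun w hw => h.2 (hm hw)⟩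

/-- the reversed disc -/
theorem exists_rev {Ω : Set E} {φ : ℂ → E} {r : ℝ} (h0 : 0 ≤ r) (h1 : r < 1) (h : IsDisc Ω φ) :
    ∃ ψ : ℂ → E, IsDisc Ω ψ ∧ ψ 0 = φ r ∧ ψ r = φ 0 := by
  have hs : |-r| < 1 := by rw [abs_neg, abs_of_nonneg h0]; exact h1
  refine ⟨_, IsDisc.mob hs h.negArg, ?_, ?_⟩
  · simp
  · simp

theorem KChain.symm {Ω : Set E} {x y : E} {L : ℝ} (h : KChain Ω x y L) : KChain Ω y x L := by
  induction h with
  | nil hx => exact KChain.nil hx
  | @cons x y z L φ r h0 h1 hφ h0' hr hc ih =>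
    obtain ⟨ψ, hψ, hψ0, hψr⟩ := exists_rev h0 h1 hφ
    have hx : x ∈ Ω := by rw [← h0']; exact hφ.2 (by simp)
    have := ih.trans (KChain.cons ψ r h0 h1 hψ (hψ0.trans hr) (hψr.trans h0') (KChain.nil hx))
    exact this.congr (by ring)

/-- holomorphic maps do not increase chains -/
theorem KChain.map {Ω : Set E} {Ω' : Set E'} {F : E → E'} (hF : DifferentiableOn ℂ F Ω)
    (hm : MapsTo F Ω Ω') {x y : E} {L : ℝ} (h : KChain Ω x y L) : KChain Ω' (F x) (F y) L := by
  induction h with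
  | nil hx => exact KChain.nil (hm hx)
  | cons φ r h0 h1 hφ h0' hr hc ih =>
    exact KChain.cons (fun w => F (φ w)) r h0 h1
      ⟨hF.comp hφ.1 hφ.2, fun w hw => hm (hφ.2 hw)⟩ (by simp only [h0']) (by simp only [hr]) ih

theorem kob_nonneg (Ω : Set E) (x y : E) : 0 ≤ kob Ω x y :=
  Real.sInf_nonneg fun _ h => KChain.nonneg h

theorem kob_le {Ω : Set E} {x y : E} {L : ℝ} (h : KChain Ω x y L) : kob Ω x y ≤ L :=
  csInf_le ⟨0, fun _ h => KChain.nonneg h⟩ h

theorem kob_self {Ω : Set E} {x : E} (hx : x ∈ Ω) : kob Ω x x = 0 :=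
  le_antisymm (kob_le (KChain.nil hx)) (kob_nonneg _ _ _)

theorem kob_comm (Ω : Set E) (x y : E) : kob Ω x y = kob Ω y x := by
  unfold kob
  congr 1
  ext L
  exact ⟨fun h => KChain.symm h, fun h => KChain.symm h⟩

theorem kob_le_disc {Ω : Set E} {φ : ℂ → E} (hφ : IsDisc Ω φ) {r : ℝ} (h0 : 0 ≤ r) (h1 : r < 1) :
    kob Ω (φ 0) (φ r) ≤ pd r := by
  have hr : φ r ∈ Ω := hφ.2 (by
    rw [mem_ball_zero_iff, Complex.norm_real, Real.norm_eq_abs, abs_of_nonneg h0]; exact h1)
  have := kob_le (KChain.cons φ r h0 h1 hφ rfl rfl (KChain.nil hr))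
  simpa using this

/-- two points of a disc on the real axis -/
theorem kob_le_disc' {Ω : Set E} {φ : ℂ → E} (hφ : IsDisc Ω φ) {s t : ℝ} (h0 : 0 ≤ s) (h : s ≤ t)
    (h1 : t < 1) : kob Ω (φ s) (φ t) ≤ pd t - pd s := by
  have hs : |s| < 1 := by rw [abs_of_nonneg h0]; linarith
  have hst : 0 < 1 - s * t := by nlinarith
  have hr0 : 0 ≤ (t - s) / (1 - s * t) := div_nonneg (by linarith) hst.le
  have hr1 : (t - s) / (1 - s * t) < 1 := by
    rw [div_lt_one hst]
    nlinarith
  have hk := kob_le_disc (IsDisc.mob hs hφ) hr0 hr1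
  have e0 : ((0:ℂ) + s) / (1 + s * 0) = s := by simp
  have e1 : ((((t - s) / (1 - s * t) : ℝ) : ℂ) + s) / (1 + s * (((t - s) / (1 - s * t) : ℝ) : ℂ))
      = t := by
    have hR : ((t - s) / (1 - s * t) + s) / (1 + s * ((t - s) / (1 - s * t))) = t := by
      have h2 : (1 - s * t) ≠ 0 := hst.ne'
      have h4 : 1 - s * s > 0 := by nlinarith
      have h3 : 1 + s * ((t - s) / (1 - s * t)) = (1 - s * s) / (1 - s * t) := by
        rw [eq_div_iff h2, add_mul, mul_assoc, div_mul_cancel₀ _ h2]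
        ring
      have h5 : (t - s) / (1 - s * t) + s = t * (1 - s * s) / (1 - s * t) := by
        rw [eq_div_iff h2, add_mul, div_mul_cancel₀ _ h2]
        ring
      rw [h3, h5, div_div_div_cancel_right₀ h2, mul_div_assoc, div_self h4.ne', mul_one]
    exact_mod_cast congrArg (fun z : ℝ => (z : ℂ)) hR
  simp only [e0, e1] at hk
  refine le_trans hk (le_of_eq ?_)
  unfold pd
  have hA : (1 + (t - s) / (1 - s * t)) / (1 - (t - s) / (1 - s * t))
      = ((1 + t) / (1 - t)) / ((1 + s) / (1 - s)) := by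
    have h2 : (1 - s * t) ≠ 0 := hst.ne'
    have h3 : 1 + (t - s) / (1 - s * t) = ((1 + t) * (1 - s)) / (1 - s * t) := by
      rw [eq_div_iff h2, add_mul, div_mul_cancel₀ _ h2]
      ring
    have h4 : 1 - (t - s) / (1 - s * t) = ((1 - t) * (1 + s)) / (1 - s * t) := by
      rw [eq_div_iff h2, sub_mul, div_mul_cancel₀ _ h2]
      ring
    rw [h3, h4, div_div_div_cancel_right₀ h2, div_div_div_eq]
  rw [hA, Real.log_div (div_pos (by linarith) (by linarith)).ne'
    (div_pos (by linarith) (by linarith)).ne']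
  ring

/-- in a convex open set there are chains -/
theorem exists_chain {Ω : Set E} (ho : IsOpen Ω) (hc : Convex ℝ Ω) {x y : E} (hx : x ∈ Ω)
    (hy : y ∈ Ω) : ∃ L, KChain Ω x y L := by
  have hseg : segment ℝ x y ⊆ Ω := hc.segment_subset hx hy
  have hcomp : IsCompact (segment ℝ x y) := by
    rw [segment_eq_image]
    exact isCompact_Icc.image (by fun_prop)
  obtain ⟨δ, hδ, hth⟩ := hcomp.exists_thickening_subset_open ho hseg
  obtain ⟨N, hN⟩ := exists_nat_gt (2 * ‖y - x‖ / δ)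
  have hN0 : (0:ℝ) < N := lt_of_le_of_lt (by positivity) hN
  have hN' : 2 * (‖y - x‖ / N) < δ := by
    rw [div_lt_iff₀ hδ] at hN
    rw [← mul_div_assoc, div_lt_iff₀ hN0]
    linarith
  have key : ∀ n : ℕ, n ≤ N → ∃ L, KChain Ω x (x + ((n : ℝ) / N) • (y - x)) L := by
    intro n
    induction n with
    | zero => intro _; exact ⟨0, by simpa using KChain.nil hx⟩
    | succ n ih =>
      intro hn
      obtain ⟨L, hL⟩ := ih (by omega)
      set p : E := x + ((n : ℝ) / N) • (y - x) with hp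
      have hpseg : p ∈ segment ℝ x y := by
        rw [segment_eq_image']
        refine ⟨(n : ℝ) / N, ⟨by positivity, ?_⟩, rfl⟩
        rw [div_le_one hN0]
        have : n ≤ N := by omega
        exact_mod_cast this
      set d : E := ((1 : ℝ) / N) • (y - x) with hd
      have hdn : ‖d‖ = ‖y - x‖ / N := by
        rw [hd, norm_smul, Real.norm_eq_abs, abs_of_pos (by positivity)]
        ring
      have hdisc : IsDisc Ω (fun w : ℂ => p + (2 * w) • d) := by
        refine ⟨by fun_prop, fun w hw => ?_⟩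
        apply hth
        rw [mem_thickening_iff]
        refine ⟨p, hpseg, ?_⟩
        rw [mem_ball_zero_iff] at hw
        rw [dist_eq_norm, add_sub_cancel_left, norm_smul, norm_mul, hdn]
        have h2 : ‖(2:ℂ)‖ = 2 := by simp
        rw [h2]
        have h3 : 0 ≤ ‖y - x‖ / N := by positivity
        nlinarith [norm_nonneg w]
      have hq : p + (2 * (((1/2:ℝ)) : ℂ)) • d = x + (((n + 1 : ℕ) : ℝ) / N) • (y - x) := by
        have : (2 * (((1/2:ℝ)) : ℂ)) = 1 := by push_cast; norm_num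
        rw [this, one_smul, hp, hd]
        push_cast
        rw [add_div, add_smul]
        abel
      have hmem : x + (((n + 1 : ℕ) : ℝ) / N) • (y - x) ∈ Ω := by
        rw [← hq]
        exact hdisc.2 (by
          rw [mem_ball_zero_iff, Complex.norm_real]
          norm_num)
      refine ⟨_, hL.trans (KChain.cons _ (1/2) (by norm_num) (by norm_num) hdisc ?_ hq
        (KChain.nil hmem))⟩
      simp
  obtain ⟨L, hL⟩ := key N le_rfl
  refine ⟨L, ?_⟩
  rw [div_self hN0.ne', one_smul, add_sub_cancel] at hL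
  exact hL

theorem exists_chain_lt {Ω : Set E} (ho : IsOpen Ω) (hc : Convex ℝ Ω) {x y : E} (hx : x ∈ Ω)
    (hy : y ∈ Ω) {R : ℝ} (h : kob Ω x y < R) : ∃ L < R, KChain Ω x y L := by
  obtain ⟨L, hL, hLR⟩ := exists_lt_of_csInf_lt (exists_chain ho hc hx hy) h
  exact ⟨L, hLR, hL⟩

theorem kob_triangle {Ω : Set E} (ho : IsOpen Ω) (hc : Convex ℝ Ω) {x y z : E} (hx : x ∈ Ω)
    (hy : y ∈ Ω) (hz : z ∈ Ω) : kob Ω x z ≤ kob Ω x y + kob Ω y z := by
  apply le_of_forall_pos_le_add
  intro ε hε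
  obtain ⟨L, hL, h1⟩ := exists_chain_lt ho hc hx hy (show kob Ω x y < kob Ω x y + ε / 2 by linarith)
  obtain ⟨L', hL', h2⟩ := exists_chain_lt ho hc hy hz
    (show kob Ω y z < kob Ω y z + ε / 2 by linarith)
  have := kob_le (h1.trans h2)
  linarith

theorem kob_map {Ω : Set E} (ho : IsOpen Ω) (hc : Convex ℝ Ω) {Ω' : Set E'} {F : E → E'}
    (hF : DifferentiableOn ℂ F Ω) (hm : MapsTo F Ω Ω') {x y : E} (hx : x ∈ Ω) (hy : y ∈ Ω) :
    kob Ω' (F x) (F y) ≤ kob Ω x y :=
  le_csInf (exists_chain ho hc hx hy) fun _ h => kob_le (KChain.map hF hm h)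

/-- Harnack inequality for holomorphic functions with non-negative real part -/
theorem KChain.harnack {Ω : Set E} {v : E → ℂ} (hv : DifferentiableOn ℂ v Ω)
    (hpos : ∀ x ∈ Ω, 0 ≤ (v x).re) {x y : E} {L : ℝ} (h : KChain Ω x y L) :
    (v y).re ≤ Real.exp (2 * L) * (v x).re := by
  induction h with
  | nil hx => simp
  | @cons x y z L φ r h0 h1 hφ h0' hr hc ih =>
    have hrb : (r : ℂ) ∈ ball (0 : ℂ) 1 := by
      rw [mem_ball_zero_iff, Complex.norm_real, Real.norm_eq_abs, abs_of_nonneg h0]; exact h1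
    have hd : DifferentiableOn ℂ (fun w => v (φ w)) (ball 0 1) := hv.comp hφ.1 hφ.2
    have h2 := hp_re_le hd (fun w hw => hpos _ (hφ.2 hw)) hrb
    rw [Complex.norm_real, Real.norm_eq_abs, abs_of_nonneg h0, ← exp_pd h0 h1, h0', hr] at h2
    calc (v z).re ≤ Real.exp (2 * L) * (v y).re := ih
      _ ≤ Real.exp (2 * L) * (Real.exp (2 * pd r) * (v x).re) :=
          mul_le_mul_of_nonneg_left h2 (Real.exp_pos _).le
      _ = Real.exp (2 * (pd r + L)) * (v x).re := by
          rw [← mul_assoc, ← Real.exp_add]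
          ring_nf

theorem kob_harnack {Ω : Set E} (ho : IsOpen Ω) (hc : Convex ℝ Ω) {v : E → ℂ}
    (hv : DifferentiableOn ℂ v Ω) (hpos : ∀ x ∈ Ω, 0 ≤ (v x).re) {x y : E} (hx : x ∈ Ω)
    (hy : y ∈ Ω) : (v y).re ≤ Real.exp (2 * kob Ω x y) * (v x).re := by
  have hcont : Tendsto (fun R : ℝ => Real.exp (2 * R) * (v x).re) (𝓝[>] (kob Ω x y))
      (𝓝 (Real.exp (2 * kob Ω x y) * (v x).re)) := by
    apply Tendsto.mono_left _ nhdsWithin_le_nhds
    have : Continuous (fun R : ℝ => Real.exp (2 * R) * (v x).re) := by fun_prop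
    exact this.tendsto _
  refine ge_of_tendsto hcont ?_
  filter_upwards [self_mem_nhdsWithin] with R hR
  obtain ⟨L, hL, h⟩ := exists_chain_lt ho hc hx hy hR
  have h2 := KChain.harnack hv hpos h
  have h3 : Real.exp (2 * L) ≤ Real.exp (2 * R) := Real.exp_le_exp.mpr (by linarith)
  exact le_trans h2 (mul_le_mul_of_nonneg_right h3 (hpos x hx))

end

end Pool.Agent.DWH
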