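import Pool.Agent.DWH.Chain

/-!
# Module UChain: uniform chains
-/

open Set Filter Topology Metric

namespace Pool.Agent.DWH

noncomputable section

variable {E : Type*} [NormedAddCommGroup E] [NormedSpace ℂ E]

/-- one step of length `h` -/
def Step (Ω : Set E) (h : ℝ) (x y : E) : Prop :=
  ∃ φ : ℂ → E, IsDisc Ω φ ∧ φ 0 = x ∧ φ (Real.tanh h : ℝ) = y

/-- a chain of `N` steps of length `h` -/
def UChain (Ω : Set E) (h : ℝ) (N : ℕ) (x y : E) : Prop :=
  ∃ p : ℕ → E, p 0 = x ∧ p N = y ∧ ∀ i < N, Step Ω h (p i) (p (i + 1))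

theorem tanh_nonneg' {t : ℝ} (h : 0 ≤ t) : 0 ≤ Real.tanh t := by
  rw [Real.tanh_eq_sinh_div_cosh]
  exact div_nonneg (Real.sinh_nonneg_iff.mpr h) (Real.cosh_pos t).le

theorem tanh_pos' {t : ℝ} (h : 0 < t) : 0 < Real.tanh t := by
  rw [Real.tanh_eq_sinh_div_cosh]
  exact div_pos (Real.sinh_pos_iff.mpr h) (Real.cosh_pos t)

theorem tanh_mono' {s t : ℝ} (h : s ≤ t) : Real.tanh s ≤ Real.tanh t := by
  have h1 := Real.cosh_pos s
  have h2 := Real.cosh_pos t
  rw [Real.tanh_eq_sinh_div_cosh, Real.tanh_eq_sinh_div_cosh, div_le_div_iff₀ h1 h2]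
  have h3 : 0 ≤ Real.sinh (t - s) := Real.sinh_nonneg_iff.mpr (by linarith)
  rw [Real.sinh_sub] at h3
  linarith

theorem tanh_add' (s u : ℝ) :
    Real.tanh (s + u) = (Real.tanh s + Real.tanh u) / (1 + Real.tanh s * Real.tanh u) := by
  have h1 := (Real.cosh_pos s).ne'
  have h2 := (Real.cosh_pos u).ne'
  have h3 := (Real.cosh_pos (s + u)).ne'
  have h5 : 1 + Real.sinh s / Real.cosh s * (Real.sinh u / Real.cosh u) =
      Real.cosh (s + u) / (Real.cosh s * Real.cosh u) := by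
    rw [Real.cosh_add]
    field_simp
  have h6 : Real.sinh s / Real.cosh s + Real.sinh u / Real.cosh u =
      Real.sinh (s + u) / (Real.cosh s * Real.cosh u) := by
    rw [Real.sinh_add]
    field_simp
  rw [Real.tanh_eq_sinh_div_cosh, Real.tanh_eq_sinh_div_cosh, Real.tanh_eq_sinh_div_cosh, h5, h6]
  field_simp

/-- The Moebius map `w ↦ (w + a) / (1 + w a)` preserves the unit disc. -/
theorem moebius_mem {a : ℝ} (ha0 : 0 ≤ a) (ha1 : a < 1) {w : ℂ} (hw : ‖w‖ < 1) :
    1 + w * a ≠ 0 ∧ ‖(w + a) / (1 + w * a)‖ < 1 := by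
  have hw2 : w.re ^ 2 + w.im ^ 2 < 1 := by
    have h1 : ‖w‖ ^ 2 < 1 := by
      have := norm_nonneg w
      nlinarith
    rw [← Complex.normSq_eq_norm_sq, Complex.normSq_apply] at h1
    nlinarith
  have hkey : Complex.normSq (w + a) < Complex.normSq (1 + w * a) := by
    rw [Complex.normSq_apply, Complex.normSq_apply]
    simp only [Complex.add_re, Complex.add_im, Complex.ofReal_re, Complex.ofReal_im,
      Complex.mul_re, Complex.mul_im, Complex.one_re, Complex.one_im]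
    have h2 : 0 < (1 - (w.re ^ 2 + w.im ^ 2)) * (1 - a ^ 2) := by
      apply mul_pos (by linarith)
      nlinarith
    nlinarith
  have hne : 1 + w * a ≠ 0 := by
    intro h
    rw [h, map_zero] at hkey
    exact absurd hkey (not_lt.mpr (Complex.normSq_nonneg _))
  refine ⟨hne, ?_⟩
  rw [norm_div, div_lt_one (norm_pos_iff.mpr hne)]
  rw [Complex.normSq_eq_norm_sq, Complex.normSq_eq_norm_sq] at hkey
  exact lt_of_pow_lt_pow_left₀ 2 (norm_nonneg _) hkey

theorem step_of_disc {Ω : Set E} {φ : ℂ → E} (hφ : IsDisc Ω φ) {s s' h : ℝ} (hs : 0 ≤ s)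
    (hss : s ≤ s') (hs' : s' ≤ s + h) (hh : 0 < h) :
    Step Ω h (φ (Real.tanh s : ℝ)) (φ (Real.tanh s' : ℝ)) := by
  set a : ℝ := Real.tanh s with ha
  set b : ℝ := Real.tanh (s' - s) with hb
  set t : ℝ := Real.tanh h with ht
  have ha0 : 0 ≤ a := tanh_nonneg' hs
  have ha1 : a < 1 := Real.tanh_lt_one _
  have hb0 : 0 ≤ b := tanh_nonneg' (by linarith)
  have ht0 : 0 < t := tanh_pos' hh
  have hbt : b ≤ t := tanh_mono' (by linarith)
  set c : ℝ := b / t with hc
  have hc0 : 0 ≤ c := div_nonneg hb0 ht0.le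
  have hc1 : c ≤ 1 := (div_le_one ht0).mpr hbt
  have hball : ∀ w ∈ ball (0 : ℂ) 1, ‖w * (c : ℂ)‖ < 1 := by
    intro w hw
    rw [mem_ball_zero_iff] at hw
    rw [norm_mul, Complex.norm_real, Real.norm_of_nonneg hc0]
    calc ‖w‖ * c ≤ ‖w‖ * 1 := mul_le_mul_of_nonneg_left hc1 (norm_nonneg _)
      _ < 1 := by linarith
  refine ⟨fun w => φ ((w * c + a) / (1 + w * c * a)), ⟨?_, ?_⟩, ?_, ?_⟩
  · have hd : DifferentiableOn ℂ (fun w : ℂ => (w * c + a) / (1 + w * c * a)) (ball 0 1) := by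
      refine DifferentiableOn.div ?_ ?_ ?_
      · exact ((differentiable_id.mul_const _).add_const _).differentiableOn
      · exact (((differentiable_id.mul_const _).mul_const _).const_add _).differentiableOn
      · intro w hw
        exact (moebius_mem ha0 ha1 (hball w hw)).1
    exact hφ.1.comp hd (fun w hw => by
      rw [mem_ball_zero_iff]
      exact (moebius_mem ha0 ha1 (hball w hw)).2)
  · intro w hw
    apply hφ.2
    rw [mem_ball_zero_iff]
    exact (moebius_mem ha0 ha1 (hball w hw)).2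
  · simp only [zero_mul, zero_add, add_zero, div_one]
  · have h1 : (t : ℂ) * (c : ℂ) = ((b : ℝ) : ℂ) := by
      rw [← Complex.ofReal_mul, hc, mul_div_cancel₀ _ ht0.ne']
    change φ (((t : ℂ) * (c : ℂ) + a) / (1 + (t : ℂ) * (c : ℂ) * a)) = _
    rw [h1]
    congr 1
    have h2 : Real.tanh s' = (b + a) / (1 + b * a) := by
      have h3 := tanh_add' (s' - s) s
      rw [sub_add_cancel] at h3
      exact h3
    rw [h2]
    push_cast
    ring

theorem UChain.trans {Ω : Set E} {h : ℝ} {N M : ℕ} {x y z : E} (h1 : UChain Ω h N x y)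
    (h2 : UChain Ω h M y z) : UChain Ω h (N + M) x z := by
  obtain ⟨p, hp0, hpN, hp⟩ := h1
  obtain ⟨q, hq0, hqM, hq⟩ := h2
  refine ⟨fun i => if i ≤ N then p i else q (i - N), ?_, ?_, ?_⟩
  · simp only [Nat.zero_le, if_true, hp0]
  · by_cases hM : M = 0
    · subst hM
      simp only [add_zero, le_refl, if_true]
      rw [hpN, ← hqM, hq0]
    · have : ¬ (N + M ≤ N) := by omega
      simp only [this, if_false, Nat.add_sub_cancel_left, hqM]
  · intro i hi
    by_cases h3 : i + 1 ≤ N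
    · have h4 : i ≤ N := by omega
      simp only [h3, h4, if_true]
      exact hp i (by omega)
    · by_cases h4 : i ≤ N
      · have h5 : i = N := by omega
        subst h5
        simp only [le_refl, if_true, h3, if_false, Nat.add_sub_cancel_left]
        rw [hpN, ← hq0]
        exact hq 0 (by omega)
      · simp only [h3, h4, if_false]
        have h5 : i + 1 - N = (i - N) + 1 := by omega
        rw [h5]
        exact hq (i - N) (by omega)

theorem uchain_of_disc {Ω : Set E} {φ : ℂ → E} (hφ : IsDisc Ω φ) {a h : ℝ} (ha : 0 ≤ a)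
    (hh : 0 < h) {n : ℕ} (hn : a ≤ n * h) : UChain Ω h n (φ 0) (φ (Real.tanh a : ℝ)) := by
  refine ⟨fun i => φ (Real.tanh (min (i * h) a) : ℝ), ?_, ?_, ?_⟩
  · simp only [Nat.cast_zero, zero_mul, min_eq_left ha, Real.tanh_zero, Complex.ofReal_zero]
  · simp only [min_eq_right hn]
  · intro i _
    refine step_of_disc hφ ?_ ?_ ?_ hh
    · exact le_min (by positivity) ha
    · exact min_le_min_right _ (by push_cast; nlinarith)
    · rw [← min_add_add_right]
      refine min_le_min ?_ (by linarith)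
      push_cast
      linarith

theorem uchain_of_chain {Ω : Set E} {x y : E} {L : ℝ} (hL : KChain Ω x y L) {ε : ℝ} (hε : 0 < ε) :
    ∃ h0 > 0, ∀ h, 0 < h → h ≤ h0 → ∀ N : ℕ, L + ε ≤ N * h → UChain Ω h N x y := by
  induction hL generalizing ε with
  | @nil x hx =>
    refine ⟨1, one_pos, fun h _ _ N _ => ⟨fun _ => x, rfl, rfl, fun i _ => ?_⟩⟩
    exact ⟨fun _ => x, ⟨differentiableOn_const _, fun _ _ => hx⟩, rfl, rfl⟩
  | @cons x y z L φ r hr0 hr1 hφ hφ0 hφr _ ih =>
    obtain ⟨h0, hh0, H⟩ := ih (half_pos hε)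
    refine ⟨min h0 (ε / 2), lt_min hh0 (half_pos hε), fun h hh hle N hN => ?_⟩
    have hle1 : h ≤ h0 := hle.trans (min_le_left _ _)
    have hle2 : h ≤ ε / 2 := hle.trans (min_le_right _ _)
    have ha : 0 ≤ pd r := pd_nonneg hr0 hr1
    set n : ℕ := ⌈pd r / h⌉₊ with hn
    have hn1 : pd r ≤ n * h := by
      have := Nat.le_ceil (pd r / h)
      rwa [div_le_iff₀ hh] at this
    have hn2 : (n : ℝ) * h < pd r + h := by
      have h1 := Nat.ceil_lt_add_one (div_nonneg ha hh.le)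
      have h2 : (n : ℝ) * h < (pd r / h + 1) * h := mul_lt_mul_of_pos_right h1 hh
      rw [add_mul, div_mul_cancel₀ _ hh.ne', one_mul] at h2
      exact h2
    have hL0 : 0 ≤ L := by
      rename_i hch
      exact hch.nonneg
    have hnN : n ≤ N := by
      have h1 : (n : ℝ) * h < N * h := by linarith
      have h2 : (n : ℝ) < N := lt_of_mul_lt_mul_right h1 hh.le
      exact_mod_cast h2.le
    have h1 := uchain_of_disc hφ ha hh hn1
    rw [tanh_pd hr0 hr1, hφ0, hφr] at h1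
    have h2 : UChain Ω h (N - n) y z := by
      refine H h hh hle1 (N - n) ?_
      rw [Nat.cast_sub hnN, sub_mul]
      linarith
    have h3 := h1.trans h2
    rwa [Nat.add_sub_cancel' hnN] at h3

/-- uniform chains whose number of steps is as large as we want -/
theorem exists_uchain {Ω : Set E} (ho : IsOpen Ω) (hc : Convex ℝ Ω) {x y : E} (hx : x ∈ Ω)
    (hy : y ∈ Ω) {R : ℝ} (h : kob Ω x y < R) :
    ∃ N0 : ℕ, 0 < N0 ∧ ∀ N ≥ N0, UChain Ω (R / N) N x y := by
  obtain ⟨L, hLR, hL⟩ := exists_chain_lt ho hc hx hy h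
  have hL0 : 0 ≤ L := hL.nonneg
  have hR : 0 < R := lt_of_le_of_lt hL0 hLR
  obtain ⟨h0, hh0, H⟩ := uchain_of_chain hL (sub_pos.mpr hLR)
  refine ⟨⌈R / h0⌉₊ + 1, Nat.succ_pos _, fun N hN => ?_⟩
  have hN0 : (0 : ℝ) < N := by
    have : 0 < N := by omega
    exact_mod_cast this
  have hN1 : R / h0 ≤ N := by
    have h1 := Nat.le_ceil (R / h0)
    have h2 : ((⌈R / h0⌉₊ : ℕ) : ℝ) ≤ N := by
      have : ⌈R / h0⌉₊ ≤ N := by omega
      exact_mod_cast this
    linarith
  refine H (R / N) (div_pos hR hN0) ?_ N ?_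
  · rw [div_le_iff₀ hh0] at hN1
    rw [div_le_iff₀ hN0]
    linarith
  · rw [mul_div_cancel₀ _ hN0.ne']
    linarith

theorem Step.kchain {Ω : Set E} {h : ℝ} (hh : 0 ≤ h) {x y z : E} {L : ℝ} (hs : Step Ω h x y)
    (hc : KChain Ω y z L) : KChain Ω x z (h + L) := by
  obtain ⟨φ, hφ, h0, h1⟩ := hs
  have := KChain.cons φ (Real.tanh h) (tanh_nonneg' hh) (Real.tanh_lt_one h) hφ h0 h1 hc
  rwa [pd_tanh] at this

theorem Step.mem_left {Ω : Set E} {h : ℝ} {x y : E} (hs : Step Ω h x y) : x ∈ Ω := by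
  obtain ⟨φ, hφ, h0, _⟩ := hs
  rw [← h0]
  exact hφ.2 (mem_ball_self one_pos)

theorem Step.mem_right {Ω : Set E} {h : ℝ} {x y : E} (hs : Step Ω h x y) : y ∈ Ω := by
  obtain ⟨φ, hφ, _, h1⟩ := hs
  rw [← h1]
  apply hφ.2
  rw [mem_ball_zero_iff, Complex.norm_real, Real.norm_eq_abs]
  exact Real.abs_tanh_lt_one h

theorem Step.kob_le {Ω : Set E} {h : ℝ} (hh : 0 ≤ h) {x y : E} (hs : Step Ω h x y) :
    kob Ω x y ≤ h := by
  have := Pool.Agent.DWH.kob_le (hs.kchain hh (KChain.nil hs.mem_right))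
  rwa [add_zero] at this

theorem kchain_of_steps {Ω : Set E} {h : ℝ} (hh : 0 ≤ h) {p : ℕ → E} {N : ℕ}
    (hp : ∀ i < N, Step Ω h (p i) (p (i + 1))) (hN : p N ∈ Ω) (k : ℕ) (hk : k ≤ N) :
    KChain Ω (p (N - k)) (p N) (k * h) := by
  induction k with
  | zero =>
    simp only [Nat.sub_zero, Nat.cast_zero, zero_mul]
    exact KChain.nil hN
  | succ k ih =>
    have h1 := hp (N - (k + 1)) (by omega)
    have h2 : N - (k + 1) + 1 = N - k := by omega
    rw [h2] at h1
    have h3 := h1.kchain hh (ih (by omega))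
    have h4 : h + (k : ℝ) * h = ((k + 1 : ℕ) : ℝ) * h := by
      push_cast
      ring
    rwa [h4] at h3

theorem kob_le_of_steps {Ω : Set E} {h : ℝ} (hh : 0 ≤ h) {p : ℕ → E} {N : ℕ}
    (hp : ∀ i < N, Step Ω h (p i) (p (i + 1))) (hN : p N ∈ Ω) {i : ℕ} (hi : i ≤ N) :
    kob Ω (p i) (p N) ≤ (N - i : ℝ) * h := by
  have h1 := kchain_of_steps hh hp hN (N - i) (Nat.sub_le _ _)
  rw [Nat.sub_sub_self hi, Nat.cast_sub hi] at h1
  exact Pool.Agent.DWH.kob_le h1

theorem kob_le_of_steps' {Ω : Set E} {h : ℝ} (hh : 0 ≤ h) {p : ℕ → E} {N : ℕ}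
    (hp : ∀ i < N, Step Ω h (p i) (p (i + 1))) (h0 : p 0 ∈ Ω) {i : ℕ} (hi : i ≤ N) :
    kob Ω (p 0) (p i) ≤ (i : ℝ) * h := by
  have hmem : p i ∈ Ω := by
    rcases Nat.eq_zero_or_pos i with rfl | hpos
    · exact h0
    · have h1 := (hp (i - 1) (by omega)).mem_right
      rwa [Nat.sub_add_cancel hpos] at h1
  have h1 := kchain_of_steps hh (N := i) (fun j hj => hp j (lt_of_lt_of_le hj hi)) hmem i le_rfl
  rw [Nat.sub_self] at h1
  exact Pool.Agent.DWH.kob_le h1

end

end Pool.Agent.DWH
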