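import Pool.Agent.DWH.Convex
import Pool.Agent.DWH.UChain

/-!
# Module Contract: convexity of the Kobayashi distance and strict contractions
-/

open Set Filter Topology Metric

namespace Pool.Agent.DWH

noncomputable section

variable {E : Type*} [NormedAddCommGroup E] [NormedSpace ℂ E]

namespace Contract

theorem tanh_mem (h : ℝ) : ((Real.tanh h : ℝ) : ℂ) ∈ ball (0 : ℂ) 1 := by
  rw [mem_ball_zero_iff, Complex.norm_real]
  exact Real.abs_tanh_lt_one h

theorem step_left {Ω : Set E} {h : ℝ} {x y : E} (hs : Step Ω h x y) : x ∈ Ω := by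
  obtain ⟨φ, hφ, h0, -⟩ := hs
  rw [← h0]
  exact hφ.2 (mem_ball_self one_pos)

theorem step_right {Ω : Set E} {h : ℝ} {x y : E} (hs : Step Ω h x y) : y ∈ Ω := by
  obtain ⟨φ, hφ, -, h1⟩ := hs
  rw [← h1]
  exact hφ.2 (tanh_mem h)

theorem step_convex {Ω : Set E} (hc : Convex ℝ Ω) {h : ℝ} {x y x' y' : E} (h1 : Step Ω h x y)
    (h2 : Step Ω h x' y') {t : ℝ} (h0 : 0 ≤ t) (ht : t ≤ 1) :
    Step Ω h (t • x + (1 - t) • x') (t • y + (1 - t) • y') := by
  obtain ⟨φ, hφ, a0, a1⟩ := h1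
  obtain ⟨φ', hφ', b0, b1⟩ := h2
  refine ⟨fun w => t • φ w + (1 - t) • φ' w, ⟨?_, ?_⟩, ?_, ?_⟩
  · exact (hφ.1.const_smul t).add (hφ'.1.const_smul (1 - t))
  · intro w hw
    exact hc (hφ.2 hw) (hφ'.2 hw) h0 (by linarith) (by ring)
  · simp only [a0, b0]
  · simp only [a1, b1]

theorem tanh_pos' {s : ℝ} (hs : 0 < s) : 0 < Real.tanh s := by
  rw [Real.tanh_eq_sinh_div_cosh]
  exact div_pos (Real.sinh_pos_iff.2 hs) (Real.cosh_pos s)

/-- strict contraction of short steps -/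
theorem strict_step {Ω : Set E} (h : Dom Ω) {c : E} (hc : c ∈ Ω) {ε : ℝ} (h0 : 0 < ε)
    (h1 : ε ≤ 1) : ∃ q, 0 ≤ q ∧ q < 1 ∧ ∃ η > 0, ∀ s, 0 < s → s ≤ η → ∀ x y, Step Ω s x y →
      kob Ω ((1 - ε) • x + ε • c) ((1 - ε) • y + ε • c) ≤ q * s := by
  obtain ⟨M, hM⟩ := h.bdd.exists_norm_le
  have hM0 : 0 ≤ M := (norm_nonneg c).trans (hM c hc)
  have hd : 0 < dlt Ω c := dlt_pos h hc
  set δ := ε * dlt Ω c with hδ
  have hδ0 : 0 < δ := mul_pos h0 hd
  have hball : ∀ x ∈ Ω, ball ((1 - ε) • x + ε • c) δ ⊆ Ω := by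
    intro x hx z hz
    have hz' : c + ε⁻¹ • (z - ((1 - ε) • x + ε • c)) ∈ Ω := by
      apply ball_dlt h (x := c)
      rw [mem_ball, dist_eq_norm] at hz ⊢
      rw [add_sub_cancel_left, norm_smul, Real.norm_eq_abs, abs_of_pos (inv_pos.2 h0)]
      rw [inv_mul_lt_iff₀ h0]
      exact hz
    have := h.cvx hx hz' (by linarith : (0 : ℝ) ≤ 1 - ε) h0.le (by ring)
    have he : (1 - ε) • x + ε • (c + ε⁻¹ • (z - ((1 - ε) • x + ε • c))) = z := by
      rw [smul_add, smul_smul, mul_inv_cancel₀ h0.ne', one_smul]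
      abel
    rwa [he] at this
  set κ := min (1 / 2) (δ / (16 * (M + 1))) with hκ
  have hκ0 : 0 < κ := lt_min (by norm_num) (by positivity)
  have hκ1 : κ ≤ 1 / 2 := min_le_left _ _
  have hκ2 : 8 * (M + 1) * κ < δ := by
    have : κ ≤ δ / (16 * (M + 1)) := min_le_right _ _
    rw [le_div_iff₀ (by positivity)] at this
    nlinarith
  refine ⟨1 - κ / 2, by linarith, by linarith, κ / 2, by linarith, ?_⟩
  intro s hs0 hs x y hst
  obtain ⟨φ, hφ, e0, e1⟩ := hst
  set r := Real.tanh s with hr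
  have hr0 : 0 < r := tanh_pos' hs0
  have hr1 : r < 1 := Real.tanh_lt_one s
  have hrs : r ≤ s := by
    have := le_pd hr0.le hr1
    rwa [hr, pd_tanh, ← hr] at this
  set r' := (1 - κ) * r with hr'
  have hr'0 : 0 < r' := mul_pos (by linarith) hr0
  have hr'r : r' ≤ r := by nlinarith
  set ψ : ℂ → E := fun w => (1 - ε) • φ w + ε • c with hψ
  have hψd : DifferentiableOn ℂ ψ (ball 0 1) := (hφ.1.const_smul (1 - ε)).add_const _
  have hψm : MapsTo ψ (ball 0 1) Ω := fun w hw =>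
    h.cvx (hφ.2 hw) hc (by linarith) h0.le (by ring)
  have hsub : ball ((r' : ℝ) : ℂ) (1 / 2) ⊆ ball (0 : ℂ) 1 := by
    apply ball_subset_ball'
    rw [dist_zero_right, Complex.norm_real, Real.norm_eq_abs, abs_of_pos hr'0]
    linarith
  have hr'm : ((r' : ℝ) : ℂ) ∈ ball (0 : ℂ) 1 := hsub (mem_ball_self (by norm_num))
  have hlip : ‖ψ r - ψ r'‖ ≤ 4 * (M + 1) * (κ * r) := by
    have hmt : MapsTo ψ (ball ((r' : ℝ) : ℂ) (1 / 2)) (closedBall (ψ r') (2 * (M + 1))) := by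
      intro w hw
      rw [mem_closedBall, dist_eq_norm]
      refine (norm_sub_le _ _).trans ?_
      have a := hM _ (hψm (hsub hw))
      have b := hM _ (hψm hr'm)
      linarith
    have hz : ((r : ℝ) : ℂ) ∈ ball ((r' : ℝ) : ℂ) (1 / 2) := by
      rw [mem_ball, dist_eq_norm, ← Complex.ofReal_sub, Complex.norm_real, Real.norm_eq_abs,
        abs_of_nonneg (by linarith)]
      linarith
    have := Complex.dist_le_div_mul_dist_of_mapsTo_ball (hψd.mono hsub) hmt hz
    rw [dist_eq_norm, dist_eq_norm, ← Complex.ofReal_sub, Complex.norm_real, Real.norm_eq_abs,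
        abs_of_nonneg (by linarith : 0 ≤ r - r')] at this
    refine this.trans (le_of_eq ?_)
    rw [hr']
    ring
  set χ : ℂ → E := fun w => ψ w + (w / (r' : ℂ)) • (ψ r - ψ r') with hχ
  have hr'c : (r' : ℂ) ≠ 0 := by exact_mod_cast hr'0.ne'
  have hχd : IsDisc Ω χ := by
    refine ⟨?_, ?_⟩
    · apply hψd.add
      exact ((differentiable_id.div_const _).smul_const _).differentiableOn
    · intro w hw
      apply hball (φ w) (hφ.2 hw)
      rw [mem_ball, dist_eq_norm]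
      have e : χ w - ((1 - ε) • φ w + ε • c) = (w / (r' : ℂ)) • (ψ r - ψ r') := by
        simp only [hχ, hψ]
        abel
      rw [e, norm_smul, norm_div, Complex.norm_real, Real.norm_eq_abs, abs_of_pos hr'0]
      rw [mem_ball_zero_iff] at hw
      calc ‖w‖ / r' * ‖ψ r - ψ r'‖ ≤ 1 / r' * (4 * (M + 1) * (κ * r)) := by gcongr
        _ = 4 * (M + 1) * κ / (1 - κ) := by
          rw [hr']
          have : 1 - κ ≠ 0 := by linarith
          field_simp
        _ ≤ 8 * (M + 1) * κ := by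
          rw [div_le_iff₀ (by linarith)]
          nlinarith [mul_nonneg (mul_nonneg (by norm_num : (0 : ℝ) ≤ 8) (by linarith : 0 ≤ M + 1))
            hκ0.le]
        _ < δ := hκ2
  have hk := kob_le_disc hχd hr'0.le (by linarith)
  have g0 : χ 0 = (1 - ε) • x + ε • c := by
    simp only [hχ, hψ, zero_div, zero_smul, add_zero, e0]
  have g1 : χ r' = (1 - ε) • y + ε • c := by
    simp only [hχ, div_self hr'c, one_smul]
    rw [add_sub_cancel]
    simp only [hψ, e1]
  rw [g0, g1] at hk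
  refine hk.trans ?_
  have hp := pd_le hr'0.le (by linarith : r' < 1)
  refine hp.trans ?_
  have hr'κ : r' ≤ κ / 2 := by linarith
  rw [div_le_iff₀ (by linarith)]
  have k1 : (1 - κ / 2) * r ≤ (1 - κ / 2) * s := by gcongr; linarith
  have k2 : r' ≤ (1 - κ / 2) * r * (1 - κ / 2) := by
    rw [hr']
    nlinarith [mul_nonneg (sq_nonneg κ) hr0.le]
  calc r' ≤ (1 - κ / 2) * r * (1 - κ / 2) := k2
    _ ≤ (1 - κ / 2) * s * (1 - r') := by
      apply mul_le_mul k1 (by linarith) (by linarith)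
      exact mul_nonneg (by linarith) hs0.le

end Contract

open Contract

theorem kob_convex {Ω : Set E} (h : Dom Ω) {x y x' y' : E} (hx : x ∈ Ω) (hy : y ∈ Ω)
    (hx' : x' ∈ Ω) (hy' : y' ∈ Ω) {t : ℝ} (h0 : 0 ≤ t) (h1 : t ≤ 1) :
    kob Ω (t • x + (1 - t) • x') (t • y + (1 - t) • y') ≤ max (kob Ω x y) (kob Ω x' y') := by
  by_contra hcon
  rw [not_le] at hcon
  obtain ⟨R, hR1, hR2⟩ := exists_between hcon
  have hRp : 0 < R := (kob_nonneg Ω x y).trans_lt ((le_max_left _ _).trans_lt hR1)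
  obtain ⟨N, hN0, hN⟩ := exists_uchain h.op h.cvx hx hy ((le_max_left _ _).trans_lt hR1)
  obtain ⟨N', hN0', hN'⟩ := exists_uchain h.op h.cvx hx' hy' ((le_max_right _ _).trans_lt hR1)
  obtain ⟨p, p0, p1, hp⟩ := hN (max N N') (le_max_left _ _)
  obtain ⟨p', p0', p1', hp'⟩ := hN' (max N N') (le_max_right _ _)
  set K := max N N' with hK
  have hK0 : 0 < K := lt_of_lt_of_le hN0 (le_max_left _ _)
  have hst : ∀ i < K, Step Ω (R / K) ((fun i => t • p i + (1 - t) • p' i) i)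
      ((fun i => t • p i + (1 - t) • p' i) (i + 1)) := fun i hi =>
    step_convex h.cvx (hp i hi) (hp' i hi) h0 h1
  have := kob_le_of_steps' (Ω := Ω) (by positivity) hst (by
    simp only [p0, p0']
    exact h.cvx hx hx' h0 (by linarith) (by ring)) le_rfl
  simp only [p0, p0', p1, p1'] at this
  rw [mul_div_cancel₀ _ (by exact_mod_cast hK0.ne')] at this
  linarith

/-- segments towards the end point -/
theorem kob_segment {Ω : Set E} (h : Dom Ω) {y z : E} (hy : y ∈ Ω) (hz : z ∈ Ω) {t : ℝ}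
    (h0 : 0 ≤ t) (h1 : t ≤ 1) : kob Ω (t • y + (1 - t) • z) z ≤ kob Ω y z := by
  have := kob_convex h hy hz hz hz h0 h1
  have e : t • z + (1 - t) • z = z := by rw [← add_smul]; simp
  rwa [e, kob_self hz, max_eq_left (kob_nonneg Ω y z)] at this

/-- strict contraction -/
theorem kob_strict {Ω : Set E} (h : Dom Ω) {c : E} (hc : c ∈ Ω) {ε : ℝ} (h0 : 0 < ε)
    (h1 : ε ≤ 1) : ∃ q, 0 ≤ q ∧ q < 1 ∧ ∀ x ∈ Ω, ∀ y ∈ Ω,
      kob Ω ((1 - ε) • x + ε • c) ((1 - ε) • y + ε • c) ≤ q * kob Ω x y := by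
  obtain ⟨q, hq0, hq1, η, hη, hst⟩ := strict_step h hc h0 h1
  refine ⟨q, hq0, hq1, ?_⟩
  intro x hx y hy
  have ha : ∀ z ∈ Ω, (1 - ε) • z + ε • c ∈ Ω := fun z hz =>
    h.cvx hz hc (by linarith) h0.le (by ring)
  apply le_of_forall_pos_le_add
  intro e he
  have hR : kob Ω x y < kob Ω x y + e := by linarith
  set R := kob Ω x y + e with hRdef
  have hRp : 0 < R := by linarith [kob_nonneg Ω x y]
  obtain ⟨N0, hN0, hN⟩ := exists_uchain h.op h.cvx hx hy hR
  obtain ⟨N1, hN1⟩ := exists_nat_gt (R / η)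
  set N := max N0 N1 with hNd
  have hNp : 0 < N := lt_of_lt_of_le hN0 (le_max_left _ _)
  have hNr : (0 : ℝ) < N := by exact_mod_cast hNp
  obtain ⟨p, p0, p1, hp⟩ := hN N (le_max_left _ _)
  have hs0 : 0 < R / N := by positivity
  have hs1 : R / N ≤ η := by
    have : (N1 : ℝ) ≤ N := by exact_mod_cast le_max_right _ _
    rw [div_le_iff₀ hNr]
    rw [div_lt_iff₀ hη] at hN1
    nlinarith
  have hpm : ∀ i ≤ N, p i ∈ Ω := by
    intro i hi
    rcases lt_or_eq_of_le hi with h' | h'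
    · exact step_left (hp i h')
    · rw [h', p1]; exact hy
  have key : ∀ i ≤ N, kob Ω ((1 - ε) • p 0 + ε • c) ((1 - ε) • p i + ε • c) ≤
      (i : ℝ) * (q * (R / N)) := by
    intro i
    induction i with
    | zero =>
      intro _
      rw [kob_self (ha _ (hpm 0 (Nat.zero_le _)))]
      simp
    | succ i ih =>
      intro hi
      have hi' : i < N := hi
      have a := ih hi'.le
      have b := hst _ hs0 hs1 _ _ (hp i hi')
      have c' := kob_triangle h.op h.cvx (ha _ (hpm 0 (Nat.zero_le _))) (ha _ (hpm i hi'.le))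
        (ha _ (hpm (i + 1) hi))
      push_cast
      linarith
  have := key N le_rfl
  rw [p0, p1] at this
  refine this.trans ?_
  have e1 : (N : ℝ) * (q * (R / N)) = q * R := by field_simp
  rw [e1, hRdef, mul_add]
  have : q * e ≤ e := by nlinarith
  linarith

end

end Pool.Agent.DWH
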