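import Pool.Agent.DWH.Chain

/-!
# Module Convex: the Kobayashi distance of a bounded convex domain
-/

open Set Filter Topology Metric

namespace Pool.Agent.DWH

noncomputable section

variable {E : Type*} [NormedAddCommGroup E] [NormedSpace ℂ E]

/-- distance to the complement -/
def dlt (Ω : Set E) (x : E) : ℝ := infDist x Ωᶜ

/-- bounded convex domains -/
structure Dom (Ω : Set E) : Prop where
  op : IsOpen Ω
  cvx : Convex ℝ Ω
  bdd : Bornology.IsBounded Ω
  comp : Ωᶜ.Nonempty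

theorem dlt_pos {Ω : Set E} (h : Dom Ω) {x : E} (hx : x ∈ Ω) : 0 < dlt Ω x :=
  (h.op.isClosed_compl.notMem_iff_infDist_pos h.comp).1 (by simpa using hx)

theorem dlt_nonneg (Ω : Set E) (x : E) : 0 ≤ dlt Ω x := infDist_nonneg

theorem ball_dlt {Ω : Set E} (h : Dom Ω) {x : E} : ball x (dlt Ω x) ⊆ Ω :=
  ball_infDist_compl_subset

theorem le_dlt {Ω : Set E} (h : Dom Ω) {x : E} {r : ℝ} (hr : ball x r ⊆ Ω) : r ≤ dlt Ω x :=
  (le_infDist h.comp).2 fun y hy => not_lt.1 fun hlt =>
    hy (hr (by rwa [mem_ball, dist_comm]))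

/-- supporting functions -/
theorem exists_support [ProperSpace E] {Ω : Set E} (h : Dom Ω) {x : E} (hx : x ∈ Ω) :
    ∃ v : E → ℂ, Differentiable ℂ v ∧ (∀ y ∈ Ω, dlt Ω y ≤ (v y).re) ∧ (v x).re ≤ dlt Ω x := by
  obtain ⟨q, hq, hxq⟩ := h.op.isClosed_compl.exists_infDist_eq_dist h.comp x
  obtain ⟨f, hf⟩ := RCLike.geometric_hahn_banach_open_point (𝕜 := ℂ) h.cvx h.op hq
  simp only [RCLike.re_to_complex] at hf
  have hfne : f ≠ 0 := by
    rintro rfl
    simpa using hf x hx
  have hfpos : 0 < ‖f‖ := norm_pos_iff.2 hfne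
  have key : ∀ y ∈ Ω, ‖f‖ * dlt Ω y ≤ (f (q - y)).re := by
    intro y hy
    have hd := dlt_pos h hy
    set M := (f (q - y)).re with hM
    have hMpos : 0 < M := by
      have := hf y hy
      simp only [hM, map_sub, Complex.sub_re]
      linarith
    have hb : ‖f‖ ≤ M / dlt Ω y := by
      refine f.opNorm_le_bound (by positivity) fun u => ?_
      by_contra hcon
      push Not at hcon
      have hfu : 0 < ‖f u‖ := lt_of_le_of_lt (by positivity) hcon
      have hu : u ≠ 0 := by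
        rintro rfl
        simp at hfu
      have hun : 0 < ‖u‖ := norm_pos_iff.2 hu
      set c : ℂ := (M / ‖f u‖ : ℝ) * ((starRingEnd ℂ) (f u) / ‖f u‖) with hc
      have hcn : ‖c‖ = M / ‖f u‖ := by
        rw [hc, norm_mul, norm_div, Complex.norm_real, Complex.norm_real, RCLike.norm_conj,
          norm_norm, div_self hfu.ne', mul_one, Real.norm_eq_abs, abs_of_pos (by positivity)]
      have hfc : f (c • u) = (M : ℝ) := by
        rw [map_smul, smul_eq_mul, hc]
        have hne : (‖f u‖ : ℂ) ≠ 0 := by exact_mod_cast hfu.ne'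
        have h1 : (starRingEnd ℂ) (f u) * f u = (‖f u‖ : ℂ) ^ 2 := by
          rw [mul_comm, Complex.mul_conj, Complex.normSq_eq_norm_sq]
          push_cast
          ring
        calc ((M / ‖f u‖ : ℝ) : ℂ) * ((starRingEnd ℂ) (f u) / ‖f u‖) * f u
            = (M : ℂ) / ‖f u‖ / ‖f u‖ * ((starRingEnd ℂ) (f u) * f u) := by
              push_cast
              ring
          _ = (M : ℝ) := by
              rw [h1]
              field_simp
      have hin : y + c • u ∈ Ω := by
        apply ball_dlt h (x := y)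
        rw [mem_ball, dist_eq_norm, add_sub_cancel_left, norm_smul, hcn]
        rw [div_mul_eq_mul_div, div_lt_iff₀ hfu]
        rw [div_mul_eq_mul_div, div_lt_iff₀ hd] at hcon
        linarith
      have := hf _ hin
      rw [map_add, Complex.add_re, hfc, Complex.ofReal_re] at this
      simp only [hM, map_sub, Complex.sub_re] at this
      linarith
    rwa [le_div_iff₀ hd] at hb
  refine ⟨fun y => ((‖f‖ : ℝ) : ℂ)⁻¹ * f (q - y), ?_, ?_, ?_⟩
  · intro y
    fun_prop
  · intro y hy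
    have h1 := key y hy
    rw [← Complex.ofReal_inv, Complex.re_ofReal_mul, inv_mul_eq_div, le_div_iff₀ hfpos]
    linarith
  · simp only [dlt]
    rw [hxq, ← Complex.ofReal_inv, Complex.re_ofReal_mul, inv_mul_eq_div, div_le_iff₀ hfpos]
    calc (f (q - x)).re ≤ ‖f (q - x)‖ := Complex.re_le_norm _
      _ ≤ ‖f‖ * ‖q - x‖ := f.le_opNorm _
      _ = dist x q * ‖f‖ := by rw [dist_comm, dist_eq_norm, mul_comm]

theorem dlt_harnack [ProperSpace E] {Ω : Set E} (h : Dom Ω) {x y : E} (hx : x ∈ Ω) (hy : y ∈ Ω) :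
    dlt Ω x ≤ Real.exp (2 * kob Ω x y) * dlt Ω y := by
  obtain ⟨v, hv, hge, hle⟩ := exists_support h hy
  have h1 := kob_harnack h.op h.cvx hv.differentiableOn
    (fun z hz => (dlt_nonneg Ω z).trans (hge z hz)) hy hx
  rw [kob_comm Ω y x] at h1
  calc dlt Ω x ≤ (v x).re := hge x hx
    _ ≤ _ := h1
    _ ≤ _ := mul_le_mul_of_nonneg_left hle (Real.exp_pos _).le

theorem exists_norm_le {Ω : Set E} (h : Dom Ω) :
    ∃ C > 0, ∀ x ∈ Ω, ∀ y ∈ Ω, ‖x - y‖ ≤ C * kob Ω x y := by
  obtain ⟨R, hR0, hR⟩ := h.bdd.subset_ball_lt 0 (0 : E)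
  have hdisc : ∀ (φ : ℂ → E) (r : ℝ), 0 ≤ r → r < 1 → IsDisc Ω φ →
      ‖φ 0 - φ r‖ ≤ 2 * R * pd r := by
    intro φ r h0 h1 hφ
    have hm : MapsTo φ (ball 0 1) (closedBall (φ 0) (2 * R)) := by
      intro w hw
      have h2 := hR (hφ.2 hw)
      have h3 := hR (hφ.2 (mem_ball_self one_pos))
      rw [mem_ball, dist_zero_right] at h2 h3
      rw [mem_closedBall, dist_eq_norm]
      calc ‖φ w - φ 0‖ ≤ ‖φ w‖ + ‖φ 0‖ := norm_sub_le _ _
        _ ≤ 2 * R := by linarith
    have hr : (r : ℂ) ∈ ball (0 : ℂ) 1 := by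
      rw [mem_ball, dist_zero_right, Complex.norm_real, Real.norm_eq_abs, abs_of_nonneg h0]
      exact h1
    have h4 := Complex.dist_le_div_mul_dist_of_mapsTo_ball hφ.1 hm hr
    rw [dist_zero_right, Complex.norm_real, Real.norm_eq_abs, abs_of_nonneg h0, div_one,
      dist_comm, dist_eq_norm] at h4
    exact h4.trans (mul_le_mul_of_nonneg_left (le_pd h0 h1) (by positivity))
  have hchain : ∀ (x y : E) (L : ℝ), KChain Ω x y L → ‖x - y‖ ≤ 2 * R * L := by
    intro x y L hL
    induction hL with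
    | nil hx => simp
    | cons φ r h0 h1 hφ hx hy hch ih =>
      have h5 := hdisc φ r h0 h1 hφ
      rw [hx, hy] at h5
      calc ‖_ - _‖ ≤ ‖_ - _‖ + ‖_ - _‖ := norm_sub_le_norm_sub_add_norm_sub _ _ _
        _ ≤ 2 * R * (pd r + _) := by linarith
  refine ⟨2 * R, by positivity, fun x hx y hy => ?_⟩
  have hR2 : 0 < 2 * R := by positivity
  rw [mul_comm, ← div_le_iff₀ hR2]
  obtain ⟨L, hL⟩ := exists_chain h.op h.cvx hx hy
  refine le_csInf ⟨L, hL⟩ fun L' hL' => ?_
  rw [div_le_iff₀ hR2, mul_comm]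
  exact hchain x y L' hL'

theorem kob_local {Ω : Set E} (h : Dom Ω) {x y : E} (hx : x ∈ Ω) (hy : ‖y - x‖ < dlt Ω x) :
    kob Ω x y ≤ pd (‖y - x‖ / dlt Ω x) := by
  have hd := dlt_pos h hx
  rcases eq_or_ne y x with rfl | hne
  · rw [kob_self hx]
    simp [pd_zero]
  have hn : 0 < ‖y - x‖ := norm_pos_iff.2 (sub_ne_zero.2 hne)
  set φ : ℂ → E := fun w => x + w • (((dlt Ω x / ‖y - x‖ : ℝ) : ℂ) • (y - x)) with hφ
  have hdisc : IsDisc Ω φ := by
    refine ⟨?_, ?_⟩
    · apply Differentiable.differentiableOn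
      intro w
      fun_prop
    · intro w hw
      rw [mem_ball, dist_zero_right] at hw
      apply ball_dlt h (x := x)
      rw [mem_ball, dist_eq_norm, hφ]
      simp only [add_sub_cancel_left, norm_smul, Complex.norm_real, Real.norm_eq_abs]
      rw [abs_of_pos (by positivity), div_mul_cancel₀ _ hn.ne']
      nlinarith
  have h0 : 0 ≤ ‖y - x‖ / dlt Ω x := by positivity
  have h1 : ‖y - x‖ / dlt Ω x < 1 := by rwa [div_lt_one hd]
  have h2 := kob_le_disc hdisc h0 h1
  have e0 : φ 0 = x := by simp [hφ]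
  have e1 : φ ((‖y - x‖ / dlt Ω x : ℝ) : ℂ) = y := by
    simp only [hφ]
    rw [smul_smul, ← Complex.ofReal_mul]
    have : ‖y - x‖ / dlt Ω x * (dlt Ω x / ‖y - x‖) = 1 := by
      field_simp
    rw [this]
    simp
  rwa [e0, e1] at h2

theorem dlt_concave {Ω : Set E} (h : Dom Ω) {x y : E} (hx : x ∈ Ω) (hy : y ∈ Ω) {s t : ℝ}
    (hs : 0 ≤ s) (ht : 0 ≤ t) (hst : s + t = 1) :
    s * dlt Ω x + t * dlt Ω y ≤ dlt Ω (s • x + t • y) := by
  have hdx := dlt_pos h hx
  have hdy := dlt_pos h hy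
  set D := s * dlt Ω x + t * dlt Ω y with hD
  have hDpos : 0 < D := by
    rcases hs.eq_or_lt with h0 | h0
    · have : t = 1 := by linarith
      rw [hD, ← h0, this]
      linarith
    · have : 0 ≤ t * dlt Ω y := by positivity
      have : 0 < s * dlt Ω x := by positivity
      linarith
  apply le_dlt h
  intro p hp
  rw [mem_ball, dist_eq_norm] at hp
  set u := p - (s • x + t • y) with hu
  have ha : x + (dlt Ω x / D) • u ∈ Ω := by
    apply ball_dlt h (x := x)
    rw [mem_ball, dist_eq_norm, add_sub_cancel_left, norm_smul, Real.norm_eq_abs,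
      abs_of_pos (by positivity), div_mul_eq_mul_div, div_lt_iff₀ hDpos]
    exact mul_lt_mul_of_pos_left hp hdx
  have hb : y + (dlt Ω y / D) • u ∈ Ω := by
    apply ball_dlt h (x := y)
    rw [mem_ball, dist_eq_norm, add_sub_cancel_left, norm_smul, Real.norm_eq_abs,
      abs_of_pos (by positivity), div_mul_eq_mul_div, div_lt_iff₀ hDpos]
    exact mul_lt_mul_of_pos_left hp hdy
  have := h.cvx ha hb hs ht hst
  convert this using 1
  have e : s • (x + (dlt Ω x / D) • u) + t • (y + (dlt Ω y / D) • u)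
      = s • x + t • y + ((s * dlt Ω x + t * dlt Ω y) / D) • u := by
    rw [add_div, mul_div_assoc, mul_div_assoc]
    module
  rw [e, ← hD, div_self hDpos.ne', one_smul, hu]
  abel

theorem pd_half_pos : 0 < pd (1 / 2) := by
  have := le_pd (r := 1 / 2) (by norm_num) (by norm_num)
  linarith

/-- points deep inside are at bounded distance -/
theorem kob_le_of_dlt {Ω : Set E} (h : Dom Ω) {δ : ℝ} (hδ : 0 < δ) {R : ℝ}
    (hR : ∀ x ∈ Ω, ∀ y ∈ Ω, ‖x - y‖ ≤ R) {N : ℕ} (hN0 : 0 < N) (hN : 2 * R ≤ δ * N) {x y : E}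
    (hx : x ∈ Ω) (hy : y ∈ Ω) (hdx : δ ≤ dlt Ω x) (hdy : δ ≤ dlt Ω y) :
    kob Ω x y ≤ N * pd (1 / 2) := by
  have hNpos : (0 : ℝ) < N := by exact_mod_cast hN0
  set p : ℕ → E := fun i => (1 - (i : ℝ) / N) • x + ((i : ℝ) / N) • y with hp
  have hpmem : ∀ i ≤ N, p i ∈ Ω ∧ δ ≤ dlt Ω (p i) := by
    intro i hi
    have hi' : (i : ℝ) / N ≤ 1 := by
      rw [div_le_one hNpos]
      exact_mod_cast hi
    have hi0 : 0 ≤ (i : ℝ) / N := by positivity
    refine ⟨h.cvx hx hy (by linarith) hi0 (by ring), ?_⟩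
    have := dlt_concave h hx hy (s := 1 - (i : ℝ) / N) (t := (i : ℝ) / N) (by linarith) hi0 (by ring)
    refine le_trans ?_ this
    nlinarith
  have hstep : ∀ i < N, kob Ω (p i) (p (i + 1)) ≤ pd (1 / 2) := by
    intro i hi
    obtain ⟨hm, hd⟩ := hpmem i hi.le
    have hdiff : p (i + 1) - p i = ((1 : ℝ) / N) • (y - x) := by
      simp only [hp]
      push_cast
      rw [add_div]
      module
    have hnorm : ‖p (i + 1) - p i‖ ≤ δ / 2 := by
      rw [hdiff, norm_smul, Real.norm_eq_abs, abs_of_pos (by positivity)]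
      have := hR y hy x hx
      rw [div_mul_eq_mul_div, one_mul, div_le_iff₀ hNpos]
      linarith
    have hlt : ‖p (i + 1) - p i‖ < dlt Ω (p i) := by linarith
    refine (kob_local h hm hlt).trans ?_
    have hdp := dlt_pos h hm
    refine pd_mono (by positivity) ?_ (by norm_num)
    rw [div_le_iff₀ hdp]
    linarith
  have hind : ∀ i ≤ N, kob Ω x (p i) ≤ i * pd (1 / 2) := by
    intro i
    induction i with
    | zero =>
      intro _
      have : p 0 = x := by simp [hp]
      rw [this, kob_self hx]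
      simp
    | succ i ih =>
      intro hi
      have h1 := ih (by omega)
      have h2 := hstep i (by omega)
      have h3 := kob_triangle h.op h.cvx hx (hpmem i (by omega)).1 (hpmem (i + 1) hi).1
      push_cast
      linarith
  have hend : p N = y := by
    simp [hp, div_self hNpos.ne']
  have := hind N le_rfl
  rwa [hend] at this

/-- the boundary distance decays exponentially -/
theorem exists_dlt_le {Ω : Set E} (h : Dom Ω) {x₀ : E} (hx₀ : x₀ ∈ Ω) :
    ∃ C > 0, ∃ c > 0, ∀ y ∈ Ω, dlt Ω y ≤ C * Real.exp (-(c * kob Ω x₀ y)) := by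
  have hd0 := dlt_pos h hx₀
  set d := dlt Ω x₀ with hd
  obtain ⟨R₀, hR₀⟩ := (Metric.isBounded_iff.1 h.bdd)
  set R : ℝ := max R₀ d with hRdef
  have hRpos : 0 < R := lt_of_lt_of_le hd0 (le_max_right _ _)
  have hR : ∀ x ∈ Ω, ∀ y ∈ Ω, ‖x - y‖ ≤ R := by
    intro x hx y hy
    rw [← dist_eq_norm]
    exact (hR₀ hx hy).trans (le_max_left _ _)
  have hdR : d ≤ R := le_max_right _ _
  obtain ⟨N, hN⟩ := exists_nat_gt (4 * R / d)
  have hNpos : (0 : ℝ) < N := lt_of_le_of_lt (by positivity) hN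
  have hN0 : 0 < N := by exact_mod_cast hNpos
  set A := pd (1 / 2) with hA
  have hApos : 0 < A := pd_half_pos
  set K : ℝ := N * A with hK
  have hK0 : ∀ y ∈ Ω, d / 2 ≤ dlt Ω y → kob Ω x₀ y ≤ K := by
    intro y hy hdy
    refine kob_le_of_dlt h (δ := d / 2) (by positivity) hR hN0 ?_ hx₀ hy ?_ hdy
    · rw [div_lt_iff₀ hd0] at hN
      nlinarith
    · rw [← hd]
      linarith
  set q : ℝ := 1 + d / (4 * R) with hq
  have hq1 : 1 < q := by
    have : 0 < d / (4 * R) := by positivity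
    linarith
  have hqpos : 0 < q := by linarith
  have claim : ∀ n : ℕ, ∀ y ∈ Ω, d / 2 ≤ dlt Ω y * q ^ n → kob Ω x₀ y ≤ K + n * A := by
    intro n
    induction n with
    | zero =>
      intro y hy hdy
      have := hK0 y hy (by simpa using hdy)
      simpa using this
    | succ n ih =>
      intro y hy hdy
      by_cases hcase : d / 2 ≤ dlt Ω y * q ^ n
      · have := ih y hy hcase
        push_cast
        linarith
      push Not at hcase
      have hdy0 := dlt_pos h hy
      have hdlt : dlt Ω y < d / 2 := by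
        refine lt_of_le_of_lt ?_ hcase
        have : 1 ≤ q ^ n := one_le_pow₀ hq1.le
        nlinarith
      set θ : ℝ := dlt Ω y / (2 * R) with hθ
      have hθ0 : 0 ≤ θ := by positivity
      have hθ1 : θ ≤ 1 := by
        rw [hθ, div_le_one (by positivity)]
        linarith
      set y' := (1 - θ) • y + θ • x₀ with hy'
      have hy'mem : y' ∈ Ω := h.cvx hy hx₀ (by linarith) hθ0 (by ring)
      have hdy' : dlt Ω y * q ≤ dlt Ω y' := by
        have h1 := dlt_concave h hy hx₀ (s := 1 - θ) (t := θ) (by linarith) hθ0 (by ring)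
        rw [← hy', ← hd] at h1
        refine le_trans ?_ h1
        have h2 : dlt Ω y * q = dlt Ω y + θ * (d / 2) := by
          rw [hq, hθ]
          field_simp
          ring
        rw [h2]
        nlinarith
      have hk1 : kob Ω y y' ≤ A := by
        have hdiff : y' - y = θ • (x₀ - y) := by
          rw [hy']
          module
        have hnorm : ‖y' - y‖ ≤ dlt Ω y / 2 := by
          rw [hdiff, norm_smul, Real.norm_eq_abs, abs_of_nonneg hθ0]
          have h3 := hR x₀ hx₀ y hy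
          calc θ * ‖x₀ - y‖ ≤ θ * R := mul_le_mul_of_nonneg_left h3 hθ0
            _ = dlt Ω y / 2 := by
              rw [hθ]
              field_simp
        have hlt : ‖y' - y‖ < dlt Ω y := by linarith
        refine (kob_local h hy hlt).trans ?_
        refine pd_mono (by positivity) ?_ (by norm_num)
        rw [div_le_iff₀ hdy0]
        linarith
      have hk2 : kob Ω x₀ y' ≤ K + n * A := by
        apply ih y' hy'mem
        calc d / 2 ≤ dlt Ω y * q ^ (n + 1) := hdy
          _ = (dlt Ω y * q) * q ^ n := by ring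
          _ ≤ dlt Ω y' * q ^ n := mul_le_mul_of_nonneg_right hdy' (by positivity)
      have h4 := kob_triangle h.op h.cvx hx₀ hy'mem hy
      rw [kob_comm Ω y' y] at h4
      push_cast
      linarith
  set c : ℝ := Real.log q / A with hc
  have hlog : 0 < Real.log q := Real.log_pos hq1
  have hcpos : 0 < c := by positivity
  refine ⟨2 * R * Real.exp (c * (K + A)), by positivity, c, hcpos, fun y hy => ?_⟩
  set k := kob Ω x₀ y with hk
  have hdy0 := dlt_pos h hy
  have hKpos : 0 < K := by positivity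
  rw [mul_assoc, ← Real.exp_add]
  by_cases hkK : k ≤ K
  · have h1 : dlt Ω y ≤ 2 * R := by
      have h2 : dlt Ω y ≤ d + dist y x₀ := by
        simp only [hd, dlt]
        exact infDist_le_infDist_add_dist
      rw [dist_eq_norm] at h2
      have h3 := hR y hy x₀ hx₀
      linarith
    have h4 : 1 ≤ Real.exp (c * (K + A) + -(c * k)) := by
      rw [← Real.exp_zero]
      apply Real.exp_le_exp.2
      nlinarith [mul_pos hcpos hApos]
    nlinarith
  · push Not at hkK
    set m : ℕ := ⌈(k - K) / A⌉₊ with hm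
    have hposk : 0 < (k - K) / A := by
      apply div_pos _ hApos
      linarith
    have hm1 : 1 ≤ m := Nat.one_le_iff_ne_zero.2 (by
      rw [hm]
      exact (Nat.ceil_pos.2 hposk).ne')
    obtain ⟨n, hn⟩ : ∃ n, m = n + 1 := ⟨m - 1, by omega⟩
    have hlt : (n : ℝ) < (k - K) / A := by
      have : n < ⌈(k - K) / A⌉₊ := by omega
      exact Nat.lt_ceil.1 this
    have hge : (k - K) / A ≤ n + 1 := by
      have := Nat.le_ceil ((k - K) / A)
      rw [← hm, hn] at this
      exact_mod_cast this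
    rw [lt_div_iff₀ hApos] at hlt
    rw [div_le_iff₀ hApos] at hge
    have hnot : dlt Ω y * q ^ n < d / 2 := by
      by_contra hcon
      push Not at hcon
      have := claim n y hy hcon
      linarith
    have hqn : q ^ n = Real.exp (n * (c * A)) := by
      rw [hc, div_mul_cancel₀ _ hApos.ne', Real.exp_nat_mul, Real.exp_log hqpos]
    rw [hqn] at hnot
    have h5 : dlt Ω y < d / 2 * Real.exp (-(n * (c * A))) := by
      rw [Real.exp_neg, ← div_eq_mul_inv, lt_div_iff₀ (Real.exp_pos _)]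
      exact hnot
    have h6 : Real.exp (-(n * (c * A))) ≤ Real.exp (c * (K + A) + -(c * k)) := by
      apply Real.exp_le_exp.2
      nlinarith
    calc dlt Ω y ≤ d / 2 * Real.exp (-(n * (c * A))) := h5.le
      _ ≤ 2 * R * Real.exp (c * (K + A) + -(c * k)) := by
        apply mul_le_mul _ h6 (Real.exp_pos _).le (by positivity)
        linarith

theorem abs_kob_sub_le {Ω : Set E} (h : Dom Ω) {x y x' y' : E} (hx : x ∈ Ω) (hy : y ∈ Ω)
    (hx' : x' ∈ Ω) (hy' : y' ∈ Ω) :
    |kob Ω x' y' - kob Ω x y| ≤ kob Ω x x' + kob Ω y y' := by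
  rw [abs_le]
  have h1 := kob_triangle h.op h.cvx hx hx' hy
  have h2 := kob_triangle h.op h.cvx hx' hy' hy
  have h3 := kob_triangle h.op h.cvx hx' hx hy'
  have h4 := kob_triangle h.op h.cvx hx hy hy'
  rw [kob_comm Ω y' y] at h2
  rw [kob_comm Ω x' x] at h3
  constructor <;> linarith

theorem kob_local' {Ω : Set E} (h : Dom Ω) {x y : E} (hx : x ∈ Ω)
    (hy : ‖y - x‖ ≤ dlt Ω x / 2) : kob Ω x y ≤ 2 / dlt Ω x * ‖y - x‖ := by
  have hd := dlt_pos h hx
  have h1 : ‖y - x‖ < dlt Ω x := by linarith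
  refine (kob_local h hx h1).trans ?_
  have h2 : ‖y - x‖ / dlt Ω x ≤ 1 / 2 := by
    rw [div_le_iff₀ hd]
    linarith
  have h0 : 0 ≤ ‖y - x‖ / dlt Ω x := by positivity
  refine (pd_le h0 (by linarith)).trans ?_
  have h3 : 0 < 1 - ‖y - x‖ / dlt Ω x := by linarith
  rw [div_le_iff₀ h3]
  have h4 : 2 / dlt Ω x * ‖y - x‖ = 2 * (‖y - x‖ / dlt Ω x) := by ring
  rw [h4]
  nlinarith

theorem kob_continuousOn {Ω : Set E} (h : Dom Ω) :
    ContinuousOn (fun p : E × E => kob Ω p.1 p.2) (Ω ×ˢ Ω) := by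
  rintro ⟨x, y⟩ ⟨hx, hy⟩
  simp only at hx hy
  have hdx := dlt_pos h hx
  have hdy := dlt_pos h hy
  rw [ContinuousWithinAt, tendsto_iff_norm_sub_tendsto_zero]
  have hlim : Tendsto (fun p : E × E => 2 / dlt Ω x * ‖p.1 - x‖ + 2 / dlt Ω y * ‖p.2 - y‖)
      (𝓝[Ω ×ˢ Ω] (x, y)) (𝓝 0) := by
    have hc : Continuous (fun p : E × E =>
        2 / dlt Ω x * ‖p.1 - x‖ + 2 / dlt Ω y * ‖p.2 - y‖) := by fun_prop
    have := hc.tendsto (x, y)
    simp only [sub_self, norm_zero, mul_zero, add_zero] at this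
    exact this.mono_left nhdsWithin_le_nhds
  refine squeeze_zero' (Eventually.of_forall fun p => norm_nonneg _) ?_ hlim
  have hnear : ∀ᶠ p : E × E in 𝓝[Ω ×ˢ Ω] (x, y),
      ‖p.1 - x‖ ≤ dlt Ω x / 2 ∧ ‖p.2 - y‖ ≤ dlt Ω y / 2 := by
    have h1 : ∀ᶠ p : E × E in 𝓝 (x, y), ‖p.1 - x‖ < dlt Ω x / 2 := by
      have hc : Continuous (fun p : E × E => ‖p.1 - x‖) := by fun_prop
      exact hc.tendsto (x, y) |>.eventually_lt_const (by simpa using hdx)
    have h2 : ∀ᶠ p : E × E in 𝓝 (x, y), ‖p.2 - y‖ < dlt Ω y / 2 := by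
      have hc : Continuous (fun p : E × E => ‖p.2 - y‖) := by fun_prop
      exact hc.tendsto (x, y) |>.eventually_lt_const (by simpa using hdy)
    filter_upwards [h1.filter_mono nhdsWithin_le_nhds, h2.filter_mono nhdsWithin_le_nhds]
      with p hp1 hp2
    exact ⟨hp1.le, hp2.le⟩
  filter_upwards [hnear, self_mem_nhdsWithin] with p hp hpm
  obtain ⟨hp1, hp2⟩ := hp
  obtain ⟨hm1, hm2⟩ := hpm
  rw [Real.norm_eq_abs]
  refine (abs_kob_sub_le h hx hy hm1 hm2).trans ?_
  exact add_le_add (kob_local' h hx hp1) (kob_local' h hy hp2)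

theorem isCompact_kobBall [ProperSpace E] {Ω : Set E} (h : Dom Ω) {x₀ : E} (hx₀ : x₀ ∈ Ω) (R : ℝ) :
    IsCompact {y | y ∈ Ω ∧ kob Ω x₀ y ≤ R} := by
  refine Metric.isCompact_of_isClosed_isBounded ?_ (h.bdd.subset fun y hy => hy.1)
  refine isClosed_of_closure_subset fun y hy => ?_
  obtain ⟨u, hu, hlim⟩ := mem_closure_iff_seq_limit.1 hy
  have hd0 := dlt_pos h hx₀
  have hlow : ∀ n, Real.exp (-(2 * R)) * dlt Ω x₀ ≤ dlt Ω (u n) := by
    intro n
    obtain ⟨h1, h2⟩ := hu n
    have h3 := dlt_harnack h hx₀ h1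
    have h4 := dlt_pos h h1
    have h5 : dlt Ω x₀ ≤ Real.exp (2 * R) * dlt Ω (u n) := by
      refine h3.trans (mul_le_mul_of_nonneg_right ?_ h4.le)
      exact Real.exp_le_exp.2 (by linarith)
    rw [Real.exp_neg, inv_mul_eq_div, div_le_iff₀ (Real.exp_pos _)]
    linarith
  have hcont : Tendsto (fun n => dlt Ω (u n)) atTop (𝓝 (dlt Ω y)) :=
    ((continuous_infDist_pt Ωᶜ).tendsto y).comp hlim
  have hdy : Real.exp (-(2 * R)) * dlt Ω x₀ ≤ dlt Ω y :=
    ge_of_tendsto hcont (Eventually.of_forall hlow)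
  have hdy0 : 0 < dlt Ω y := lt_of_lt_of_le (by positivity) hdy
  have hyΩ : y ∈ Ω := ball_dlt h (mem_ball_self hdy0)
  refine ⟨hyΩ, ?_⟩
  have hk : Tendsto (fun n => kob Ω x₀ (u n)) atTop (𝓝 (kob Ω x₀ y)) := by
    have h1 := kob_continuousOn h (x₀, y) ⟨hx₀, hyΩ⟩
    have h2 : Tendsto (fun n => ((x₀, u n) : E × E)) atTop (𝓝[Ω ×ˢ Ω] (x₀, y)) := by
      refine tendsto_nhdsWithin_iff.2 ⟨?_, Eventually.of_forall fun n => ⟨hx₀, (hu n).1⟩⟩
      exact tendsto_const_nhds.prodMk_nhds hlim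
    exact h1.tendsto.comp h2
  exact le_of_tendsto hk (Eventually.of_forall fun n => (hu n).2)

end

end Pool.Agent.DWH
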