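import Pool.Agent.DWH.Contract

/-!
# Module Dynamics: holomorphic self-maps without fixed points are compactly divergent
-/

open Set Filter Topology Metric

namespace Pool.Agent.DWH

noncomputable section

/-- Całka's theorem for nonexpansive maps of proper (pseudo)metric spaces. -/
theorem calka_abs {X : Type*} (d : X → X → ℝ) (hs : ∀ x, d x x = 0) (hc : ∀ x y, d x y = d y x)
    (ht : ∀ x y z, d x z ≤ d x y + d y z) (hnn : ∀ x y, 0 ≤ d x y)
    (bw : ∀ (x : X) (R : ℝ) (s : ℕ → X), (∀ n, d x (s n) ≤ R) →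
      ∃ y, ∃ φ : ℕ → ℕ, StrictMono φ ∧ Tendsto (fun n => d (s (φ n)) y) atTop (𝓝 0))
    (f : X → X) (hf : ∀ x y, d (f x) (f y) ≤ d x y) (x : X)
    (hn : ¬ Tendsto (fun n => d x (f^[n] x)) atTop atTop) : ∃ R, ∀ n, d x (f^[n] x) ≤ R := by
  have hfi : ∀ (n : ℕ) (a b : X), d (f^[n] a) (f^[n] b) ≤ d a b := by
    intro n
    induction n with
    | zero => intro a b; exact le_rfl
    | succ n ih => intro a b; rw [Function.iterate_succ_apply', Function.iterate_succ_apply']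
                   exact (hf _ _).trans (ih a b)
  -- a bounded subsequence
  rw [tendsto_atTop_atTop] at hn
  push Not at hn
  obtain ⟨M, hM⟩ := hn
  have hfreq : ∃ᶠ n in atTop, d x (f^[n] x) < M := by
    rw [frequently_atTop]
    intro a
    obtain ⟨b, hb, hb'⟩ := hM a
    exact ⟨b, hb, hb'⟩
  obtain ⟨φ₀, hφ₀, hφM⟩ := extraction_of_frequently_atTop hfreq
  obtain ⟨y, ψ, hψ, hlim⟩ := bw x M (fun n => f^[φ₀ n] x) (fun n => (hφM n).le)
  set N : ℕ → ℕ := fun k => φ₀ (ψ k) with hN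
  have hNm : StrictMono N := hφ₀.comp hψ
  have hclose : ∀ ε > 0, ∃ K, ∀ k ≥ K, d (f^[N k] x) y < ε := by
    intro ε hε
    have := (hlim.eventually (gt_mem_nhds hε))
    obtain ⟨K, hK⟩ := eventually_atTop.1 this
    exact ⟨K, hK⟩
  -- recurrence
  have hrec : ∀ ε > 0, ∀ p : ℕ, ∃ m ≥ p, d (f^[m] y) y ≤ ε := by
    intro ε hε p
    obtain ⟨K, hK⟩ := hclose (ε / 2) (by positivity)
    have hl : ∃ l ≥ K, N K + p ≤ N l := by
      refine ⟨max K (N K + p), le_max_left _ _, ?_⟩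
      exact (le_max_right K (N K + p)).trans (hNm.id_le _)
    obtain ⟨l, hlK, hl⟩ := hl
    refine ⟨N l - N K, by omega, ?_⟩
    have h1 := hfi (N l - N K) y (f^[N K] x)
    rw [← Function.iterate_add_apply] at h1
    have h2 : N l - N K + N K = N l := by omega
    rw [h2] at h1
    have h3 := ht (f^[N l - N K] y) (f^[N l] x) y
    have h4 := hK K le_rfl
    have h5 := hK l hlK
    rw [hc y] at h1
    linarith
  -- isometry along the orbit of `y`
  have hiso : ∀ n m p : ℕ, d (f^[n] y) (f^[m] y) ≤ d (f^[n + p] y) (f^[m + p] y) := by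
    intro n m p
    refine le_of_forall_pos_le_add ?_
    intro ε hε
    obtain ⟨q, hq, hq'⟩ := hrec (ε / 2) (by positivity) p
    have h1 : d (f^[n + q] y) (f^[n] y) ≤ ε / 2 := by
      rw [Function.iterate_add_apply]
      exact (hfi _ _ _).trans hq'
    have h2 : d (f^[m + q] y) (f^[m] y) ≤ ε / 2 := by
      rw [Function.iterate_add_apply]
      exact (hfi _ _ _).trans hq'
    have h3 : d (f^[n + q] y) (f^[m + q] y) ≤ d (f^[n + p] y) (f^[m + p] y) := by
      have := hfi (q - p) (f^[n + p] y) (f^[m + p] y)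
      rw [← Function.iterate_add_apply, ← Function.iterate_add_apply] at this
      rw [show n + q = q - p + (n + p) by omega, show m + q = q - p + (m + p) by omega]
      exact this
    have h4 := ht (f^[n] y) (f^[n + q] y) (f^[m] y)
    have h5 := ht (f^[n + q] y) (f^[m + q] y) (f^[m] y)
    rw [hc (f^[n + q] y)] at h1
    linarith
  -- bounded gaps
  have hgap : ∃ L : ℕ, ∀ n : ℕ, d (f^[n] y) y ≤ 1 → L < n →
      ∃ n', d (f^[n'] y) y ≤ 1 ∧ n ≤ n' + L ∧ n' < n := by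
    by_contra hno
    push Not at hno
    choose s hs1 hs2 hs3 using hno
    obtain ⟨z, φ, hφ, hz⟩ := bw y 1 (fun L => f^[s L] y) (fun L => by rw [hc]; exact hs1 L)
    obtain ⟨K, hK⟩ := eventually_atTop.1 (hz.eventually (gt_mem_nhds (show (0 : ℝ) < 1 / 2 by norm_num)))
    set a := φ K with ha
    have hl : ∃ l ≥ K, s a ≤ φ l := by
      refine ⟨max K (s a), le_max_left _ _, ?_⟩
      exact (le_max_right K (s a)).trans (hφ.id_le _)
    obtain ⟨l, hlK, hl⟩ := hl
    set b := φ l with hb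
    have hab : s a ≤ b := hl
    have hb2 := hs2 b
    have ha2 := hs2 a
    have hd : d (f^[s b] y) (f^[s a] y) ≤ 1 := by
      have h1 := hK K le_rfl
      have h2 := hK l hlK
      have h3 := ht (f^[s b] y) z (f^[s a] y)
      rw [hc z] at h3
      have h1' : d (f^[s a] y) z < 1 / 2 := h1
      have h2' : d (f^[s b] y) z < 1 / 2 := h2
      linarith
    have hd' : d (f^[s b - s a] y) y ≤ 1 := by
      have h1 := hiso (s b - s a) 0 (s a)
      rw [show s b - s a + s a = s b by omega, zero_add] at h1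
      exact h1.trans hd
    have := hs3 b (s b - s a) hd' (by omega)
    omega
  obtain ⟨L, hL⟩ := hgap
  have hcov : ∀ n : ℕ, ∃ w, d (f^[w] y) y ≤ 1 ∧ w ≤ n ∧ n ≤ w + L := by
    intro n
    classical
    have hex : ∃ w, n < w ∧ d (f^[w] y) y ≤ 1 := by
      obtain ⟨m, hm, hm'⟩ := hrec 1 one_pos (n + 1)
      exact ⟨m, by omega, hm'⟩
    have hspec := Nat.find_spec hex
    set w₁ := Nat.find hex with hw₁
    by_cases hle : w₁ ≤ L
    · refine ⟨0, ?_, Nat.zero_le _, by omega⟩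
      simp only [Function.iterate_zero, id]
      rw [hs]; exact zero_le_one
    · obtain ⟨n', h1, h2, h3⟩ := hL w₁ hspec.2 (by omega)
      have h4 : n' ≤ n := by
        by_contra h5
        exact Nat.find_min hex h3 ⟨by omega, h1⟩
      exact ⟨n', h1, h4, by omega⟩
  -- the orbit of `y` is bounded
  have hy : ∃ B, ∀ n, d (f^[n] y) y ≤ B := by
    refine ⟨1 + ∑ j ∈ Finset.range (L + 1), d (f^[j] y) y, ?_⟩
    intro n
    obtain ⟨w, h1, h2, h3⟩ := hcov n
    have h4 : d (f^[n] y) (f^[n - w] y) ≤ 1 := by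
      have h5 := hfi (n - w) (f^[w] y) y
      rw [← Function.iterate_add_apply, show n - w + w = n by omega] at h5
      exact h5.trans h1
    have h5 := ht (f^[n] y) (f^[n - w] y) y
    have h6 : d (f^[n - w] y) y ≤ ∑ j ∈ Finset.range (L + 1), d (f^[j] y) y :=
      Finset.single_le_sum (f := fun j => d (f^[j] y) y) (fun j _ => hnn _ _)
        (Finset.mem_range.2 (by omega))
    linarith
  obtain ⟨B, hB⟩ := hy
  obtain ⟨K, hK⟩ := hclose 1 one_pos
  have hK' := hK K le_rfl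
  refine ⟨(∑ j ∈ Finset.range (N K + 1), d x (f^[j] x)) + (d x y + B + 1), ?_⟩
  intro n
  have hB0 : 0 ≤ B := (hnn _ _).trans (hB 0)
  have hS0 : 0 ≤ ∑ j ∈ Finset.range (N K + 1), d x (f^[j] x) :=
    Finset.sum_nonneg (fun j _ => hnn _ _)
  by_cases hnK : n ≤ N K
  · have h6 : d x (f^[n] x) ≤ ∑ j ∈ Finset.range (N K + 1), d x (f^[j] x) :=
      Finset.single_le_sum (f := fun j => d x (f^[j] x)) (fun j _ => hnn _ _)
        (Finset.mem_range.2 (by omega))
    have := hnn x y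
    linarith
  · have h1 := hfi (n - N K) (f^[N K] x) y
    rw [← Function.iterate_add_apply, show n - N K + N K = n by omega] at h1
    have h2 := ht x y (f^[n] x)
    have h3 := ht y (f^[n - N K] y) (f^[n] x)
    have h4 := hB (n - N K)
    rw [hc] at h4
    rw [hc (f^[n - N K] y)] at h3
    linarith

variable {E : Type*} [NormedAddCommGroup E] [NormedSpace ℂ E]

theorem kob_tendsto_zero {Ω : Set E} (h : Dom Ω) {s : ℕ → E} (hs : ∀ n, s n ∈ Ω) {y : E}
    (hy : y ∈ Ω) (hlim : Tendsto s atTop (𝓝 y)) {z : E} (hz : z ∈ Ω) :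
    Tendsto (fun n => kob Ω (s n) z) atTop (𝓝 (kob Ω y z)) := by
  have hc := kob_continuousOn h (y, z) (Set.mk_mem_prod hy hz)
  have h1 : Tendsto (fun n => (s n, z)) atTop (𝓝[Ω ×ˢ Ω] (y, z)) := by
    refine tendsto_nhdsWithin_iff.2 ⟨?_, Eventually.of_forall (fun n => Set.mk_mem_prod (hs n) hz)⟩
    exact hlim.prodMk_nhds tendsto_const_nhds
  exact hc.tendsto.comp h1

/-- bounded orbits give fixed points -/
theorem exists_fixed_of_bounded [ProperSpace E] {Ω : Set E} (h : Dom Ω) {F : E → E}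
    (hF : DifferentiableOn ℂ F Ω) (hm : MapsTo F Ω Ω) {x : E} (hx : x ∈ Ω) {R : ℝ}
    (hR : ∀ n : ℕ, kob Ω x (F^[n] x) ≤ R) : ∃ y ∈ Ω, F y = y := by
  have hmi : ∀ n : ℕ, F^[n] x ∈ Ω := fun n => hm.iterate n hx
  have hR0 : 0 ≤ R := (kob_nonneg _ _ _).trans (hR 0)
  set A : Set E := {y | y ∈ Ω ∧ ∀ ε > 0, ∀ᶠ n : ℕ in atTop, kob Ω y (F^[n] x) ≤ R + ε} with hA
  have hxA : x ∈ A := ⟨hx, fun ε hε => Eventually.of_forall (fun n => (hR n).trans (by linarith))⟩
  have hconv : ∀ y ∈ A, ∀ y' ∈ A, ∀ t : ℝ, 0 ≤ t → t ≤ 1 → t • y + (1 - t) • y' ∈ A := by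
    intro y hy y' hy' t h0 h1
    refine ⟨h.cvx hy.1 hy'.1 h0 (by linarith) (by ring), ?_⟩
    intro ε hε
    filter_upwards [hy.2 ε hε, hy'.2 ε hε] with n h2 h3
    have h4 := kob_convex h hy.1 (hmi n) hy'.1 (hmi n) h0 h1
    have h5 : t • F^[n] x + (1 - t) • F^[n] x = F^[n] x := by
      rw [← add_smul]; simp
    rw [h5] at h4
    exact h4.trans (max_le h2 h3)
  have hinv : ∀ y ∈ A, F y ∈ A := by
    intro y hy
    refine ⟨hm hy.1, ?_⟩
    intro ε hε
    obtain ⟨K, hK⟩ := eventually_atTop.1 (hy.2 ε hε)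
    refine eventually_atTop.2 ⟨K + 1, ?_⟩
    intro n hn
    obtain ⟨k, rfl⟩ : ∃ k, n = k + 1 := ⟨n - 1, by omega⟩
    rw [Function.iterate_succ_apply']
    exact (kob_map h.op h.cvx hF hm hy.1 (hmi k)).trans (hK k (by omega))
  have hAB : A ⊆ {y | y ∈ Ω ∧ kob Ω x y ≤ 2 * R + 1} := by
    intro y hy
    refine ⟨hy.1, ?_⟩
    obtain ⟨K, hK⟩ := eventually_atTop.1 (hy.2 1 one_pos)
    have h1 := kob_triangle h.op h.cvx hx (hmi K) hy.1
    have h2 := hK K le_rfl
    have h3 := hR K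
    rw [kob_comm Ω y] at h2
    linarith
  have hseq : ∀ s : ℕ → E, (∀ n, s n ∈ A) → ∃ y ∈ A, ∃ φ : ℕ → ℕ, StrictMono φ ∧
      Tendsto (s ∘ φ) atTop (𝓝 y) := by
    intro s hsA
    obtain ⟨y, hy, φ, hφ, hlim⟩ := (isCompact_kobBall h hx (2 * R + 1)).tendsto_subseq
      (fun n => hAB (hsA n))
    refine ⟨y, ⟨hy.1, ?_⟩, φ, hφ, hlim⟩
    intro ε hε
    have h1 := kob_tendsto_zero h (fun n => (hsA (φ n)).1) hy.1 hlim hy.1
    rw [kob_self hy.1] at h1
    obtain ⟨K, hK⟩ := eventually_atTop.1 (h1.eventually (gt_mem_nhds (show (0 : ℝ) < ε / 2 by positivity)))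
    have h2 := hK K le_rfl
    filter_upwards [(hsA (φ K)).2 (ε / 2) (by positivity)] with n h3
    have h4 := kob_triangle h.op h.cvx hy.1 (hsA (φ K)).1 (hmi n)
    rw [kob_comm Ω y (s (φ K))] at h4
    linarith
  have hAc : IsCompact A := by
    refine IsSeqCompact.isCompact ?_
    intro s hs
    obtain ⟨y, hy, φ, hφ, hlim⟩ := hseq s hs
    exact ⟨y, hy, φ, hφ, hlim⟩
  have hFc : ContinuousOn F Ω := hF.continuousOn
  obtain ⟨C, hC0, hC⟩ := exists_norm_le h
  -- the approximate fixed points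
  have hfix : ∀ ε : ℝ, 0 < ε → ε ≤ 1 → ∃ y ∈ A, (1 - ε) • F y + ε • x = y := by
    intro ε h0 h1
    obtain ⟨q, hq0, hq1, hq⟩ := kob_strict h hx h0 h1
    set G : E → E := fun y => (1 - ε) • F y + ε • x with hG
    have hGA : ∀ y ∈ A, G y ∈ A := by
      intro y hy
      have := hconv (F y) (hinv y hy) x hxA (1 - ε) (by linarith) (by linarith)
      rw [show (1 : ℝ) - (1 - ε) = ε by ring] at this
      exact this
    have hGq : ∀ y ∈ A, ∀ y' ∈ A, kob Ω (G y) (G y') ≤ q * kob Ω y y' := by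
      intro y hy y' hy'
      refine (hq (F y) (hm hy.1) (F y') (hm hy'.1)).trans ?_
      exact mul_le_mul_of_nonneg_left (kob_map h.op h.cvx hF hm hy.1 hy'.1) hq0
    have hGc : ContinuousOn G A := by
      have : ContinuousOn F A := hFc.mono (fun y hy => hy.1)
      exact (this.const_smul (1 - ε)).add continuousOn_const
    have hgc : ContinuousOn (fun y => kob Ω y (G y)) A := by
      have h2 : ContinuousOn (fun y => (y, G y)) A := continuousOn_id.prodMk hGc
      exact (kob_continuousOn h).comp h2 (fun y hy => Set.mk_mem_prod hy.1 (hGA y hy).1)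
    obtain ⟨y, hyA, hmin⟩ := hAc.exists_isMinOn ⟨x, hxA⟩ hgc
    refine ⟨y, hyA, ?_⟩
    have h3 : kob Ω y (G y) ≤ kob Ω (G y) (G (G y)) := hmin (hGA y hyA)
    have h4 := hGq y hyA (G y) (hGA y hyA)
    have h5 : kob Ω y (G y) = 0 := by
      have := kob_nonneg Ω y (G y)
      nlinarith
    have h6 := hC y hyA.1 (G y) (hGA y hyA).1
    rw [h5, mul_zero] at h6
    have h7 : y - G y = 0 := norm_le_zero_iff.1 h6
    exact (sub_eq_zero.1 h7).symm
  have hfix' : ∀ n : ℕ, ∃ y ∈ A, (1 - 1 / ((n : ℝ) + 1)) • F y + (1 / ((n : ℝ) + 1)) • x = y := by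
    intro n
    refine hfix _ (by positivity) ?_
    rw [div_le_one (by positivity)]
    have : (0 : ℝ) ≤ n := Nat.cast_nonneg n
    linarith
  choose s hsA hs using hfix'
  obtain ⟨y, hyA, φ, hφ, hlim⟩ := hseq s hsA
  refine ⟨y, hyA.1, ?_⟩
  have h1 : Tendsto (fun n => F (s (φ n))) atTop (𝓝 (F y)) := by
    have h2 : Tendsto (fun n => s (φ n)) atTop (𝓝[Ω] y) :=
      tendsto_nhdsWithin_iff.2 ⟨hlim, Eventually.of_forall (fun n => (hsA (φ n)).1)⟩
    exact (hFc y hyA.1).tendsto.comp h2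
  have h2 : Tendsto (fun n : ℕ => 1 / (((φ n : ℕ) : ℝ) + 1)) atTop (𝓝 0) :=
    (tendsto_one_div_add_atTop_nhds_zero_nat (𝕜 := ℝ)).comp hφ.tendsto_atTop
  have h3 : Tendsto (fun n => (1 - 1 / (((φ n : ℕ) : ℝ) + 1)) • F (s (φ n)) +
      (1 / (((φ n : ℕ) : ℝ) + 1)) • x) atTop (𝓝 ((1 - (0 : ℝ)) • F y + (0 : ℝ) • x)) :=
    ((tendsto_const_nhds.sub h2).smul h1).add (h2.smul tendsto_const_nhds)
  simp only [sub_zero, one_smul, zero_smul, add_zero] at h3
  have h4 : (fun n => (1 - 1 / (((φ n : ℕ) : ℝ) + 1)) • F (s (φ n)) +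
      (1 / (((φ n : ℕ) : ℝ) + 1)) • x) = s ∘ φ := by
    funext n
    exact hs (φ n)
  rw [h4] at h3
  exact tendsto_nhds_unique h3 hlim

/-- Całka's theorem -/
theorem calka [ProperSpace E] {Ω : Set E} (h : Dom Ω) {F : E → E}
    (hF : DifferentiableOn ℂ F Ω) (hm : MapsTo F Ω Ω) {x : E} (hx : x ∈ Ω)
    (hn : ¬ Tendsto (fun n : ℕ => kob Ω x (F^[n] x)) atTop atTop) :
    ∃ R, ∀ n : ℕ, kob Ω x (F^[n] x) ≤ R := by
  have hit : ∀ (n : ℕ) (a : Ω), (((hm.restrict F Ω Ω)^[n] a : Ω) : E) = F^[n] (a : E) := by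
    intro n
    induction n with
    | zero => intro a; rfl
    | succ n ih => intro a; rw [Function.iterate_succ_apply', Function.iterate_succ_apply',
                     MapsTo.val_restrict_apply, ih]
  have key := calka_abs (X := Ω) (fun a b => kob Ω a b) (fun a => kob_self a.2)
    (fun a b => kob_comm _ _ _) (fun a b c => kob_triangle h.op h.cvx a.2 b.2 c.2)
    (fun a b => kob_nonneg _ _ _) ?_ (hm.restrict F Ω Ω)
    (fun a b => kob_map h.op h.cvx hF hm a.2 b.2) ⟨x, hx⟩ ?_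
  · obtain ⟨R, hR⟩ := key
    refine ⟨R, fun n => ?_⟩
    have := hR n
    simp only [hit] at this
    exact this
  · intro a R s hs
    obtain ⟨y, hy, φ, hφ, hlim⟩ := (isCompact_kobBall h a.2 R).tendsto_subseq
      (x := fun n => (s n : E)) (fun n => ⟨(s n).2, hs n⟩)
    refine ⟨⟨y, hy.1⟩, φ, hφ, ?_⟩
    have h1 := kob_tendsto_zero h (fun n => (s (φ n)).2) hy.1 hlim hy.1
    rw [kob_self hy.1] at h1
    exact h1
  · simp only [hit]
    exact hn

theorem tendsto_kob_iterate [ProperSpace E] {Ω : Set E} (h : Dom Ω) {F : E → E}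
    (hF : DifferentiableOn ℂ F Ω) (hm : MapsTo F Ω Ω) (hfix : ∀ y ∈ Ω, F y ≠ y) {x : E}
    (hx : x ∈ Ω) : Tendsto (fun n : ℕ => kob Ω x (F^[n] x)) atTop atTop := by
  by_contra hn
  obtain ⟨R, hR⟩ := calka h hF hm hx hn
  obtain ⟨y, hy, hy'⟩ := exists_fixed_of_bounded h hF hm hx hR
  exact hfix y hy hy'

end

end Pool.Agent.DWH
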