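import Pool.Agent.DWH.Room
import Pool.Agent.DWH.Dynamics

/-!
# Module DW: the domains `Om ρ` have the Denjoy-Wolff property
-/

open Set Filter Topology Metric

namespace Pool.Agent.DWH

noncomputable section

variable {ρ : ℂ → ℝ} {M : ℝ}

/-! ### one step of a uniform chain -/

theorem tanh_lt_one_aux (δ : ℝ) : Real.tanh δ < 1 := (Real.tanh_bijOn.mapsTo (mem_univ δ)).2

theorem tanh_nonneg_aux {δ : ℝ} (h0 : 0 ≤ δ) : 0 ≤ Real.tanh δ := by
  rw [Real.tanh_eq_sinh_div_cosh]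
  exact div_nonneg (Real.sinh_nonneg_iff.2 h0) (Real.cosh_pos δ).le

theorem tanh_le_aux {δ : ℝ} (h0 : 0 ≤ δ) : Real.tanh δ ≤ δ := by
  have := le_pd (tanh_nonneg_aux h0) (tanh_lt_one_aux δ)
  rwa [pd_tanh] at this

theorem exp_tanh_aux {δ : ℝ} (h0 : 0 ≤ δ) :
    (1 + Real.tanh δ) / (1 - Real.tanh δ) = Real.exp (2 * δ) := by
  rw [← exp_pd (tanh_nonneg_aux h0) (tanh_lt_one_aux δ), pd_tanh]

theorem gap_pos {z : Fin 2 → ℂ} (hz : z ∈ Om ρ) (k : Fin 4) : 0 < gap ρ k z := (mem_Om.1 hz).2 k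

theorem mem_ball_of_mem {z : Fin 2 → ℂ} (hz : z ∈ Om ρ) : z 1 ∈ ball (0 : ℂ) 1 := by
  rw [mem_ball_zero_iff]; exact (mem_Om.1 hz).1

theorem dpos_of_mem {z : Fin 2 → ℂ} (hz : z ∈ Om ρ) : 0 < 1 - ‖z 1‖ := by
  have := (mem_Om.1 hz).1
  linarith

theorem Room.step (h : Room ρ M) {δ : ℝ} (h0 : 0 ≤ δ) (h1 : δ < 1 / 2) {x y : Fin 2 → ℂ}
    (hs : Step (Om ρ) δ x y) (k : Fin 4) :
    ‖y 1 - x 1‖ ≤ 4 * δ * (1 - ‖x 1‖) ∧
    ‖y 1 - x 1‖ ≤ 2 * δ * Real.sqrt (3 * gap ρ k x) ∧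
    ‖y 0 - x 0‖ ≤ 8 * δ * ρ (x 1) ∧
    ‖y 0 - x 0‖ ≤ 4 * δ * gap ρ k x +
      ρ (x 1) / (1 - ‖x 1‖) * (2 * δ * Real.sqrt (3 * gap ρ k x)) ∧
    gap ρ k y ≤ Real.exp (2 * δ) * gap ρ k x ∧
    1 - ‖y 1‖ ≤ Real.exp (2 * δ) * (1 - ‖x 1‖) ∧
    Real.exp (-(2 * δ)) * (1 - ‖x 1‖) ≤ 1 - ‖y 1‖ := by
  have hx := hs.mem_left
  have hgx := gap_pos hx k
  have hdx := dpos_of_mem hx
  have hρx := h.pos _ (mem_ball_of_mem hx)
  obtain ⟨φ, hφ, h2, h3⟩ := hs
  have ht0 := tanh_nonneg_aux h0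
  have htl := tanh_le_aux h0
  have ht1 : Real.tanh δ < 1 / 2 := htl.trans_lt h1
  obtain ⟨e1, e2, e3, e4, e5, e6, e7⟩ := h.disc hφ ht0 ht1 k
  rw [h2, h3] at e1 e2 e3 e4 e5 e6 e7
  rw [exp_tanh_aux h0] at e5 e6
  have hexp : (1 - Real.tanh δ) / (1 + Real.tanh δ) = Real.exp (-(2 * δ)) := by
    rw [Real.exp_neg, ← exp_tanh_aux h0, inv_div]
  rw [hexp] at e7
  have hs0 : 0 ≤ Real.sqrt (3 * gap ρ k x) := Real.sqrt_nonneg _
  refine ⟨e1.trans ?_, e2.trans ?_, e3.trans ?_, e4.trans ?_, e5, e6, e7⟩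
  · gcongr
  · gcongr
  · gcongr
  · gcongr

/-! ### boundary tightness -/

theorem Room.chain_growth (h : Room ρ M) {δ : ℝ} (h0 : 0 ≤ δ) (h1 : δ < 1 / 2)
    {p : ℕ → Fin 2 → ℂ} {N : ℕ} (hp : ∀ i < N, Step (Om ρ) δ (p i) (p (i + 1))) (k : Fin 4) {i : ℕ}
    (hi : i ≤ N) :
    gap ρ k (p i) ≤ Real.exp (2 * (i * δ)) * gap ρ k (p 0) ∧
    1 - ‖p i 1‖ ≤ Real.exp (2 * (i * δ)) * (1 - ‖p 0 1‖) ∧
    Real.exp (-(2 * (i * δ))) * (1 - ‖p 0 1‖) ≤ 1 - ‖p i 1‖ := by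
  induction i with
  | zero => simp
  | succ i ih =>
    obtain ⟨i1, i2, i3⟩ := ih (by omega)
    obtain ⟨-, -, -, -, e5, e6, e7⟩ := h.step h0 h1 (hp i (by omega)) k
    have hc : (2 * ((i + 1 : ℕ) * δ) : ℝ) = 2 * δ + 2 * (i * δ) := by push_cast; ring
    rw [hc, neg_add, Real.exp_add, Real.exp_add, mul_assoc, mul_assoc, mul_assoc]
    refine ⟨e5.trans (by gcongr), e6.trans (by gcongr), le_trans (by gcongr) e7⟩

theorem tele {a : ℕ → ℂ} {N : ℕ} {B : ℝ} (ha : ∀ i < N, ‖a (i + 1) - a i‖ ≤ B) :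
    ‖a N - a 0‖ ≤ N * B := by
  induction N with
  | zero => simp
  | succ N ih =>
    have h1 := ih (fun i hi => ha i (by omega))
    have h2 := ha N (by omega)
    have h3 : a (N + 1) - a 0 = (a (N + 1) - a N) + (a N - a 0) := by ring
    rw [h3]
    refine (norm_add_le _ _).trans ?_
    push_cast
    linarith

theorem norm_lt_of_coord {x y : Fin 2 → ℂ} {ε : ℝ} (hε : 0 < ε) (h0 : ‖y 0 - x 0‖ < ε)
    (h1 : ‖y 1 - x 1‖ < ε) : ‖x - y‖ < ε := by
  rw [pi_norm_lt_iff hε]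
  intro i
  fin_cases i
  · simpa [norm_sub_rev] using h0
  · simpa [norm_sub_rev] using h1

theorem Room.bt (h : Room ρ M) (S : ℝ) {ε : ℝ} (hε : 0 < ε) :
    ∃ η > 0, ∀ x ∈ Om ρ, ∀ y ∈ Om ρ, dlt (Om ρ) x < η → kob (Om ρ) x y ≤ S → ‖x - y‖ < ε := by
  have hM := h.M_pos
  have hD := h.dom
  -- we may assume `S ≥ 0`
  wlog hS : 0 ≤ S generalizing S
  · obtain ⟨η, h1, h2⟩ := this 0 le_rfl
    exact ⟨η, h1, fun x hx y hy hd hk => h2 x hx y hy hd (hk.trans (not_le.1 hS).le)⟩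
  set R : ℝ := S + 1 with hR
  have hR0 : 0 < R := by linarith
  -- threshold for `1 - |b|`
  obtain ⟨η₁, hη₁, hvan⟩ := h.van (ε / (16 * R)) (by positivity)
  set E2 : ℝ := Real.exp (2 * R) with hE2
  have hE2p : 0 < E2 := Real.exp_pos _
  obtain ⟨τ, hτ0, hτ1, hτ2⟩ : ∃ τ > 0, E2 * τ < η₁ ∧ R * (4 * (E2 * τ)) < ε := by
    refine ⟨min (η₁ / (2 * E2)) (ε / (8 * R * E2)), by positivity, ?_, ?_⟩
    · calc E2 * min (η₁ / (2 * E2)) (ε / (8 * R * E2)) ≤ E2 * (η₁ / (2 * E2)) := by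
            gcongr; exact min_le_left _ _
        _ = η₁ / 2 := by field_simp
        _ < η₁ := by linarith
    · calc R * (4 * (E2 * min (η₁ / (2 * E2)) (ε / (8 * R * E2))))
          ≤ R * (4 * (E2 * (ε / (8 * R * E2)))) := by gcongr; exact min_le_right _ _
        _ = ε / 2 := by field_simp; norm_num
        _ < ε := by linarith
  -- threshold for the gap
  have hcont : Continuous (fun g : ℝ => R * (2 * Real.sqrt (3 * (E2 * g))) +
      R * (4 * (E2 * g) + M * (E2 / τ) * (2 * Real.sqrt (3 * (E2 * g))))) := by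
    fun_prop
  have hlim : Tendsto (fun g : ℝ => R * (2 * Real.sqrt (3 * (E2 * g))) +
      R * (4 * (E2 * g) + M * (E2 / τ) * (2 * Real.sqrt (3 * (E2 * g))))) (𝓝 0) (𝓝 0) := by
    have := hcont.tendsto 0
    simpa using this
  obtain ⟨g₀, hg₀, hg⟩ := Metric.eventually_nhds_iff.1 (hlim.eventually (gt_mem_nhds hε))
  refine ⟨g₀ / 2 * τ / (M + 1), by positivity, fun x hx y hy hd hk => ?_⟩
  -- the chain
  obtain ⟨N0, hN0, hch⟩ := exists_uchain hD.op hD.cvx hx hy (R := R) (by linarith)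
  obtain ⟨N1, hN1⟩ := exists_nat_gt (4 * R)
  set N := max N0 N1 with hN
  have hNpos : (0 : ℝ) < N := by
    have : 0 < N := lt_of_lt_of_le hN0 (le_max_left _ _)
    exact_mod_cast this
  obtain ⟨p, hp0, hpN, hp⟩ := hch N (le_max_left _ _)
  set δ : ℝ := R / N with hδ
  have hδ0 : 0 < δ := by positivity
  have hδ1 : δ < 1 / 2 := by
    rw [hδ, div_lt_iff₀ hNpos]
    have : (N1 : ℝ) ≤ N := by exact_mod_cast le_max_right N0 N1
    linarith
  have hNδ : N * δ = R := by rw [hδ]; field_simp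
  have hiδ : ∀ i : ℕ, i ≤ N → (i : ℝ) * δ ≤ R := by
    intro i hi
    rw [← hNδ]
    have : (i : ℝ) ≤ N := by exact_mod_cast hi
    gcongr
  have hmem : ∀ i < N, p i ∈ Om ρ := fun i hi => (hp i hi).mem_left
  obtain ⟨k, hk1⟩ := h.gap_mul_le hx
  have hgx := gap_pos hx k
  have hdx := dpos_of_mem hx
  -- growth
  have hgr : ∀ i ≤ N, gap ρ k (p i) ≤ E2 * gap ρ k x ∧ 1 - ‖p i 1‖ ≤ E2 * (1 - ‖x 1‖) ∧
      (1 - ‖x 1‖) / E2 ≤ 1 - ‖p i 1‖ := by
    intro i hi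
    obtain ⟨e1, e2, e3⟩ := h.chain_growth hδ0.le hδ1 hp k hi
    rw [hp0] at e1 e2 e3
    have h1 : Real.exp (2 * (i * δ)) ≤ E2 := Real.exp_le_exp.2 (by linarith [hiδ i hi])
    refine ⟨e1.trans (by gcongr), e2.trans (by gcongr), le_trans ?_ e3⟩
    rw [div_eq_inv_mul, Real.exp_neg]
    gcongr
  rcases le_or_gt (1 - ‖x 1‖) τ with hcase | hcase
  · -- `1 - |b|` small
    have hb : ‖y 1 - x 1‖ < ε := by
      have h1 : ∀ i < N, ‖p (i + 1) 1 - p i 1‖ ≤ 4 * δ * (E2 * τ) := by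
        intro i hi
        obtain ⟨e1, -⟩ := h.step hδ0.le hδ1 (hp i hi) k
        refine e1.trans ?_
        have := (hgr i hi.le).2.1
        have h2 : 1 - ‖p i 1‖ ≤ E2 * τ := this.trans (by gcongr)
        gcongr
      have h2 := tele (a := fun i => p i 1) h1
      simp only [hp0, hpN] at h2
      refine h2.trans_lt ?_
      calc (N : ℝ) * (4 * δ * (E2 * τ)) = (N * δ) * (4 * (E2 * τ)) := by ring
        _ = R * (4 * (E2 * τ)) := by rw [hNδ]
        _ < ε := hτ2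
    have hz : ‖y 0 - x 0‖ < ε := by
      have h1 : ∀ i < N, ‖p (i + 1) 0 - p i 0‖ ≤ 8 * δ * (ε / (16 * R)) := by
        intro i hi
        obtain ⟨-, -, e3, -⟩ := h.step hδ0.le hδ1 (hp i hi) k
        refine e3.trans ?_
        have := (hgr i hi.le).2.1
        have h2 : 1 - ‖p i 1‖ < η₁ := (this.trans (by gcongr)).trans_lt hτ1
        have h3 := (hvan (p i 1) (mem_ball_of_mem (hmem i hi)) h2).le
        gcongr
      have h2 := tele (a := fun i => p i 0) h1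
      simp only [hp0, hpN] at h2
      refine h2.trans_lt ?_
      calc (N : ℝ) * (8 * δ * (ε / (16 * R))) = (N * δ) * (8 * (ε / (16 * R))) := by ring
        _ = R * (8 * (ε / (16 * R))) := by rw [hNδ]
        _ = ε / 2 := by field_simp; norm_num
        _ < ε := by linarith
    exact norm_lt_of_coord hε hz hb
  · -- the gap is small
    have hgs : gap ρ k x ≤ g₀ / 2 := by
      have h1 : gap ρ k x * τ ≤ (M + 1) * (g₀ / 2 * τ / (M + 1)) := by
        calc gap ρ k x * τ ≤ gap ρ k x * (1 - ‖x 1‖) := by gcongr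
          _ ≤ (M + 1) * dlt (Om ρ) x := hk1
          _ ≤ _ := by gcongr
      have h2 : (M + 1) * (g₀ / 2 * τ / (M + 1)) = g₀ / 2 * τ := by field_simp
      rw [h2] at h1
      exact le_of_mul_le_mul_right h1 hτ0
    have hfin := hg (y := gap ρ k x) (by
      rw [Real.dist_eq, sub_zero, abs_of_pos hgx]; linarith)
    have hsq : ∀ i ≤ N, Real.sqrt (3 * gap ρ k (p i)) ≤ Real.sqrt (3 * (E2 * gap ρ k x)) := by
      intro i hi
      apply Real.sqrt_le_sqrt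
      have := (hgr i hi).1
      linarith
    set q := Real.sqrt (3 * (E2 * gap ρ k x)) with hq
    have hq0 : 0 ≤ q := Real.sqrt_nonneg _
    have hb : ‖y 1 - x 1‖ ≤ R * (2 * q) := by
      have h1 : ∀ i < N, ‖p (i + 1) 1 - p i 1‖ ≤ 2 * δ * q := by
        intro i hi
        obtain ⟨-, e2, -⟩ := h.step hδ0.le hδ1 (hp i hi) k
        exact e2.trans (by gcongr; exact hsq i hi.le)
      have h2 := tele (a := fun i => p i 1) h1
      simp only [hp0, hpN] at h2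
      refine h2.trans (le_of_eq ?_)
      calc (N : ℝ) * (2 * δ * q) = (N * δ) * (2 * q) := by ring
        _ = R * (2 * q) := by rw [hNδ]
    have hz : ‖y 0 - x 0‖ ≤ R * (4 * (E2 * gap ρ k x) + M * (E2 / τ) * (2 * q)) := by
      have h1 : ∀ i < N, ‖p (i + 1) 0 - p i 0‖ ≤
          4 * δ * (E2 * gap ρ k x) + M * (E2 / τ) * (2 * δ * q) := by
        intro i hi
        obtain ⟨-, -, -, e4, -⟩ := h.step hδ0.le hδ1 (hp i hi) k
        refine e4.trans ?_
        have g1 := (hgr i hi.le).1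
        have g2 := (hgr i hi.le).2.2
        have g3 : τ / E2 ≤ 1 - ‖p i 1‖ := le_trans (by gcongr) g2
        have g4 : ρ (p i 1) / (1 - ‖p i 1‖) ≤ M * (E2 / τ) := by
          rw [div_le_iff₀ (dpos_of_mem (hmem i hi))]
          calc ρ (p i 1) ≤ M := h.le _ (mem_ball_of_mem (hmem i hi))
            _ = M * (E2 / τ) * (τ / E2) := by field_simp
            _ ≤ M * (E2 / τ) * (1 - ‖p i 1‖) := by gcongr
        have g5 := hsq i hi.le
        gcongr
      have h2 := tele (a := fun i => p i 0) h1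
      simp only [hp0, hpN] at h2
      refine h2.trans (le_of_eq ?_)
      calc (N : ℝ) * (4 * δ * (E2 * gap ρ k x) + M * (E2 / τ) * (2 * δ * q))
          = (N * δ) * (4 * (E2 * gap ρ k x) + M * (E2 / τ) * (2 * q)) := by ring
        _ = _ := by rw [hNδ]
    have p1 : 0 ≤ R * (2 * q) := by positivity
    have p2 : 0 ≤ R * (4 * (E2 * gap ρ k x) + M * (E2 / τ) * (2 * q)) := by positivity
    exact norm_lt_of_coord hε (by linarith) (by linarith)

/-! ### estimates along a chain -/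

theorem tele_exp {a : ℕ → ℂ} {N : ℕ} {C c δ : ℝ} (hC : 0 ≤ C) (hc : 0 < c) (hδ : 0 ≤ δ)
    (hδ1 : δ ≤ 1)
    (ha : ∀ i < N, ‖a (i + 1) - a i‖ ≤ C * δ * Real.exp (-(c * (i * δ)))) {i : ℕ} (hi : i ≤ N) :
    ‖a i - a N‖ ≤ C * (1 / c + 1) * Real.exp (-(c * (i * δ))) := by
  have key : ∀ j i, i + j = N → ‖a i - a N‖ ≤ C * (1 / c + 1) * Real.exp (-(c * (i * δ))) := by
    intro j
    induction j with
    | zero =>
      intro i hi
      obtain rfl : i = N := by omega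
      rw [sub_self, norm_zero]
      positivity
    | succ j ih =>
      intro i hi
      have h1 := ih (i + 1) (by omega)
      have h2 := ha i (by omega)
      have h3 : a i - a N = -(a (i + 1) - a i) + (a (i + 1) - a N) := by ring
      rw [h3]
      refine (norm_add_le _ _).trans ?_
      rw [norm_neg]
      set E := Real.exp (-(c * (i * δ))) with hE
      have hE0 : 0 < E := Real.exp_pos _
      have h4 : Real.exp (-(c * ((i + 1 : ℕ) * δ))) = E * Real.exp (-(c * δ)) := by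
        rw [hE, ← Real.exp_add]
        congr 1
        push_cast
        ring
      rw [h4] at h1
      have h5 : Real.exp (-(c * δ)) ≤ 1 - c * δ / (1 + c) := by
        have h6 : 1 + c * δ ≤ Real.exp (c * δ) := by linarith [Real.add_one_le_exp (c * δ)]
        have h7 : 0 ≤ c * δ := by positivity
        rw [Real.exp_neg]
        calc (Real.exp (c * δ))⁻¹ ≤ (1 + c * δ)⁻¹ := by gcongr
          _ = 1 - c * δ / (1 + c * δ) := by field_simp; ring
          _ ≤ 1 - c * δ / (1 + c) := by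
            have h8 : c * δ ≤ c := by nlinarith
            gcongr
      have h8 : C * (1 / c + 1) * (c * δ / (1 + c)) = C * δ := by field_simp
      calc ‖a (i + 1) - a i‖ + ‖a (i + 1) - a N‖
          ≤ C * δ * E + C * (1 / c + 1) * (E * Real.exp (-(c * δ))) := add_le_add h2 h1
        _ ≤ C * δ * E + C * (1 / c + 1) * (E * (1 - c * δ / (1 + c))) := by gcongr
        _ = C * δ * E + C * (1 / c + 1) * E - C * (1 / c + 1) * (c * δ / (1 + c)) * E := by ring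
        _ = C * (1 / c + 1) * E := by rw [h8]; ring
  exact key (N - i) i (by omega)

theorem Room.mid_est (h : Room ρ M) {x₀ : Fin 2 → ℂ} (hx₀ : x₀ ∈ Om ρ) :
    ∃ C > 0, ∃ c > 0, ∀ p ∈ Om ρ, ∀ z ∈ Om ρ, ∀ s : ℝ, 0 ≤ s →
      s ≤ kob (Om ρ) x₀ z - kob (Om ρ) p z →
      ‖p 1 - z 1‖ ≤ C * Real.exp (-(c * s)) ∧ dlt (Om ρ) p ≤ C * Real.exp (-(c * s)) := by
  have hD := h.dom
  obtain ⟨C, hC, c, hc, hdl⟩ := exists_dlt_le hD hx₀
  obtain ⟨c', hc', hmid⟩ := h.dlt_mid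
  refine ⟨C + (C / c' + 1), by positivity, c / 4, by positivity, fun p hp z hz s hs hk => ?_⟩
  set E := Real.exp (-(c / 4 * s)) with hE
  have hE0 : 0 < E := Real.exp_pos _
  have hE1 : E ≤ 1 := Real.exp_le_one_iff.2 (by
    have : 0 ≤ c / 4 * s := by positivity
    linarith)
  have hE4 : Real.exp (-(c * s)) = E ^ 4 := by
    rw [hE, ← Real.exp_nat_mul]
    congr 1
    push_cast
    ring
  have hE41 : E ^ 4 ≤ E := by
    calc E ^ 4 = E ^ 3 * E := by ring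
      _ ≤ 1 * E := by gcongr; exact pow_le_one₀ hE0.le hE1
      _ = E := one_mul _
  constructor
  · -- the midpoint
    set y : Fin 2 → ℂ := (1 / 2 : ℝ) • p + (1 - 1 / 2 : ℝ) • z with hy
    have hyΩ : y ∈ Om ρ := hD.cvx hp hz (by norm_num) (by norm_num) (by norm_num)
    have h1 : kob (Om ρ) y z ≤ kob (Om ρ) p z := kob_segment hD hp hz (by norm_num) (by norm_num)
    have h2 := kob_triangle hD.op hD.cvx hx₀ hyΩ hz
    have h3 : s ≤ kob (Om ρ) x₀ y := by linarith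
    have h4 : dlt (Om ρ) y ≤ C * E ^ 4 := by
      rw [← hE4]
      refine (hdl y hyΩ).trans ?_
      gcongr
    have h5 := (hmid p hp z hz).trans h4
    have h6 : ‖p 1 - z 1‖ ^ 4 ≤ ((C / c' + 1) * E) ^ 4 := by
      have h7 : ‖p 1 - z 1‖ ^ 4 ≤ C / c' * E ^ 4 := by
        rw [div_mul_eq_mul_div, le_div_iff₀ hc']
        linarith
      refine h7.trans ?_
      rw [mul_pow]
      have h8 : C / c' ≤ (C / c' + 1) ^ 4 := by
        have h9 : 0 < C / c' := by positivity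
        calc C / c' ≤ C / c' + 1 := by linarith
          _ = (C / c' + 1) ^ 1 := (pow_one _).symm
          _ ≤ (C / c' + 1) ^ 4 := pow_le_pow_right₀ (by linarith) (by norm_num)
      gcongr
    have h7 : ‖p 1 - z 1‖ ≤ (C / c' + 1) * E :=
      le_of_pow_le_pow_left₀ (by norm_num) (by positivity) h6
    exact h7.trans (mul_le_mul_of_nonneg_right (by linarith) hE0.le)
  · have h2 := kob_triangle hD.op hD.cvx hx₀ hp hz
    have h3 : s ≤ kob (Om ρ) x₀ p := by linarith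
    calc dlt (Om ρ) p ≤ C * Real.exp (-(c * kob (Om ρ) x₀ p)) := hdl p hp
      _ ≤ C * Real.exp (-(c * s)) := by gcongr
      _ = C * E ^ 4 := by rw [hE4]
      _ ≤ C * E := by gcongr
      _ ≤ (C + (C / c' + 1)) * E := by
        have : 0 < C / c' := by positivity
        gcongr
        linarith

theorem Room.far_step (h : Room ρ M) {C c θ : ℝ} (hC : 0 < C) (hc : 0 < c) (hθ : 0 < θ) :
    ∃ C' > 0, ∀ δ s : ℝ, 0 ≤ δ → δ < 1 / 2 → 0 ≤ s → ∀ p q, Step (Om ρ) δ p q →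
      dlt (Om ρ) p ≤ C * Real.exp (-(c * s)) → θ * Real.exp (-(c / 8 * s)) ≤ 1 - ‖p 1‖ →
      ‖q 0 - p 0‖ ≤ C' * δ * Real.exp (-(c / 8 * s)) := by
  have hM := h.M_pos
  set A := (M + 1) * C / θ with hA
  have hA0 : 0 < A := by positivity
  refine ⟨4 * A + 2 * M * Real.sqrt (3 * A) / θ, by positivity,
    fun δ s hδ hδ1 hs p q hst hd hdb => ?_⟩
  have hp := hst.mem_left
  obtain ⟨k, hk⟩ := h.gap_mul_le hp
  obtain ⟨-, -, -, e4, -⟩ := h.step hδ hδ1 hst k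
  set E := Real.exp (-(c / 8 * s)) with hE
  have hE0 : 0 < E := Real.exp_pos _
  have hE1 : E ≤ 1 := Real.exp_le_one_iff.2 (by
    have : 0 ≤ c / 8 * s := by positivity
    linarith)
  have hE8 : Real.exp (-(c * s)) = E ^ 8 := by
    rw [hE, ← Real.exp_nat_mul]
    congr 1
    push_cast
    ring
  rw [hE8] at hd
  have hg0 := gap_pos hp k
  have hdp := dpos_of_mem hp
  have hg : gap ρ k p ≤ A * E ^ 4 := by
    have h1 : gap ρ k p * (θ * E) ≤ (M + 1) * (C * E ^ 8) := by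
      calc gap ρ k p * (θ * E) ≤ gap ρ k p * (1 - ‖p 1‖) := by gcongr
        _ ≤ (M + 1) * dlt (Om ρ) p := hk
        _ ≤ _ := by gcongr
    have h2 : (M + 1) * (C * E ^ 8) = A * E ^ 7 * (θ * E) := by
      rw [hA]; field_simp
    rw [h2] at h1
    have h3 := le_of_mul_le_mul_right h1 (by positivity)
    refine h3.trans ?_
    have h4 : E ^ 7 ≤ E ^ 4 := pow_le_pow_of_le_one hE0.le hE1 (by norm_num)
    gcongr
  have hE41 : E ^ 4 ≤ E := by
    calc E ^ 4 ≤ E ^ 1 := pow_le_pow_of_le_one hE0.le hE1 (by norm_num)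
      _ = E := pow_one _
  have hsq : Real.sqrt (3 * gap ρ k p) ≤ Real.sqrt (3 * A) * E ^ 2 := by
    have h1 : 3 * gap ρ k p ≤ 3 * A * (E ^ 2) ^ 2 := by nlinarith
    calc Real.sqrt (3 * gap ρ k p) ≤ Real.sqrt (3 * A * (E ^ 2) ^ 2) := Real.sqrt_le_sqrt h1
      _ = Real.sqrt (3 * A) * E ^ 2 := by
        rw [Real.sqrt_mul (by positivity), Real.sqrt_sq (by positivity)]
  have hρ : ρ (p 1) / (1 - ‖p 1‖) ≤ M / (θ * E) := by
    have := h.le _ (mem_ball_of_mem hp)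
    gcongr
  refine e4.trans ?_
  calc 4 * δ * gap ρ k p + ρ (p 1) / (1 - ‖p 1‖) * (2 * δ * Real.sqrt (3 * gap ρ k p))
      ≤ 4 * δ * (A * E) + M / (θ * E) * (2 * δ * (Real.sqrt (3 * A) * E ^ 2)) := by
        have h1 : gap ρ k p ≤ A * E := hg.trans (by gcongr)
        gcongr
    _ = (4 * A + 2 * M * Real.sqrt (3 * A) / θ) * δ * E := by
        field_simp

theorem Room.step_bound_int (h : Room ρ M) {x₀ : Fin 2 → ℂ} (hx₀ : x₀ ∈ Om ρ) {bh : ℂ}
    (hbh : ‖bh‖ < 1) :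
    ∃ C > 0, ∃ c > 0, ∃ r > 0, ∀ z ∈ Om ρ, ‖z 1 - bh‖ < r → ∀ p q, ∀ δ s : ℝ, 0 ≤ δ → δ ≤ 1 / 4 →
      0 ≤ s → Step (Om ρ) δ p q → s ≤ kob (Om ρ) x₀ z - kob (Om ρ) p z →
      ‖q 0 - p 0‖ ≤ C * δ * Real.exp (-(c * s)) := by
  have hM := h.M_pos
  obtain ⟨C, hC, c, hc, hest⟩ := h.mid_est hx₀
  set D := 1 - ‖bh‖ with hD
  have hD0 : 0 < D := by linarith
  obtain ⟨C', hC', hfar⟩ := h.far_step (C := C) (c := c) (θ := D / 2) hC hc (by positivity)
  refine ⟨C' + 8 * M * (4 * C / D), by positivity, c / 8, by positivity, D / 4, by positivity,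
    fun z hz hzb p q δ s hδ hδ1 hs hst hk => ?_⟩
  have hp := hst.mem_left
  obtain ⟨e1, e2⟩ := hest p hp z hz s hs hk
  have hexp : Real.exp (-(c / 8 * s)) ≤ 1 := Real.exp_le_one_iff.2 (by
    have : 0 ≤ c / 8 * s := by positivity
    linarith)
  rcases le_or_gt (C * Real.exp (-(c * s))) (D / 4) with hc1 | hc1
  · have h1 : D / 2 ≤ 1 - ‖p 1‖ := by
      have h2 : ‖p 1‖ ≤ ‖p 1 - z 1‖ + ‖z 1 - bh‖ + ‖bh‖ := by
        calc ‖p 1‖ = ‖(p 1 - z 1) + (z 1 - bh) + bh‖ := by ring_nf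
          _ ≤ _ := norm_add₃_le
      linarith
    have h2 := hfar δ s hδ (by linarith) hs p q hst e2 (by nlinarith)
    refine h2.trans ?_
    have : 0 ≤ 8 * M * (4 * C / D) := by positivity
    gcongr
    linarith
  · obtain ⟨-, -, e3, -⟩ := h.step hδ (by linarith) hst 0
    have h1 : 1 ≤ 4 * C / D * Real.exp (-(c * s)) := by
      rw [div_mul_eq_mul_div, le_div_iff₀ hD0]
      linarith
    have h2 : Real.exp (-(c * s)) ≤ Real.exp (-(c / 8 * s)) := by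
      apply Real.exp_le_exp.2
      have : 0 ≤ c * s := by positivity
      linarith
    calc ‖q 0 - p 0‖ ≤ 8 * δ * ρ (p 1) := e3
      _ ≤ 8 * δ * M * 1 := by
        rw [mul_one]
        have := h.le _ (mem_ball_of_mem hp)
        gcongr
      _ ≤ 8 * δ * M * (4 * C / D * Real.exp (-(c * s))) := by gcongr
      _ ≤ 8 * δ * M * (4 * C / D * Real.exp (-(c / 8 * s))) := by gcongr
      _ = 8 * M * (4 * C / D) * δ * Real.exp (-(c / 8 * s)) := by ring
      _ ≤ (C' + 8 * M * (4 * C / D)) * δ * Real.exp (-(c / 8 * s)) := by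
        gcongr
        linarith

theorem Room.step_bound_bdry (h : Room ρ M) {x₀ : Fin 2 → ℂ} (hx₀ : x₀ ∈ Om ρ) {bh : ℂ}
    (hbh : ‖bh‖ = 1) {C₂ c₂ : ℝ} (hC₂ : 0 < C₂) (hc₂ : 0 < c₂) :
    ∃ C > 0, ∃ c > 0, ∃ r > 0, ∀ z ∈ Om ρ, 1 - ‖z 1‖ < r →
      ‖z 1 - bh‖ ≤ C₂ * Real.exp (-(c₂ * (-Real.log (1 - ‖z 1‖)))) →
      ∀ p q, ∀ δ s : ℝ, 0 ≤ δ → δ ≤ 1 / 4 →
      0 ≤ s → Step (Om ρ) δ p q → s ≤ kob (Om ρ) x₀ z - kob (Om ρ) p z →
      ‖q 0 - p 0‖ ≤ C * δ * Real.exp (-(c * s)) := by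
  have hM := h.M_pos
  obtain ⟨C, hC, c, hc, hest⟩ := h.mid_est hx₀
  obtain ⟨L, hL, hlip⟩ := h.lip bh hbh
  obtain ⟨C', hC', hfar⟩ := h.far_step (C := C) (c := c) (θ := 1 / 2) hC hc (by positivity)
  refine ⟨C' + 8 * L * (C + C₂), by positivity, min (c / 8) (c₂ * c / 8), by positivity,
    min 1 (1 / (2 * C)), by positivity,
    fun z hz hzr hzb p q δ s hδ hδ1 hs hst hk => ?_⟩
  have hp := hst.mem_left
  obtain ⟨e1, e2⟩ := hest p hp z hz s hs hk
  have hz1 := dpos_of_mem hz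
  set T := -Real.log (1 - ‖z 1‖) with hT
  have hTe : Real.exp (-T) = 1 - ‖z 1‖ := by rw [hT, neg_neg, Real.exp_log hz1]
  have hT0 : 0 ≤ T := by
    rw [hT]
    have := Real.log_nonpos hz1.le (by linarith [norm_nonneg (z 1)])
    linarith
  set cf := min (c / 8) (c₂ * c / 8) with hcf
  have hcf1 : cf ≤ c / 8 := min_le_left _ _
  have hcf2 : cf ≤ c₂ * c / 8 := min_le_right _ _
  have hcf0 : 0 < cf := by positivity
  have hcs : 0 ≤ c * s := by positivity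
  rcases le_or_gt (c * s / 8) T with hc1 | hc1
  · -- first regime
    have h1 : ‖p 1 - bh‖ ≤ (C + C₂) * Real.exp (-(cf * s)) := by
      have h2 : ‖p 1 - bh‖ ≤ ‖p 1 - z 1‖ + ‖z 1 - bh‖ := by
        calc ‖p 1 - bh‖ = ‖(p 1 - z 1) + (z 1 - bh)‖ := by ring_nf
          _ ≤ _ := norm_add_le _ _
      have h3 : Real.exp (-(c * s)) ≤ Real.exp (-(cf * s)) := by
        apply Real.exp_le_exp.2
        have : cf * s ≤ c / 8 * s := by gcongr
        linarith
      have h4 : Real.exp (-(c₂ * T)) ≤ Real.exp (-(cf * s)) := by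
        apply Real.exp_le_exp.2
        have h5 : cf * s ≤ c₂ * c / 8 * s := by gcongr
        have h6 : c₂ * (c * s / 8) ≤ c₂ * T := by gcongr
        linarith
      calc ‖p 1 - bh‖ ≤ C * Real.exp (-(c * s)) + C₂ * Real.exp (-(c₂ * T)) :=
            h2.trans (add_le_add e1 hzb)
        _ ≤ C * Real.exp (-(cf * s)) + C₂ * Real.exp (-(cf * s)) := by gcongr
        _ = _ := by ring
    obtain ⟨-, -, e3, -⟩ := h.step hδ (by linarith) hst 0
    calc ‖q 0 - p 0‖ ≤ 8 * δ * ρ (p 1) := e3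
      _ ≤ 8 * δ * (L * ((C + C₂) * Real.exp (-(cf * s)))) := by
        have h2 : ρ (p 1) ≤ L * ((C + C₂) * Real.exp (-(cf * s))) :=
          (hlip _ (mem_ball_of_mem hp)).trans (by gcongr)
        gcongr
      _ = 8 * L * (C + C₂) * δ * Real.exp (-(cf * s)) := by ring
      _ ≤ (C' + 8 * L * (C + C₂)) * δ * Real.exp (-(cf * s)) := by
        gcongr
        linarith
  · -- second regime
    have h1 : ‖p 1 - z 1‖ ≤ (1 - ‖z 1‖) / 2 := by
      have h2 : Real.exp (-(c * s)) ≤ Real.exp (-T) * Real.exp (-T) := by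
        rw [← Real.exp_add]
        apply Real.exp_le_exp.2
        linarith
      have h3 : 1 - ‖z 1‖ < 1 / (2 * C) := hzr.trans_le (min_le_right _ _)
      have h4 : C * (1 - ‖z 1‖) ≤ 1 / 2 := by
        rw [lt_div_iff₀ (by positivity)] at h3
        linarith
      calc ‖p 1 - z 1‖ ≤ C * Real.exp (-(c * s)) := e1
        _ ≤ C * (Real.exp (-T) * Real.exp (-T)) := by gcongr
        _ = C * (1 - ‖z 1‖) * (1 - ‖z 1‖) := by rw [hTe]; ring
        _ ≤ 1 / 2 * (1 - ‖z 1‖) := by gcongr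
        _ = _ := by ring
    have h2 : 1 / 2 * Real.exp (-(c / 8 * s)) ≤ 1 - ‖p 1‖ := by
      have h3 : ‖p 1‖ ≤ ‖p 1 - z 1‖ + ‖z 1‖ := by
        calc ‖p 1‖ = ‖(p 1 - z 1) + z 1‖ := by ring_nf
          _ ≤ _ := norm_add_le _ _
      have h4 : Real.exp (-(c / 8 * s)) ≤ Real.exp (-T) := by
        apply Real.exp_le_exp.2
        linarith
      rw [hTe] at h4
      linarith
    have h3 := hfar δ s hδ (by linarith) hs p q hst e2 h2
    calc ‖q 0 - p 0‖ ≤ C' * δ * Real.exp (-(c / 8 * s)) := h3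
      _ ≤ C' * δ * Real.exp (-(cf * s)) := by gcongr
      _ ≤ (C' + 8 * L * (C + C₂)) * δ * Real.exp (-(cf * s)) := by
        have : 0 ≤ 8 * L * (C + C₂) := by positivity
        gcongr
        linarith

theorem exists_unit (z : ℂ) : ∃ u : ℂ, ‖u‖ = 1 ∧ u * z = (‖z‖ : ℂ) := by
  by_cases hz : z = 0
  · exact ⟨1, by simp, by simp [hz]⟩
  · have h1 : (‖z‖ : ℂ) ≠ 0 := by simpa using hz
    refine ⟨(starRingEnd ℂ) z / ‖z‖, ?_, ?_⟩
    · rw [norm_div, Complex.norm_real, norm_norm, RCLike.norm_conj]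
      exact div_self (norm_ne_zero_iff.2 hz)
    · rw [div_mul_eq_mul_div, mul_comm, Complex.mul_conj, Complex.normSq_eq_norm_sq]
      field_simp
      push_cast
      ring

/-- hyperbolic balls around a point whose `b` is near the unit circle are small in the direction of
`b` -/
theorem Room.b_dist (h : Room ρ M) {x y : Fin 2 → ℂ} (hx : x ∈ Om ρ) (hy : y ∈ Om ρ) {s : ℝ}
    (hk : kob (Om ρ) x y ≤ s) :
    ‖x 1 - y 1‖ ^ 2 ≤ 8 * Real.exp (2 * s) * (1 - ‖x 1‖) := by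
  have hD := h.dom
  set m : Fin 2 → ℂ := (1 / 2 : ℝ) • y + (1 - 1 / 2 : ℝ) • x with hm
  have hmΩ : m ∈ Om ρ := hD.cvx hy hx (by norm_num) (by norm_num) (by norm_num)
  have h1 : kob (Om ρ) m x ≤ kob (Om ρ) y x := kob_segment hD hy hx (by norm_num) (by norm_num)
  rw [kob_comm _ m x, kob_comm _ y x] at h1
  obtain ⟨u, hu, hux⟩ := exists_unit (x 1)
  have h2 : ∀ z : Fin 2 → ℂ, 1 - ‖z 1‖ ≤ (1 - u * z 1).re := by
    intro z
    have h3 : (u * z 1).re ≤ ‖u * z 1‖ := Complex.re_le_norm _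
    rw [norm_mul, hu, one_mul] at h3
    rw [Complex.sub_re, Complex.one_re]
    linarith
  have h3 := kob_harnack hD.op hD.cvx (v := fun z : Fin 2 → ℂ => 1 - u * z 1)
    (by fun_prop) (fun z hz => (dpos_of_mem hz).le.trans (h2 z)) hx hmΩ
  have h4 : (1 - u * x 1).re = 1 - ‖x 1‖ := by
    rw [hux, Complex.sub_re, Complex.one_re, Complex.ofReal_re]
  simp only [h4] at h3
  have h5 : 1 - ‖m 1‖ ≤ Real.exp (2 * s) * (1 - ‖x 1‖) := by
    refine (h2 m).trans (h3.trans ?_)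
    have := dpos_of_mem hx
    gcongr
    linarith
  have h6 : ‖x 1 - y 1‖ ^ 2 ≤ 8 * (1 - ‖m 1‖) := by
    have hx1 := (mem_Om.1 hx).1
    have hy1 := (mem_Om.1 hy).1
    have hm1 := (mem_Om.1 hmΩ).1
    have h7 : m 1 = (x 1 + y 1) / 2 := by
      rw [hm, Pi.add_apply, Pi.smul_apply, Pi.smul_apply, Complex.real_smul, Complex.real_smul]
      push_cast
      ring
    have h8 : ‖x 1 + y 1‖ ^ 2 + ‖x 1 - y 1‖ ^ 2 = 2 * (‖x 1‖ ^ 2 + ‖y 1‖ ^ 2) := by
      have := parallelogram_law_with_norm ℝ (x 1) (y 1)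
      nlinarith
    have h9 : ‖m 1‖ = ‖x 1 + y 1‖ / 2 := by
      rw [h7, norm_div]
      norm_num
    have h10 : ‖x 1‖ ^ 2 ≤ 1 := by
      have := norm_nonneg (x 1)
      nlinarith
    have h11 : ‖y 1‖ ^ 2 ≤ 1 := by
      have := norm_nonneg (y 1)
      nlinarith
    have h12 : ‖x 1 + y 1‖ = 2 * ‖m 1‖ := by rw [h9]; ring
    rw [h12] at h8
    have h13 := norm_nonneg (m 1)
    nlinarith
  calc ‖x 1 - y 1‖ ^ 2 ≤ 8 * (1 - ‖m 1‖) := h6
    _ ≤ 8 * (Real.exp (2 * s) * (1 - ‖x 1‖)) := by gcongr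
    _ = _ := by ring

theorem Room.exists_good_chain (h : Room ρ M) {x₀ x z : Fin 2 → ℂ}
    (hx : x ∈ Om ρ) (hz : z ∈ Om ρ) (hk : kob (Om ρ) x z < kob (Om ρ) x₀ z) :
    ∃ (N : ℕ) (δ : ℝ) (p : ℕ → Fin 2 → ℂ), 0 < δ ∧ δ ≤ 1 / 4 ∧
      N * δ = kob (Om ρ) x₀ z ∧ p 0 = x ∧ p N = z ∧ (∀ i < N, Step (Om ρ) δ (p i) (p (i + 1))) ∧
      (∀ i ≤ N, p i ∈ Om ρ) ∧ (∀ i ≤ N, kob (Om ρ) x (p i) ≤ i * δ) ∧
      (∀ i ≤ N, i * δ ≤ kob (Om ρ) x₀ z - kob (Om ρ) (p i) z) := by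
  have hD := h.dom
  set κ := kob (Om ρ) x₀ z with hκ
  have hκ0 : 0 < κ := (kob_nonneg _ _ _).trans_lt hk
  obtain ⟨N0, hN0, hch⟩ := exists_uchain hD.op hD.cvx hx hz hk
  obtain ⟨N1, hN1⟩ := exists_nat_gt (4 * κ)
  set N := max N0 N1 with hN
  have hNpos : (0 : ℝ) < N := by
    have : 0 < N := lt_of_lt_of_le hN0 (le_max_left _ _)
    exact_mod_cast this
  obtain ⟨p, hp0, hpN, hp⟩ := hch N (le_max_left _ _)
  have hδ0 : 0 < κ / N := by positivity
  have hNδ : N * (κ / N) = κ := by field_simp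
  refine ⟨N, κ / N, p, hδ0, ?_, hNδ, hp0, hpN, hp, ?_, ?_, ?_⟩
  · rw [div_le_iff₀ hNpos]
    have : (N1 : ℝ) ≤ N := by exact_mod_cast le_max_right N0 N1
    linarith
  · intro i hi
    rcases hi.lt_or_eq with h1 | h1
    · exact (hp i h1).mem_left
    · rw [h1, hpN]; exact hz
  · intro i hi
    have := kob_le_of_steps' hδ0.le hp (by rw [hp0]; exact hx) hi
    rwa [hp0] at this
  · intro i hi
    have := kob_le_of_steps hδ0.le hp (by rw [hpN]; exact hz) hi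
    rw [hpN, sub_mul, hNδ] at this
    linarith

/-- index of a point at given distance -/
theorem exists_index {N : ℕ} {δ s : ℝ} (hδ : 0 < δ) (hs : 0 ≤ s) (hN : s ≤ N * δ) :
    ∃ i ≤ N, i * δ ≤ s ∧ s - δ ≤ i * δ := by
  refine ⟨⌊s / δ⌋₊, ?_, ?_, ?_⟩
  · have h1 : s / δ ≤ N := by rwa [div_le_iff₀ hδ]
    have h2 : ⌊s / δ⌋₊ ≤ ⌊(N : ℝ)⌋₊ := Nat.floor_mono h1
    rwa [Nat.floor_natCast] at h2
  · have h1 : (⌊s / δ⌋₊ : ℝ) ≤ s / δ := Nat.floor_le (by positivity)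
    rwa [le_div_iff₀ hδ] at h1
  · have h1 : s / δ < ⌊s / δ⌋₊ + 1 := Nat.lt_floor_add_one _
    rw [div_lt_iff₀ hδ] at h1
    linarith

/-- the main convergence statement -/
theorem Room.core (h : Room ρ M) {x₀ : Fin 2 → ℂ} (hx₀ : x₀ ∈ Om ρ) {z : ℕ → Fin 2 → ℂ}
    (hz : ∀ n, z n ∈ Om ρ) (hκ : Tendsto (fun n => kob (Om ρ) x₀ (z n)) atTop atTop)
    {u : ℕ → ℕ} (hu : StrictMono u)
    (hrec : ∀ j m, 1 ≤ m → m ≤ u j → kob (Om ρ) (z m) (z (u j)) < kob (Om ρ) x₀ (z (u j)))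
    {zh : Fin 2 → ℂ} (hlim : Tendsto (z ∘ u) atTop (𝓝 zh)) : Tendsto z atTop (𝓝 zh) := by
  have hD := h.dom
  have hM := h.M_pos
  obtain ⟨C, hC, c, hc, hest⟩ := h.mid_est hx₀
  have hκu : Tendsto (fun j => kob (Om ρ) x₀ (z (u j))) atTop atTop :=
    hκ.comp hu.tendsto_atTop
  have hlim1 : Tendsto (fun j => ‖z (u j) 1 - zh 1‖) atTop (𝓝 0) := by
    have h1 : Tendsto (fun j => z (u j) 1) atTop (𝓝 (zh 1)) :=
      ((continuous_apply 1).tendsto zh).comp hlim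
    exact tendsto_iff_norm_sub_tendsto_zero.1 h1
  have hlim0 : Tendsto (fun j => ‖z (u j) 0 - zh 0‖) atTop (𝓝 0) := by
    have h1 : Tendsto (fun j => z (u j) 0) atTop (𝓝 (zh 0)) :=
      ((continuous_apply 0).tendsto zh).comp hlim
    exact tendsto_iff_norm_sub_tendsto_zero.1 h1
  have huge : ∀ m : ℕ, ∀ᶠ j in atTop, m ≤ u j := fun m =>
    (hu.tendsto_atTop).eventually_ge_atTop m
  -- shift of the exponent
  have hshift : ∀ a : ℝ, 0 < a → ∀ s t : ℝ, s - 1 ≤ t →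
      Real.exp (-(a * t)) ≤ Real.exp a * Real.exp (-(a * s)) := by
    intro a ha s t hst
    rw [← Real.exp_add]
    apply Real.exp_le_exp.2
    nlinarith
  -- first claim
  have claim1 : ∀ m, 1 ≤ m → ∀ s : ℝ, 0 ≤ s → ∃ y ∈ Om ρ, kob (Om ρ) (z m) y ≤ s ∧
      ‖y 1 - zh 1‖ ≤ 2 * C * Real.exp c * Real.exp (-(c * s)) := by
    intro m hm s hs
    have e1 := huge m
    have e2 := hκu.eventually_ge_atTop s
    have e3 := hlim1.eventually (ge_mem_nhds
      (show (0 : ℝ) < C * Real.exp c * Real.exp (-(c * s)) by positivity))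
    obtain ⟨j, h1, h2, h3⟩ := (e1.and (e2.and e3)).exists
    obtain ⟨N, δ, p, hδ0, hδ1, hNδ, hp0, hpN, hp, hmem, hk1, hk2⟩ :=
      h.exists_good_chain (x₀ := x₀) (hz m) (hz (u j)) (hrec j m hm h1)
    obtain ⟨i, hi, hi1, hi2⟩ := exists_index hδ0 hs (by rw [hNδ]; exact h2)
    refine ⟨p i, hmem i hi, (hk1 i hi).trans hi1, ?_⟩
    obtain ⟨g1, -⟩ := hest (p i) (hmem i hi) (z (u j)) (hz _) (i * δ) (by positivity) (hk2 i hi)
    have g2 := hshift c hc s (i * δ) (by linarith)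
    have h4 : ‖p i 1 - zh 1‖ ≤ ‖p i 1 - z (u j) 1‖ + ‖z (u j) 1 - zh 1‖ := by
      calc ‖p i 1 - zh 1‖ = ‖(p i 1 - z (u j) 1) + (z (u j) 1 - zh 1)‖ := by ring_nf
        _ ≤ _ := norm_add_le _ _
    calc ‖p i 1 - zh 1‖ ≤ C * Real.exp (-(c * (i * δ))) + C * Real.exp c * Real.exp (-(c * s)) :=
          h4.trans (add_le_add g1 h3)
      _ ≤ C * (Real.exp c * Real.exp (-(c * s))) + C * Real.exp c * Real.exp (-(c * s)) := by
        gcongr
      _ = _ := by ring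
  -- the step bound
  have hzh1 : ‖zh 1‖ ≤ 1 := by
    refine le_of_tendsto (f := fun j => ‖z (u j) 1‖) (x := atTop) ?_
      (Eventually.of_forall fun j => (mem_Om.1 (hz (u j))).1.le)
    exact (((continuous_apply 1).tendsto zh).comp hlim).norm
  have hsb : ∃ C' > 0, ∃ c' > 0, ∀ᶠ j in atTop, ∀ p q, ∀ δ s : ℝ, 0 ≤ δ → δ ≤ 1 / 4 →
      0 ≤ s → Step (Om ρ) δ p q → s ≤ kob (Om ρ) x₀ (z (u j)) - kob (Om ρ) p (z (u j)) →
      ‖q 0 - p 0‖ ≤ C' * δ * Real.exp (-(c' * s)) := by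
    rcases hzh1.lt_or_eq with hcase | hcase
    · obtain ⟨C', hC', c', hc', r, hr, hst⟩ := h.step_bound_int hx₀ hcase
      refine ⟨C', hC', c', hc', ?_⟩
      filter_upwards [hlim1.eventually (gt_mem_nhds hr)] with j hj
      exact fun p q δ s h1 h2 h3 h4 h5 => hst (z (u j)) (hz _) hj p q δ s h1 h2 h3 h4 h5
    · -- boundary case
      set C₂ := 3 + 2 * C * Real.exp c with hC₂
      set c₂ := min (1 / 4) (c / 4) with hc₂
      have hC₂0 : 0 < C₂ := by positivity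
      have hc₂0 : 0 < c₂ := by positivity
      have hc₂1 : c₂ ≤ 1 / 4 := min_le_left _ _
      have hc₂2 : c₂ ≤ c / 4 := min_le_right _ _
      have claim3 : ∀ m, 1 ≤ m →
          ‖z m 1 - zh 1‖ ≤ C₂ * Real.exp (-(c₂ * (-Real.log (1 - ‖z m 1‖)))) := by
        intro m hm
        have hd := dpos_of_mem (hz m)
        set T := -Real.log (1 - ‖z m 1‖) with hT
        have hTe : Real.exp (-T) = 1 - ‖z m 1‖ := by rw [hT, neg_neg, Real.exp_log hd]
        have hT0 : 0 ≤ T := by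
          rw [hT]
          have := Real.log_nonpos hd.le (by linarith [norm_nonneg (z m 1)])
          linarith
        obtain ⟨y, hy, hky, hyb⟩ := claim1 m hm (T / 4) (by positivity)
        have h1 := h.b_dist (hz m) hy hky
        have h2 : ‖z m 1 - y 1‖ ≤ 3 * Real.exp (-(T / 4)) := by
          apply le_of_pow_le_pow_left₀ (n := 2) (by norm_num) (by positivity)
          refine h1.trans ?_
          rw [← hTe, mul_pow, mul_assoc, ← Real.exp_add, ← Real.exp_nat_mul]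
          have h3 : (2 * (T / 4) + -T : ℝ) = ((2 : ℕ) : ℝ) * -(T / 4) := by push_cast; ring
          rw [h3]
          gcongr
          norm_num
        have h4 : ‖z m 1 - zh 1‖ ≤ ‖z m 1 - y 1‖ + ‖y 1 - zh 1‖ := by
          calc ‖z m 1 - zh 1‖ = ‖(z m 1 - y 1) + (y 1 - zh 1)‖ := by ring_nf
            _ ≤ _ := norm_add_le _ _
        have h5 : Real.exp (-(T / 4)) ≤ Real.exp (-(c₂ * T)) := by
          apply Real.exp_le_exp.2
          nlinarith
        have h6 : Real.exp (-(c * (T / 4))) ≤ Real.exp (-(c₂ * T)) := by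
          apply Real.exp_le_exp.2
          nlinarith
        calc ‖z m 1 - zh 1‖ ≤ 3 * Real.exp (-(T / 4)) +
              2 * C * Real.exp c * Real.exp (-(c * (T / 4))) := h4.trans (add_le_add h2 hyb)
          _ ≤ 3 * Real.exp (-(c₂ * T)) + 2 * C * Real.exp c * Real.exp (-(c₂ * T)) := by gcongr
          _ = _ := by rw [hC₂]; ring
      obtain ⟨C', hC', c', hc', r, hr, hst⟩ := h.step_bound_bdry hx₀ hcase hC₂0 hc₂0
      refine ⟨C', hC', c', hc', ?_⟩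
      have hd : Tendsto (fun j => 1 - ‖z (u j) 1‖) atTop (𝓝 0) := by
        have h1 : Tendsto (fun j => 1 - ‖z (u j) 1‖) atTop (𝓝 (1 - ‖zh 1‖)) :=
          ((((continuous_apply 1).tendsto zh).comp hlim).norm).const_sub 1
        rwa [hcase, sub_self] at h1
      filter_upwards [hd.eventually (gt_mem_nhds hr), huge 1] with j hj hj1
      exact fun p q δ s h1 h2 h3 h4 h5 =>
        hst (z (u j)) (hz _) hj (claim3 (u j) hj1) p q δ s h1 h2 h3 h4 h5
  obtain ⟨C', hC', c', hc', hsb⟩ := hsb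
  -- second claim
  have claim4 : ∀ m, 1 ≤ m → ∀ s : ℝ, 0 ≤ s → ∃ y ∈ Om ρ, kob (Om ρ) (z m) y ≤ s ∧
      ‖y 1 - zh 1‖ ≤ 2 * C * Real.exp c * Real.exp (-(c * s)) ∧
      ‖y 0 - zh 0‖ ≤ 2 * (C' * (1 / c' + 1)) * Real.exp c' * Real.exp (-(c' * s)) := by
    intro m hm s hs
    have e1 := huge m
    have e2 := hκu.eventually_ge_atTop s
    have e3 := hlim1.eventually (ge_mem_nhds
      (show (0 : ℝ) < C * Real.exp c * Real.exp (-(c * s)) by positivity))
    have e4 := hlim0.eventually (ge_mem_nhds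
      (show (0 : ℝ) < (C' * (1 / c' + 1)) * Real.exp c' * Real.exp (-(c' * s)) by positivity))
    obtain ⟨j, h1, h2, h3, h4, h5⟩ := (e1.and (e2.and (e3.and (e4.and hsb)))).exists
    obtain ⟨N, δ, p, hδ0, hδ1, hNδ, hp0, hpN, hp, hmem, hk1, hk2⟩ :=
      h.exists_good_chain (x₀ := x₀) (hz m) (hz (u j)) (hrec j m hm h1)
    obtain ⟨i, hi, hi1, hi2⟩ := exists_index hδ0 hs (by rw [hNδ]; exact h2)
    refine ⟨p i, hmem i hi, (hk1 i hi).trans hi1, ?_, ?_⟩
    · obtain ⟨g1, -⟩ := hest (p i) (hmem i hi) (z (u j)) (hz _) (i * δ) (by positivity) (hk2 i hi)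
      have g2 := hshift c hc s (i * δ) (by linarith)
      have g4 : ‖p i 1 - zh 1‖ ≤ ‖p i 1 - z (u j) 1‖ + ‖z (u j) 1 - zh 1‖ := by
        calc ‖p i 1 - zh 1‖ = ‖(p i 1 - z (u j) 1) + (z (u j) 1 - zh 1)‖ := by ring_nf
          _ ≤ _ := norm_add_le _ _
      calc ‖p i 1 - zh 1‖ ≤ C * Real.exp (-(c * (i * δ))) + C * Real.exp c * Real.exp (-(c * s)) :=
            g4.trans (add_le_add g1 h3)
        _ ≤ C * (Real.exp c * Real.exp (-(c * s))) + C * Real.exp c * Real.exp (-(c * s)) := by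
          gcongr
        _ = _ := by ring
    · have g1 := tele_exp (a := fun i => p i 0) (N := N) hC'.le hc' hδ0.le (by linarith)
        (fun l hl => h5 (p l) (p (l + 1)) δ (l * δ) hδ0.le hδ1 (by positivity) (hp l hl)
          (hk2 l hl.le)) hi
      simp only [hpN] at g1
      have g2 := hshift c' hc' s (i * δ) (by linarith)
      have g4 : ‖p i 0 - zh 0‖ ≤ ‖p i 0 - z (u j) 0‖ + ‖z (u j) 0 - zh 0‖ := by
        calc ‖p i 0 - zh 0‖ = ‖(p i 0 - z (u j) 0) + (z (u j) 0 - zh 0)‖ := by ring_nf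
          _ ≤ _ := norm_add_le _ _
      calc ‖p i 0 - zh 0‖ ≤ C' * (1 / c' + 1) * Real.exp (-(c' * (i * δ))) +
            (C' * (1 / c' + 1)) * Real.exp c' * Real.exp (-(c' * s)) :=
            g4.trans (add_le_add g1 h4)
        _ ≤ C' * (1 / c' + 1) * (Real.exp c' * Real.exp (-(c' * s))) +
            (C' * (1 / c' + 1)) * Real.exp c' * Real.exp (-(c' * s)) := by
          gcongr
        _ = _ := by ring
  -- conclusion
  have hdz : Tendsto (fun n => dlt (Om ρ) (z n)) atTop (𝓝 0) := by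
    obtain ⟨A, hA, a, ha, hdl⟩ := exists_dlt_le hD hx₀
    have h1 : Tendsto (fun n => A * Real.exp (-(a * kob (Om ρ) x₀ (z n)))) atTop (𝓝 0) := by
      have h2 := (Real.tendsto_exp_neg_atTop_nhds_zero.comp (hκ.const_mul_atTop ha)).const_mul A
      rw [mul_zero] at h2
      exact h2
    exact squeeze_zero (fun n => (dlt_pos hD (hz n)).le) (fun n => hdl _ (hz n)) h1
  rw [Metric.tendsto_atTop']
  intro ε hε
  have hexp : ∀ B a : ℝ, 0 < a → Tendsto (fun s : ℝ => B * Real.exp (-(a * s))) atTop (𝓝 0) := by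
    intro B a ha
    have h2 := (Real.tendsto_exp_neg_atTop_nhds_zero.comp
      (tendsto_id.const_mul_atTop ha)).const_mul B
    rw [mul_zero] at h2
    exact h2
  have f1 := (hexp (2 * C * Real.exp c) c hc).eventually (gt_mem_nhds (half_pos hε))
  have f2 := (hexp (2 * (C' * (1 / c' + 1)) * Real.exp c') c' hc').eventually
    (gt_mem_nhds (half_pos hε))
  obtain ⟨s, hs1, hs2, hs0⟩ := (f1.and (f2.and (eventually_ge_atTop 0))).exists
  obtain ⟨η, hη, hbt⟩ := h.bt s (half_pos hε)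
  obtain ⟨n0, hn0⟩ := eventually_atTop.1 (hdz.eventually (gt_mem_nhds hη))
  refine ⟨n0 + 1, fun n hn => ?_⟩
  obtain ⟨y, hy, hky, hy1, hy0⟩ := claim4 n (by omega) s hs0
  have h1 := hbt (z n) (hz n) y hy (hn0 n (by omega)) hky
  have h2 : ‖y - zh‖ < ε / 2 := norm_lt_of_coord (half_pos hε)
    (by rw [norm_sub_rev]; exact hy0.trans_lt hs2) (by rw [norm_sub_rev]; exact hy1.trans_lt hs1)
  calc dist (z n) zh ≤ dist (z n) y + dist y zh := dist_triangle _ _ _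
    _ = ‖z n - y‖ + ‖y - zh‖ := by rw [dist_eq_norm, dist_eq_norm]
    _ < ε := by linarith

theorem exists_record {κ : ℕ → ℝ} (hκ : Tendsto κ atTop atTop) :
    ∃ u : ℕ → ℕ, StrictMono u ∧ ∀ j, ∀ m < u j, κ m < κ (u j) :=
  extraction_of_frequently_atTop (frequently_high_scores hκ)

theorem iterate_kob {Ω : Set (Fin 2 → ℂ)} (hD : Dom Ω) {F : (Fin 2 → ℂ) → Fin 2 → ℂ}
    (hF : DifferentiableOn ℂ F Ω) (hm : MapsTo F Ω Ω) {x y : Fin 2 → ℂ} (hx : x ∈ Ω) (hy : y ∈ Ω)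
    (n : ℕ) : kob Ω (F^[n] x) (F^[n] y) ≤ kob Ω x y := by
  induction n with
  | zero => simp
  | succ n ih =>
    rw [Function.iterate_succ_apply', Function.iterate_succ_apply']
    exact (kob_map hD.op hD.cvx hF hm (hm.iterate n hx) (hm.iterate n hy)).trans ih

theorem not_mem_of_tendsto {Ω : Set (Fin 2 → ℂ)} (hD : Dom Ω) {x₀ zh : Fin 2 → ℂ} (hx₀ : x₀ ∈ Ω)
    {z : ℕ → Fin 2 → ℂ} (hκ : Tendsto (fun n => kob Ω x₀ (z n)) atTop atTop)
    (hlim : Tendsto z atTop (𝓝 zh)) : zh ∉ Ω := by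
  intro hmem
  have h1 : ContinuousAt (fun p : (Fin 2 → ℂ) × (Fin 2 → ℂ) => kob Ω p.1 p.2) (x₀, zh) :=
    (kob_continuousOn hD).continuousAt ((hD.op.prod hD.op).mem_nhds ⟨hx₀, hmem⟩)
  have h3 : Tendsto (fun n => (x₀, z n)) atTop (𝓝 (x₀, zh)) :=
    (tendsto_const_nhds (x := x₀)).prodMk_nhds hlim
  have h2 : Tendsto (fun n => kob Ω x₀ (z n)) atTop (𝓝 (kob Ω x₀ zh)) := h1.tendsto.comp h3
  exact not_tendsto_nhds_of_tendsto_atTop hκ _ h2

theorem Room.denjoyWolff (h : Room ρ M) : DenjoyWolff (Om ρ) := by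
  intro F hF hm hfix
  have hD := h.dom
  have hx₀ : (0 : Fin 2 → ℂ) ∈ Om ρ := by
    have h0 := h.pos 0 (by simp)
    simp only [Om, Set.mem_ofPred_eq, Pi.zero_apply, norm_zero, Complex.zero_im, Complex.zero_re,
      abs_zero]
    exact ⟨by norm_num, h0, by linarith⟩
  set z : ℕ → Fin 2 → ℂ := fun n => F^[n] 0 with hzdef
  have hz : ∀ n, z n ∈ Om ρ := fun n => hm.iterate n hx₀
  have hκ : Tendsto (fun n => kob (Om ρ) 0 (z n)) atTop atTop :=
    tendsto_kob_iterate hD hF hm hfix hx₀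
  obtain ⟨v, hv, hrec⟩ := exists_record hκ
  -- convergent subsequence
  have hcomp : IsCompact (closure (Om ρ)) := hD.bdd.isCompact_closure
  obtain ⟨zh, hzh, w, hw, hlim⟩ := hcomp.tendsto_subseq
    (x := fun j => z (v j)) (fun j => subset_closure (hz (v j)))
  set u : ℕ → ℕ := v ∘ w with hu
  have hus : StrictMono u := hv.comp hw
  have hcore : Tendsto z atTop (𝓝 zh) := by
    refine h.core hx₀ hz hκ hus ?_ hlim
    intro j m hm1 hmu
    have h1 : z m = F^[m] 0 := rfl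
    have h2 : z (u j) = F^[m] (z (u j - m)) := by
      change F^[u j] 0 = F^[m] (F^[u j - m] 0)
      rw [← Function.iterate_add_apply]
      congr 2
      omega
    calc kob (Om ρ) (z m) (z (u j)) = kob (Om ρ) (F^[m] 0) (F^[m] (z (u j - m))) := by
          rw [← h2]
      _ ≤ kob (Om ρ) 0 (z (u j - m)) := iterate_kob hD hF hm hx₀ (hz _) m
      _ < kob (Om ρ) 0 (z (u j)) := hrec (w j) (u j - m) (by
          have : u j = v (w j) := rfl
          omega)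
  -- the limit is in the frontier
  have hzh' : zh ∉ Om ρ := not_mem_of_tendsto hD hx₀ hκ hcore
  have hfr : zh ∈ frontier (Om ρ) := by
    rw [hD.op.frontier_eq]
    exact ⟨hzh, hzh'⟩
  -- all orbits
  have hdz : Tendsto (fun n => dlt (Om ρ) (z n)) atTop (𝓝 0) := by
    obtain ⟨A, hA, a, ha, hdl⟩ := exists_dlt_le hD hx₀
    have h1 : Tendsto (fun n => A * Real.exp (-(a * kob (Om ρ) 0 (z n)))) atTop (𝓝 0) := by
      have h2 := (Real.tendsto_exp_neg_atTop_nhds_zero.comp (hκ.const_mul_atTop ha)).const_mul A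
      rw [mul_zero] at h2
      exact h2
    exact squeeze_zero (fun n => (dlt_pos hD (hz n)).le) (fun n => hdl _ (hz n)) h1
  have hall : ∀ x ∈ Om ρ, Tendsto (fun n => F^[n] x) atTop (𝓝 zh) := by
    intro x hx
    have h1 : Tendsto (fun n => ‖z n - F^[n] x‖) atTop (𝓝 0) := by
      rw [Metric.tendsto_atTop']
      intro ε hε
      obtain ⟨η, hη, hbt⟩ := h.bt (kob (Om ρ) 0 x) hε
      obtain ⟨n0, hn0⟩ := eventually_atTop.1 (hdz.eventually (gt_mem_nhds hη))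
      refine ⟨n0, fun n hn => ?_⟩
      rw [Real.dist_eq, sub_zero, abs_of_nonneg (norm_nonneg _)]
      exact hbt (z n) (hz n) (F^[n] x) (hm.iterate n hx) (hn0 n hn.le)
        (iterate_kob hD hF hm hx₀ hx n)
    have h2 : Tendsto (fun n => z n - F^[n] x) atTop (𝓝 0) :=
      tendsto_zero_iff_norm_tendsto_zero.2 h1
    have h3 := hcore.sub h2
    simpa using h3
  refine ⟨zh, hfr, ?_⟩
  ext q
  simp only [targetSet, Set.mem_ofPred_eq, Set.mem_singleton_iff]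
  constructor
  · rintro ⟨x, hx, n, hn, hlim'⟩
    exact tendsto_nhds_unique hlim' ((hall x hx).comp hn.tendsto_atTop)
  · rintro rfl
    exact ⟨0, hx₀, id, strictMono_id, hall 0 hx₀⟩

end

end Pool.Agent.DWH
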