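import Mathlib

/-!
# Definitions: Kobayashi distance, sequential horospheres, Denjoy-Wolff property
-/

open Set Filter Topology Metric

namespace Pool.Agent.DWH

noncomputable section

/-- `½ log ((1 + r) / (1 - r))`: the Poincaré distance from `0` to `r` in the unit disc. -/
def pd (r : ℝ) : ℝ := Real.log ((1 + r) / (1 - r)) / 2

variable {E : Type*} [NormedAddCommGroup E] [NormedSpace ℂ E]

/-- `φ` is holomorphic on the unit disc and maps it into `Ω`. -/
def IsDisc (Ω : Set E) (φ : ℂ → E) : Prop :=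
  DifferentiableOn ℂ φ (ball 0 1) ∧ MapsTo φ (ball 0 1) Ω

/-- `KChain Ω x y L`: there is a finite chain of holomorphic discs in `Ω` from `x` to `y` of total
Poincaré length `L` (each disc `φ` joins `φ 0` and `φ r`, `0 ≤ r < 1`, and has length `pd r`). -/
inductive KChain (Ω : Set E) : E → E → ℝ → Prop
  | nil {x : E} : x ∈ Ω → KChain Ω x x 0
  | cons {x y z : E} {L : ℝ} (φ : ℂ → E) (r : ℝ) : 0 ≤ r → r < 1 → IsDisc Ω φ → φ 0 = x →
      φ r = y → KChain Ω y z L → KChain Ω x z (pd r + L)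

/-- The Kobayashi distance of `Ω`: infimum of the lengths of the chains of holomorphic discs. -/
def kob (Ω : Set E) (x y : E) : ℝ := sInf {L | KChain Ω x y L}

/-- The sequential horosphere `E_{z₀}({zₙ}, R)`. -/
def horosphere (Ω : Set E) (z₀ : E) (z : ℕ → E) (R : ℝ) : Set E :=
  {x ∈ Ω | limsup (fun n => ((kob Ω x (z n) - kob Ω z₀ (z n) : ℝ) : EReal)) atTop <
    ((Real.log R / 2 : ℝ) : EReal)}

/-- Property (H). -/
def PropertyH (Ω : Set E) : Prop :=
  ∀ z₀ ∈ Ω, ∀ z : ℕ → E, (∀ n, z n ∈ Ω) → ∀ p ∈ frontier Ω, Tendsto z atTop (𝓝 p) →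
    ∀ R : ℝ, 0 < R → (horosphere Ω z₀ z R).Nonempty →
      ∃! q, q ∈ closure (horosphere Ω z₀ z R) ∩ frontier Ω

/-- The target set of `F`: all limits of `F^{nₖ}(z)`, `z ∈ Ω`, `nₖ → ∞`. -/
def targetSet (Ω : Set E) (F : E → E) : Set E :=
  {q | ∃ z ∈ Ω, ∃ n : ℕ → ℕ, StrictMono n ∧ Tendsto (fun k => F^[n k] z) atTop (𝓝 q)}

/-- The Denjoy-Wolff property. -/
def DenjoyWolff (Ω : Set E) : Prop :=
  ∀ F : E → E, DifferentiableOn ℂ F Ω → MapsTo F Ω Ω → (∀ x ∈ Ω, F x ≠ x) →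
    ∃ p ∈ frontier Ω, targetSet Ω F = {p}

/-- There is no non-constant holomorphic disc in the set `S`. -/
def NoDisc (S : Set E) : Prop :=
  ∀ φ : ℂ → E, IsDisc S φ → ∀ w ∈ ball (0 : ℂ) 1, φ w = φ 0

end

end Pool.Agent.DWH
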