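import Pool.Agent.DWH.Room

/-!
# Module HFails: property (H) fails
-/

open Set Filter Topology Metric

namespace Pool.Agent.DWH

noncomputable section

variable {ρ : ℂ → ℝ} {M : ℝ}

/-- the discs -/
def Psi (σ : ℝ) (β : ℂ) (t : ℝ) (w : ℂ) : Fin 2 → ℂ :=
  ![(σ : ℂ) * (1 / 2 + Complex.log (1 - (t : ℂ) * w) / ((2 * (-Real.log (1 - t ^ 2)) : ℝ) : ℂ)),
    β * ((1 + (t : ℂ) * w) / 2)]

theorem Psi_zero (σ : ℝ) (β : ℂ) (t : ℝ) (w : ℂ) : Psi σ β t w 0 =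
    (σ : ℂ) * (1 / 2 + Complex.log (1 - (t : ℂ) * w) / ((2 * (-Real.log (1 - t ^ 2)) : ℝ) : ℂ)) :=
  rfl

theorem Psi_one (σ : ℝ) (β : ℂ) (t : ℝ) (w : ℂ) : Psi σ β t w 1 = β * ((1 + (t : ℂ) * w) / 2) :=
  rfl

theorem norm_tw {t : ℝ} (ht0 : 0 < t) {w : ℂ} (hw : w ∈ ball (0 : ℂ) 1) :
    ‖(t : ℂ) * w‖ < t := by
  rw [mem_ball_zero_iff] at hw
  rw [norm_mul, Complex.norm_real, Real.norm_eq_abs, abs_of_pos ht0]
  nlinarith

theorem one_sub_re_pos {t : ℝ} (ht0 : 0 < t) (ht1 : t < 1) {w : ℂ} (hw : w ∈ ball (0 : ℂ) 1) :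
    0 < (1 - (t : ℂ) * w).re := by
  have h1 := norm_tw ht0 hw
  have h2 := (abs_le.1 (Complex.abs_re_le_norm ((t : ℂ) * w))).2
  rw [Complex.sub_re, Complex.one_re]
  linarith

theorem logL_pos {t : ℝ} (ht0 : 0 < t) (ht1 : t < 1) : 0 < -Real.log (1 - t ^ 2) := by
  have h1 : 0 < 1 - t ^ 2 := by nlinarith
  have h2 : 1 - t ^ 2 < 1 := by nlinarith
  have := Real.log_neg h1 h2
  linarith

theorem isDisc_Psi (h : Room ρ M) {σ : ℝ} (hσ : |σ| = 1) {β : ℂ} (hβ : ‖β‖ = 1) {t : ℝ}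
    (ht0 : 0 < t) (ht1 : t < 1) (hl1 : 1 ≤ -Real.log (1 - t ^ 2))
    (hl : ∀ w ∈ ball (0 : ℂ) 1, Real.pi / 4 < ρ (β * ((1 + (t : ℂ) * w) / 2)) *
      (-Real.log (1 - t ^ 2))) : IsDisc (Om ρ) (Psi σ β t) := by
  set l := -Real.log (1 - t ^ 2) with hldef
  have hlpos : 0 < l := by linarith
  refine ⟨?_, ?_⟩
  · rw [differentiableOn_pi]
    intro i
    fin_cases i
    · change DifferentiableOn ℂ (fun w => Psi σ β t w 0) (ball 0 1)
      simp only [Psi_zero]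
      refine DifferentiableOn.const_mul ?_ _
      refine DifferentiableOn.const_add _ ?_
      refine DifferentiableOn.div_const ?_ _
      refine DifferentiableOn.clog ?_ ?_
      · fun_prop
      · intro w hw
        exact Or.inl (one_sub_re_pos ht0 ht1 hw)
    · change DifferentiableOn ℂ (fun w => Psi σ β t w 1) (ball 0 1)
      simp only [Psi_one]
      fun_prop
  · intro w hw
    have hr := one_sub_re_pos ht0 ht1 hw
    have hn := norm_tw ht0 hw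
    have hb : ‖Psi σ β t w 1‖ < 1 := by
      rw [Psi_one, norm_mul, hβ, one_mul, norm_div]
      have : ‖1 + (t : ℂ) * w‖ ≤ 1 + ‖(t : ℂ) * w‖ := by
        simpa using norm_add_le (1 : ℂ) ((t : ℂ) * w)
      rw [Complex.norm_ofNat, div_lt_one (by norm_num)]
      linarith
    have hρ : 0 < ρ (Psi σ β t w 1) := h.pos _ (by rwa [mem_ball_zero_iff])
    have hdiv : ((2 * l : ℝ) : ℂ) = ((2 * l : ℝ) : ℂ) := rfl
    have h0 : Psi σ β t w 0 = (σ : ℂ) * (1 / 2 + Complex.log (1 - (t : ℂ) * w) / ((2 * l : ℝ) : ℂ)) :=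
      rfl
    have him : (Psi σ β t w 0).im = σ * (Complex.arg (1 - (t : ℂ) * w) / (2 * l)) := by
      rw [h0, Complex.im_ofReal_mul, Complex.add_im, Complex.div_ofReal_im, Complex.log_im]
      have : ((1 : ℂ) / 2).im = 0 := by norm_num
      rw [this, zero_add]
    have hre : (Psi σ β t w 0).re = σ * (1 / 2 + Real.log ‖1 - (t : ℂ) * w‖ / (2 * l)) := by
      rw [h0, Complex.re_ofReal_mul, Complex.add_re, Complex.div_ofReal_re, Complex.log_re]
      have : ((1 : ℂ) / 2).re = 1 / 2 := by norm_num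
      rw [this]
    refine ⟨hb, ?_, ?_⟩
    · rw [him, abs_mul, hσ, one_mul, abs_div, abs_of_pos (by positivity : 0 < 2 * l)]
      have h1 := Complex.abs_arg_lt_pi_div_two_iff.2 (Or.inl hr)
      have h2 := hl w hw
      rw [← Psi_one σ β t w] at h2
      rw [div_lt_iff₀ (by positivity)]
      nlinarith
    · rw [hre, abs_mul, hσ, one_mul]
      have h1 : ‖1 - (t : ℂ) * w‖ ≤ 2 := by
        have : ‖1 - (t : ℂ) * w‖ ≤ 1 + ‖(t : ℂ) * w‖ := by
          simpa using norm_sub_le (1 : ℂ) ((t : ℂ) * w)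
        linarith
      have h2 : 1 - t ≤ ‖1 - (t : ℂ) * w‖ := by
        have : ‖(1 : ℂ)‖ - ‖(t : ℂ) * w‖ ≤ ‖1 - (t : ℂ) * w‖ := norm_sub_norm_le _ _
        rw [norm_one] at this
        linarith
      have h3 : Real.log ‖1 - (t : ℂ) * w‖ ≤ Real.log 2 :=
        Real.log_le_log (by linarith) h1
      have h4 : Real.log (1 - t) ≤ Real.log ‖1 - (t : ℂ) * w‖ :=
        Real.log_le_log (by linarith) h2
      have h5 : Real.log (1 - t ^ 2) = Real.log (1 - t) + Real.log (1 + t) := by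
        rw [← Real.log_mul (by linarith) (by linarith)]
        congr 1; ring
      have h6 : Real.log (1 + t) ≤ Real.log 2 := Real.log_le_log (by linarith) (by linarith)
      have h7 : Real.log 2 < 1 := by
        have := Real.log_two_lt_d9; linarith
      rw [abs_lt]
      constructor
      · have : -(1 / 2 : ℝ) - Real.log 2 / (2 * l) ≤ Real.log ‖1 - (t : ℂ) * w‖ / (2 * l) := by
          rw [le_div_iff₀ (by positivity)]
          have : (-(1 / 2 : ℝ) - Real.log 2 / (2 * l)) * (2 * l) = - l - Real.log 2 := by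
            field_simp
          rw [this]
          linarith
        have h8 : Real.log 2 / (2 * l) ≤ 1 / 2 := by
          rw [div_le_iff₀ (by positivity)]
          nlinarith
        linarith
      · have h8 : Real.log ‖1 - (t : ℂ) * w‖ / (2 * l) < 1 / 2 := by
          rw [div_lt_iff₀ (by positivity)]
          nlinarith
        linarith

theorem Psi_self {σ : ℝ} {β : ℂ} {t : ℝ} (ht0 : 0 < t) (ht1 : t < 1) :
    Psi σ β t t = ![0, β * ((1 + (t : ℂ) * t) / 2)] := by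
  have hl := logL_pos ht0 ht1
  have h1 : (0 : ℝ) ≤ 1 - t ^ 2 := by nlinarith
  have h2 : (1 - (t : ℂ) * t) = ((1 - t ^ 2 : ℝ) : ℂ) := by push_cast; ring
  have h3 : Complex.log (1 - (t : ℂ) * t) = ((Real.log (1 - t ^ 2) : ℝ) : ℂ) := by
    rw [h2, Complex.ofReal_log h1]
  have h4 : Psi σ β t t 0 = 0 := by
    rw [Psi_zero, h3, ← Complex.ofReal_div]
    have : Real.log (1 - t ^ 2) / (2 * -Real.log (1 - t ^ 2)) = -(1 / 2) := by
      have : Real.log (1 - t ^ 2) ≠ 0 := by linarith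
      field_simp
    rw [this]
    push_cast
    ring
  funext i
  fin_cases i
  · exact h4
  · rfl

theorem norm_zpt {β : ℂ} (hβ : ‖β‖ = 1) {t : ℝ} (ht0 : 0 < t) :
    ‖β * ((1 + (t : ℂ) * t) / 2)‖ = (1 + t ^ 2) / 2 := by
  have h1 : ((1 + (t : ℂ) * t) / 2) = (((1 + t ^ 2) / 2 : ℝ) : ℂ) := by push_cast; ring
  rw [norm_mul, hβ, one_mul, h1, Complex.norm_real, Real.norm_eq_abs, abs_of_pos (by positivity)]

theorem mem_zpt (h : Room ρ M) {β : ℂ} (hβ : ‖β‖ = 1) {t : ℝ} (ht0 : 0 < t) (ht1 : t < 1) :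
    (![0, β * ((1 + (t : ℂ) * t) / 2)] : Fin 2 → ℂ) ∈ Om ρ := by
  have h1 := norm_zpt hβ ht0
  have h2 : ‖β * ((1 + (t : ℂ) * t) / 2)‖ < 1 := by rw [h1]; nlinarith
  have h3 := h.pos _ (mem_ball_zero_iff.2 h2)
  refine ⟨h2, ?_, ?_⟩
  · change |(0 : ℂ).im| < ρ (β * ((1 + (t : ℂ) * t) / 2))
    rw [Complex.zero_im, abs_zero]
    exact h3
  · change |(0 : ℂ).re| < 1 + ρ (β * ((1 + (t : ℂ) * t) / 2))
    rw [Complex.zero_re, abs_zero]
    linarith

theorem zero_mem_Om (h : Room ρ M) : (0 : Fin 2 → ℂ) ∈ Om ρ := by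
  have h0 := h.pos 0 (by simp)
  refine ⟨?_, ?_, ?_⟩
  · simp
  · simpa using h0
  · simp only [Pi.zero_apply, Complex.zero_re, abs_zero]
    linarith

/-- the points `x_w` -/
def xpt (σ w : ℝ) : Fin 2 → ℂ := ![((σ / 2 : ℝ) : ℂ), (((1 + w) / 2 : ℝ) : ℂ)]

theorem xpt_mem (h : Room ρ M) {σ : ℝ} (hσ : |σ| = 1) {w : ℝ} (hw0 : 0 ≤ w) (hw1 : w < 1) :
    xpt σ w ∈ Om ρ := by
  have h1 : ‖(((1 + w) / 2 : ℝ) : ℂ)‖ < 1 := by
    rw [Complex.norm_real, Real.norm_eq_abs, abs_of_pos (by positivity)]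
    linarith
  have h2 := h.pos _ (mem_ball_zero_iff.2 h1)
  refine ⟨h1, ?_, ?_⟩
  · change |(((σ / 2 : ℝ) : ℂ)).im| < ρ (((1 + w) / 2 : ℝ) : ℂ)
    rw [Complex.ofReal_im, abs_zero]
    exact h2
  · change |(((σ / 2 : ℝ) : ℂ)).re| < 1 + ρ (((1 + w) / 2 : ℝ) : ℂ)
    rw [Complex.ofReal_re, abs_div, hσ, abs_two]
    linarith

/-- lower bound for the distance from the origin -/
theorem kob_zero_lower (h : Room ρ M) {β : ℂ} (hβ : ‖β‖ = 1) {t : ℝ} (ht0 : 0 < t) (ht1 : t < 1) :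
    Real.log (2 / (1 - t ^ 2)) / 2 ≤ kob (Om ρ) 0 ![0, β * ((1 + (t : ℂ) * t) / 2)] := by
  set z : Fin 2 → ℂ := ![0, β * ((1 + (t : ℂ) * t) / 2)] with hz
  have hzm : z ∈ Om ρ := mem_zpt h hβ ht0 ht1
  have h2 : 0 < 1 - t ^ 2 := by nlinarith
  have key := kob_harnack (v := fun y : Fin 2 → ℂ => 1 - (starRingEnd ℂ) β * y 1)
    h.dom.op h.dom.cvx (by fun_prop) (fun x hx => ?_) hzm (zero_mem_Om h)
  · have e1 : (1 - (starRingEnd ℂ) β * (0 : Fin 2 → ℂ) 1).re = 1 := by simp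
    have e2 : (1 - (starRingEnd ℂ) β * z 1).re = (1 - t ^ 2) / 2 := by
      have : z 1 = β * ((1 + (t : ℂ) * t) / 2) := rfl
      rw [this, ← mul_assoc, mul_comm ((starRingEnd ℂ) β) β, Complex.mul_conj, Complex.normSq_eq_norm_sq,
        hβ]
      have : (1 - ((1 ^ 2 : ℝ) : ℂ) * ((1 + (t : ℂ) * t) / 2)) = (((1 - t ^ 2) / 2 : ℝ) : ℂ) := by
        push_cast; ring
      rw [this, Complex.ofReal_re]
    rw [e1, e2, kob_comm] at key
    have h3 : 2 / (1 - t ^ 2) ≤ Real.exp (2 * kob (Om ρ) 0 z) := by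
      rw [div_le_iff₀ h2]
      linarith
    have h4 := Real.log_le_log (by positivity) h3
    rw [Real.log_exp] at h4
    linarith
  · have h3 : ‖(starRingEnd ℂ) β * x 1‖ < 1 := by
      rw [norm_mul, RCLike.norm_conj, hβ, one_mul]
      exact hx.1
    have h4 := (abs_le.1 (Complex.abs_re_le_norm ((starRingEnd ℂ) β * x 1))).2
    change 0 ≤ (1 - (starRingEnd ℂ) β * x 1).re
    rw [Complex.sub_re, Complex.one_re]
    linarith

theorem pd_upper {t : ℝ} (ht0 : 0 < t) (ht1 : t < 1) :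
    pd t ≤ Real.log (4 / (1 - t ^ 2)) / 2 := by
  unfold pd
  have h1 : 0 < 1 - t := by linarith
  have h2 : 0 < 1 - t ^ 2 := by nlinarith
  have : Real.log ((1 + t) / (1 - t)) ≤ Real.log (4 / (1 - t ^ 2)) := by
    refine Real.log_le_log (by positivity) ?_
    rw [div_le_div_iff₀ h1 h2]
    nlinarith
  linarith

theorem tendsto_logL {t : ℕ → ℝ} (ht0 : ∀ n, 0 < t n) (ht1 : ∀ n, t n < 1)
    (ht : Tendsto t atTop (𝓝 1)) : Tendsto (fun n => -Real.log (1 - t n ^ 2)) atTop atTop := by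
  refine tendsto_neg_atBot_atTop.comp ?_
  refine Real.tendsto_log_nhdsGT_zero.comp ?_
  rw [tendsto_nhdsWithin_iff]
  refine ⟨?_, Eventually.of_forall fun n => ?_⟩
  · have := (ht.pow 2).const_sub 1
    simpa using this
  · have := ht0 n
    have := ht1 n
    change 0 < 1 - t n ^ 2
    nlinarith

theorem tendsto_Psi {β : ℕ → ℂ} {t : ℕ → ℝ} (hβ1 : Tendsto β atTop (𝓝 1))
    (ht0 : ∀ n, 0 < t n) (ht1 : ∀ n, t n < 1)
    (ht : Tendsto t atTop (𝓝 1)) (σ : ℝ) {w : ℝ} (hw1 : w < 1) :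
    Tendsto (fun n => Psi σ (β n) (t n) (w : ℂ)) atTop (𝓝 (xpt σ w)) := by
  have htC : Tendsto (fun n => ((t n : ℝ) : ℂ)) atTop (𝓝 1) := by
    have := (Complex.continuous_ofReal.tendsto 1).comp ht
    rw [Complex.ofReal_one] at this
    exact this
  rw [tendsto_pi_nhds]
  intro i
  fin_cases i
  · change Tendsto (fun n => Psi σ (β n) (t n) (w : ℂ) 0) atTop (𝓝 ((σ / 2 : ℝ) : ℂ))
    simp only [Psi_zero]
    have h1 : Tendsto (fun n => Complex.log (1 - (t n : ℂ) * w)) atTop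
        (𝓝 (Complex.log (1 - (1 : ℂ) * w))) := by
      have hc : ContinuousAt Complex.log (1 - (1 : ℂ) * w) := by
        refine continuousAt_clog (Or.inl ?_)
        simp
        exact hw1
      exact hc.tendsto.comp ((htC.mul_const _).const_sub 1)
    have h2 : Tendsto (fun n => ((2 * (-Real.log (1 - t n ^ 2)) : ℝ) : ℂ)⁻¹) atTop (𝓝 0) := by
      have h3 : Tendsto (fun n => (2 * (-Real.log (1 - t n ^ 2)))⁻¹) atTop (𝓝 0) :=
        ((tendsto_logL ht0 ht1 ht).const_mul_atTop (by norm_num : (0 : ℝ) < 2)).inv_tendsto_atTop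
      have := (Complex.continuous_ofReal.tendsto 0).comp h3
      rw [Complex.ofReal_zero] at this
      refine this.congr fun n => ?_
      simp only [Function.comp_apply, Complex.ofReal_inv]
    have h4 := ((h1.mul h2).const_add (1 / 2 : ℂ)).const_mul (σ : ℂ)
    have e : (σ : ℂ) * (1 / 2 + Complex.log (1 - (1 : ℂ) * w) * 0) = ((σ / 2 : ℝ) : ℂ) := by
      push_cast; ring
    rw [e] at h4
    exact h4
  · change Tendsto (fun n => Psi σ (β n) (t n) (w : ℂ) 1) atTop (𝓝 (((1 + w) / 2 : ℝ) : ℂ))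
    simp only [Psi_one]
    have h4 := hβ1.mul (((htC.mul_const (w : ℂ)).const_add 1).div_const 2)
    have e : (1 : ℂ) * ((1 + 1 * (w : ℂ)) / 2) = (((1 + w) / 2 : ℝ) : ℂ) := by
      push_cast; ring
    rw [e] at h4
    exact h4

theorem xpt_horo (h : Room ρ M) {β : ℕ → ℂ} {t : ℕ → ℝ} (hβ : ∀ n, ‖β n‖ = 1)
    (hβ1 : Tendsto β atTop (𝓝 1)) (ht0 : ∀ n, 0 < t n) (ht1 : ∀ n, t n < 1)
    (ht : Tendsto t atTop (𝓝 1))
    (hl : ∀ n, ∀ w ∈ ball (0 : ℂ) 1, Real.pi / 4 < ρ (β n * ((1 + (t n : ℂ) * w) / 2)) *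
      (-Real.log (1 - t n ^ 2))) {σ : ℝ} (hσ : |σ| = 1) {w : ℝ} (hw0 : 1 / 2 ≤ w) (hw1 : w < 1) :
    xpt σ w ∈ horosphere (Om ρ) 0 (fun n => ![0, β n * ((1 + (t n : ℂ) * t n) / 2)]) 1 := by
  have hx : xpt σ w ∈ Om ρ := xpt_mem h hσ (by linarith) hw1
  refine ⟨hx, ?_⟩
  set c : ℝ := (Real.log 3 - Real.log 2) / 4 with hc
  have hcpos : 0 < c := by
    have := Real.log_lt_log (by norm_num : (0 : ℝ) < 2) (by norm_num : (2 : ℝ) < 3)
    rw [hc]; linarith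
  have hev : ∀ᶠ n in atTop, kob (Om ρ) (xpt σ w) (![0, β n * ((1 + (t n : ℂ) * t n) / 2)]) -
      kob (Om ρ) 0 (![0, β n * ((1 + (t n : ℂ) * t n) / 2)]) ≤ -c := by
    have hT := tendsto_Psi hβ1 ht0 ht1 ht σ hw1
    have hE1 : ∀ᶠ n in atTop, 1 ≤ -Real.log (1 - t n ^ 2) :=
      (tendsto_logL ht0 ht1 ht).eventually_ge_atTop 1
    have hE2 : ∀ᶠ n in atTop, w ≤ t n := ht.eventually (eventually_ge_nhds hw1)
    have hwb : (w : ℂ) ∈ ball (0 : ℂ) 1 := by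
      rw [mem_ball_zero_iff, Complex.norm_real, Real.norm_eq_abs, abs_of_nonneg (by linarith)]
      exact hw1
    have hE3 : ∀ᶠ n in atTop, kob (Om ρ) (xpt σ w) (Psi σ (β n) (t n) (w : ℂ)) < c := by
      have hcont := kob_continuousOn h.dom (xpt σ w, xpt σ w) ⟨hx, hx⟩
      have hT2 : Tendsto (fun n => (xpt σ w, Psi σ (β n) (t n) (w : ℂ))) atTop
          (𝓝[Om ρ ×ˢ Om ρ] (xpt σ w, xpt σ w)) := by
        rw [tendsto_nhdsWithin_iff]
        refine ⟨tendsto_const_nhds.prodMk_nhds hT, ?_⟩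
        filter_upwards [hE1] with n hn
        exact ⟨hx, (isDisc_Psi h hσ (hβ n) (ht0 n) (ht1 n) hn (hl n)).2 hwb⟩
      have h3 := hcont.tendsto.comp hT2
      simp only [kob_self hx] at h3
      exact h3.eventually (gt_mem_nhds hcpos)
    filter_upwards [hE1, hE2, hE3] with n h1 h2 h3
    have hd := isDisc_Psi h hσ (hβ n) (ht0 n) (ht1 n) h1 (hl n)
    have hs := Psi_self (σ := σ) (β := β n) (ht0 n) (ht1 n)
    have k1 := kob_le_disc' hd (by linarith : (0 : ℝ) ≤ w) h2 (ht1 n)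
    rw [hs] at k1
    have k2 := kob_triangle h.dom.op h.dom.cvx hx (hd.2 hwb) (mem_zpt h (hβ n) (ht0 n) (ht1 n))
    have k3 := kob_zero_lower h (hβ n) (ht0 n) (ht1 n)
    have k4 := pd_upper (ht0 n) (ht1 n)
    have k5 : pd (1 / 2) ≤ pd w := pd_mono (by norm_num) hw0 hw1
    have k6 : pd (1 / 2) = Real.log 3 / 2 := by unfold pd; norm_num
    have hpos : 0 < 1 - t n ^ 2 := by
      have := ht0 n
      have := ht1 n
      nlinarith
    have k7 : Real.log (4 / (1 - t n ^ 2)) = Real.log 2 + Real.log (2 / (1 - t n ^ 2)) := by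
      rw [← Real.log_mul (by norm_num) (by positivity)]
      congr 1; ring
    have : c = (Real.log 3 - Real.log 2) / 4 := hc
    linarith
  have hlim : limsup (fun n => ((kob (Om ρ) (xpt σ w) (![0, β n * ((1 + (t n : ℂ) * t n) / 2)]) -
      kob (Om ρ) 0 (![0, β n * ((1 + (t n : ℂ) * t n) / 2)]) : ℝ) : EReal)) atTop ≤
      ((-c : ℝ) : EReal) := by
    refine limsup_le_of_le (h := ?_)
    filter_upwards [hev] with n hn
    exact EReal.coe_le_coe_iff.2 hn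
  refine lt_of_le_of_lt hlim ?_
  rw [EReal.coe_lt_coe_iff, Real.log_one]
  linarith

/-- a sequential horosphere whose closure contains two points of the boundary -/
theorem Room.two_points (h : Room ρ M) {β : ℕ → ℂ} {t : ℕ → ℝ} (hβ : ∀ n, ‖β n‖ = 1)
    (hβ1 : Tendsto β atTop (𝓝 1)) (ht0 : ∀ n, 0 < t n) (ht1 : ∀ n, t n < 1)
    (ht : Tendsto t atTop (𝓝 1))
    (hl : ∀ n, ∀ w ∈ ball (0 : ℂ) 1, Real.pi / 4 < ρ (β n * ((1 + (t n : ℂ) * w) / 2)) *
      (-Real.log (1 - t n ^ 2))) :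
    ∃ z₀ ∈ Om ρ, ∃ z : ℕ → Fin 2 → ℂ, (∀ n, z n ∈ Om ρ) ∧
      ∃ p ∈ frontier (Om ρ), Tendsto z atTop (𝓝 p) ∧ ∃ R : ℝ, 0 < R ∧
      ∃ q₁ ∈ closure (horosphere (Om ρ) z₀ z R) ∩ frontier (Om ρ),
      ∃ q₂ ∈ closure (horosphere (Om ρ) z₀ z R) ∩ frontier (Om ρ), q₁ ≠ q₂ := by
  set z : ℕ → Fin 2 → ℂ := fun n => ![0, β n * ((1 + (t n : ℂ) * t n) / 2)] with hz
  have hzm : ∀ n, z n ∈ Om ρ := fun n => mem_zpt h (hβ n) (ht0 n) (ht1 n)
  have htC : Tendsto (fun n => ((t n : ℝ) : ℂ)) atTop (𝓝 1) := by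
    have := (Complex.continuous_ofReal.tendsto 1).comp ht
    rw [Complex.ofReal_one] at this
    exact this
  have hlim : Tendsto z atTop (𝓝 ![0, 1]) := by
    rw [tendsto_pi_nhds]
    intro i
    fin_cases i
    · change Tendsto (fun n : ℕ => (0 : ℂ)) atTop (𝓝 0)
      exact tendsto_const_nhds
    · change Tendsto (fun n : ℕ => β n * ((1 + (t n : ℂ) * t n) / 2)) atTop (𝓝 1)
      have h4 := hβ1.mul (((htC.mul htC).const_add 1).div_const 2)
      have e : (1 : ℂ) * ((1 + 1 * 1) / 2) = 1 := by norm_num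
      rw [e] at h4
      exact h4
  have hfr : ∀ (p : Fin 2 → ℂ) (y : ℕ → Fin 2 → ℂ), (∀ n, y n ∈ Om ρ) → Tendsto y atTop (𝓝 p) →
      ‖p 1‖ = 1 → p ∈ frontier (Om ρ) := by
    intro p y hy hp h1
    rw [h.dom.op.frontier_eq]
    refine ⟨mem_closure_of_tendsto hp (Eventually.of_forall hy), fun hc => ?_⟩
    have := hc.1
    linarith
  have hp : (![0, 1] : Fin 2 → ℂ) ∈ frontier (Om ρ) := hfr _ z hzm hlim (by simp)
  have hw : ∀ k : ℕ, (1 : ℝ) / 2 ≤ 1 - 1 / (k + 2) ∧ 1 - 1 / ((k : ℝ) + 2) < 1 := by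
    intro k
    have h1 : (0 : ℝ) < (k : ℝ) + 2 := by positivity
    constructor
    · have : 1 / ((k : ℝ) + 2) ≤ 1 / 2 := by
        apply one_div_le_one_div_of_le (by norm_num)
        have : (0 : ℝ) ≤ k := Nat.cast_nonneg k
        linarith
      linarith
    · have : 0 < 1 / ((k : ℝ) + 2) := by positivity
      linarith
  have hwlim : Tendsto (fun k : ℕ => 1 - 1 / ((k : ℝ) + 2)) atTop (𝓝 1) := by
    have h1 : Tendsto (fun k : ℕ => 1 / ((k : ℝ) + 2)) atTop (𝓝 0) := by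
      have := tendsto_atTop_add_const_right atTop (2 : ℝ) (tendsto_natCast_atTop_atTop (R := ℝ))
      have h2 := this.inv_tendsto_atTop
      refine h2.congr fun n => ?_
      simp
    have := h1.const_sub 1
    simpa using this
  have hmem : ∀ σ : ℝ, |σ| = 1 → (![((σ / 2 : ℝ) : ℂ), 1] : Fin 2 → ℂ) ∈
      closure (horosphere (Om ρ) 0 z 1) ∩ frontier (Om ρ) := by
    intro σ hσ
    have hT : Tendsto (fun k : ℕ => xpt σ (1 - 1 / ((k : ℝ) + 2))) atTop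
        (𝓝 ![((σ / 2 : ℝ) : ℂ), 1]) := by
      rw [tendsto_pi_nhds]
      intro i
      fin_cases i
      · change Tendsto (fun n : ℕ => ((σ / 2 : ℝ) : ℂ)) atTop (𝓝 ((σ / 2 : ℝ) : ℂ))
        exact tendsto_const_nhds
      · change Tendsto (fun k : ℕ => (((1 + (1 - 1 / ((k : ℝ) + 2))) / 2 : ℝ) : ℂ)) atTop (𝓝 1)
        have h1 := (hwlim.const_add 1).div_const 2
        have h2 := (Complex.continuous_ofReal.tendsto _).comp h1
        have e : (((1 + 1) / 2 : ℝ) : ℂ) = 1 := by push_cast; norm_num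
        rw [e] at h2
        exact h2
    refine ⟨mem_closure_of_tendsto hT (Eventually.of_forall fun k =>
      xpt_horo h hβ hβ1 ht0 ht1 ht hl hσ (hw k).1 (hw k).2), ?_⟩
    exact hfr _ _ (fun k => xpt_mem h hσ (by linarith [(hw k).1]) (hw k).2) hT (by simp)
  refine ⟨0, zero_mem_Om h, z, hzm, _, hp, hlim, 1, one_pos, _, hmem 1 (by simp), _,
    hmem (-1) (by simp), fun e => ?_⟩
  have e3 := congrFun e 0
  have e4 : (((1 : ℝ) / 2 : ℝ) : ℂ) = (((-1 : ℝ) / 2 : ℝ) : ℂ) := e3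
  rw [Complex.ofReal_inj] at e4
  norm_num at e4

/-- two points in the closure of a horosphere contradict property (H) -/
theorem not_propertyH_of_two_points {Ω : Set (Fin 2 → ℂ)}
    (h : ∃ z₀ ∈ Ω, ∃ z : ℕ → Fin 2 → ℂ, (∀ n, z n ∈ Ω) ∧
      ∃ p ∈ frontier Ω, Tendsto z atTop (𝓝 p) ∧ ∃ R : ℝ, 0 < R ∧
      ∃ q₁ ∈ closure (horosphere Ω z₀ z R) ∩ frontier Ω,
      ∃ q₂ ∈ closure (horosphere Ω z₀ z R) ∩ frontier Ω, q₁ ≠ q₂) : ¬ PropertyH Ω := by
  obtain ⟨z₀, hz₀, z, hz, p, hp, hlim, R, hR, q₁, hq₁, q₂, hq₂, hne⟩ := h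
  intro hH
  have hn : (horosphere Ω z₀ z R).Nonempty := closure_nonempty_iff.1 ⟨q₁, hq₁.1⟩
  obtain ⟨q, -, hu⟩ := hH z₀ hz₀ z hz p hp hlim R hR hn
  exact hne ((hu _ hq₁).trans (hu _ hq₂).symm)

theorem Room.not_propertyH (h : Room ρ M) {β : ℕ → ℂ} {t : ℕ → ℝ} (hβ : ∀ n, ‖β n‖ = 1)
    (hβ1 : Tendsto β atTop (𝓝 1)) (ht0 : ∀ n, 0 < t n) (ht1 : ∀ n, t n < 1)
    (ht : Tendsto t atTop (𝓝 1))
    (hl : ∀ n, ∀ w ∈ ball (0 : ℂ) 1, Real.pi / 4 < ρ (β n * ((1 + (t n : ℂ) * w) / 2)) *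
      (-Real.log (1 - t n ^ 2))) : ¬ PropertyH (Om ρ) :=
  not_propertyH_of_two_points (h.two_points hβ hβ1 ht0 ht1 ht hl)

end

end Pool.Agent.DWH
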