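import Pool.Agent.DWH.Defs

/-!
# Module HalfPlane: Schwarz lemma for functions with non-negative real part
-/

open Set Filter Topology Metric

namespace Pool.Agent.DWH

noncomputable section

namespace HalfPlane

theorem normSq_add_conj (z c : ℂ) : ‖z + (starRingEnd ℂ) c‖ ^ 2 = ‖z - c‖ ^ 2 + 4 * z.re * c.re := by
  rw [← Complex.normSq_eq_norm_sq, ← Complex.normSq_eq_norm_sq, Complex.normSq_apply,
    Complex.normSq_apply]
  simp only [Complex.add_re, Complex.add_im, Complex.sub_re, Complex.sub_im, Complex.conj_re,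
    Complex.conj_im]
  ring

/-- strict positivity -/
theorem key_pos {V : ℂ → ℂ} (hV : DifferentiableOn ℂ V (ball 0 1))
    (hpos : ∀ w ∈ ball (0 : ℂ) 1, 0 < (V w).re) {w : ℂ} (hw : w ∈ ball (0 : ℂ) 1) :
    ‖V w - V 0‖ ≤ ‖w‖ * ‖V w + (starRingEnd ℂ) (V 0)‖ := by
  have h0 : (0 : ℂ) ∈ ball (0 : ℂ) 1 := mem_ball_self one_pos
  have hne : ∀ z ∈ ball (0 : ℂ) 1, V z + (starRingEnd ℂ) (V 0) ≠ 0 := by
    intro z hz h
    have := congrArg Complex.re h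
    simp only [Complex.add_re, Complex.conj_re, Complex.zero_re] at this
    linarith [hpos z hz, hpos 0 h0]
  set g : ℂ → ℂ := fun z => (V z - V 0) / (V z + (starRingEnd ℂ) (V 0)) with hg
  have hgd : DifferentiableOn ℂ g (ball 0 1) :=
    (hV.sub_const _).div (hV.add_const _) hne
  have hgm : MapsTo g (ball 0 1) (closedBall 0 1) := by
    intro z hz
    rw [mem_closedBall_zero_iff, hg]
    simp only [norm_div]
    rw [div_le_one (norm_pos_iff.2 (hne z hz))]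
    have h1 := normSq_add_conj (V z) (V 0)
    have h2 := mul_pos (hpos z hz) (hpos 0 h0)
    apply le_of_sq_le_sq _ (norm_nonneg _)
    nlinarith
  have hg0 : g 0 = 0 := by simp [hg]
  have := Complex.norm_le_norm_of_mapsTo_ball hgd hgm hg0 (mem_ball_zero_iff.1 hw)
  rw [hg] at this
  simp only [norm_div] at this
  rwa [div_le_iff₀ (norm_pos_iff.2 (hne w hw))] at this

theorem key {U : ℂ → ℂ} (hU : DifferentiableOn ℂ U (ball 0 1))
    (hpos : ∀ w ∈ ball (0 : ℂ) 1, 0 ≤ (U w).re) {w : ℂ} (hw : w ∈ ball (0 : ℂ) 1) :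
    ‖U w - U 0‖ ≤ ‖w‖ * ‖U w + (starRingEnd ℂ) (U 0)‖ := by
  apply le_of_forall_pos_le_add
  intro e he
  have h1 := key_pos (V := fun z => U z + ((e / 2 : ℝ) : ℂ)) (hU.add_const _) (by
    intro z hz
    simp only [Complex.add_re, Complex.ofReal_re]
    linarith [hpos z hz]) hw
  simp only [add_sub_add_right_eq_sub, map_add, Complex.conj_ofReal] at h1
  have h2 : U w + ((e / 2 : ℝ) : ℂ) + ((starRingEnd ℂ) (U 0) + ((e / 2 : ℝ) : ℂ)) =
      (U w + (starRingEnd ℂ) (U 0)) + ((e : ℝ) : ℂ) := by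
    push_cast
    ring
  rw [h2] at h1
  have h3 := norm_add_le (U w + (starRingEnd ℂ) (U 0)) ((e : ℝ) : ℂ)
  rw [Complex.norm_real, Real.norm_eq_abs, abs_of_pos he] at h3
  have h4 : ‖w‖ < 1 := mem_ball_zero_iff.1 hw
  have h5 := norm_nonneg w
  calc _ ≤ _ := h1
    _ ≤ ‖w‖ * (‖U w + (starRingEnd ℂ) (U 0)‖ + e) := by gcongr
    _ ≤ _ := by nlinarith

theorem quad {U : ℂ → ℂ} (hU : DifferentiableOn ℂ U (ball 0 1))
    (hpos : ∀ w ∈ ball (0 : ℂ) 1, 0 ≤ (U w).re) {w : ℂ} (hw : w ∈ ball (0 : ℂ) 1) :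
    ((U w).re - (1 - ‖w‖) / (1 + ‖w‖) * (U 0).re) * ((U w).re - (1 + ‖w‖) / (1 - ‖w‖) * (U 0).re)
      ≤ 0 := by
  have h4 : ‖w‖ < 1 := mem_ball_zero_iff.1 hw
  have h5 := norm_nonneg w
  have h1 := key hU hpos hw
  have h2 := normSq_add_conj (U w) (U 0)
  have h3 : ((U w).re - (U 0).re) ^ 2 ≤ ‖U w - U 0‖ ^ 2 := by
    have := Complex.abs_re_le_norm (U w - U 0)
    rw [Complex.sub_re] at this
    rw [← sq_abs]
    gcongr
  have h6 : ‖U w - U 0‖ ^ 2 ≤ ‖w‖ ^ 2 * (‖U w - U 0‖ ^ 2 + 4 * (U w).re * (U 0).re) := by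
    rw [← h2, ← mul_pow]
    gcongr
  set r := ‖w‖
  set a := (U 0).re
  set b := (U w).re
  have e : (b - (1 - r) / (1 + r) * a) * (b - (1 + r) / (1 - r) * a) =
      ((1 - r ^ 2) * (b - a) ^ 2 - 4 * r ^ 2 * (a * b)) / (1 - r ^ 2) := by
    have p1 : (1 + r) ≠ 0 := by linarith
    have p2 : (1 - r) ≠ 0 := by linarith
    have p3 : (1 - r ^ 2) ≠ 0 := by
      have : (1 - r ^ 2) = (1 - r) * (1 + r) := by ring
      rw [this]
      exact mul_ne_zero p2 p1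
    field_simp
    ring
  rw [e]
  have hr : 0 < 1 - r ^ 2 := by nlinarith
  apply div_nonpos_of_nonpos_of_nonneg _ hr.le
  nlinarith [mul_le_mul_of_nonneg_left h3 hr.le]

theorem roots_le {r a : ℝ} (h0 : 0 ≤ r) (h1 : r < 1) (ha : 0 ≤ a) :
    (1 - r) / (1 + r) * a ≤ (1 + r) / (1 - r) * a := by
  apply mul_le_mul_of_nonneg_right _ ha
  rw [div_le_div_iff₀ (by linarith) (by linarith)]
  nlinarith

end HalfPlane

open HalfPlane

theorem hp_dist {U : ℂ → ℂ} (hU : DifferentiableOn ℂ U (ball 0 1))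
    (hpos : ∀ w ∈ ball (0 : ℂ) 1, 0 ≤ (U w).re) {w : ℂ} (hw : w ∈ ball (0 : ℂ) 1) :
    ‖U w - U 0‖ ≤ 2 * ‖w‖ / (1 - ‖w‖) * (U 0).re := by
  have h4 : ‖w‖ < 1 := mem_ball_zero_iff.1 hw
  have h5 := norm_nonneg w
  have h1 := key hU hpos hw
  have h0 := hpos 0 (mem_ball_self one_pos)
  have h2 : ‖U w + (starRingEnd ℂ) (U 0)‖ ≤ ‖U w - U 0‖ + 2 * (U 0).re := by
    have e : U w + (starRingEnd ℂ) (U 0) = (U w - U 0) + ((2 * (U 0).re : ℝ) : ℂ) := by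
      rw [← Complex.add_conj]
      ring
    rw [e]
    refine (norm_add_le _ _).trans ?_
    rw [Complex.norm_real, Real.norm_eq_abs, abs_of_nonneg (by linarith)]
  rw [div_mul_eq_mul_div, le_div_iff₀ (by linarith)]
  nlinarith

theorem hp_re_le {U : ℂ → ℂ} (hU : DifferentiableOn ℂ U (ball 0 1))
    (hpos : ∀ w ∈ ball (0 : ℂ) 1, 0 ≤ (U w).re) {w : ℂ} (hw : w ∈ ball (0 : ℂ) 1) :
    (U w).re ≤ (1 + ‖w‖) / (1 - ‖w‖) * (U 0).re := by
  have h4 : ‖w‖ < 1 := mem_ball_zero_iff.1 hw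
  have h1 := quad hU hpos hw
  have h2 := roots_le (norm_nonneg w) h4 (hpos 0 (mem_ball_self one_pos))
  by_contra hcon
  rw [not_le] at hcon
  have := mul_pos (by linarith : 0 < (U w).re - (1 - ‖w‖) / (1 + ‖w‖) * (U 0).re)
    (by linarith : 0 < (U w).re - (1 + ‖w‖) / (1 - ‖w‖) * (U 0).re)
  linarith

theorem hp_le_re {U : ℂ → ℂ} (hU : DifferentiableOn ℂ U (ball 0 1))
    (hpos : ∀ w ∈ ball (0 : ℂ) 1, 0 ≤ (U w).re) {w : ℂ} (hw : w ∈ ball (0 : ℂ) 1) :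
    (1 - ‖w‖) / (1 + ‖w‖) * (U 0).re ≤ (U w).re := by
  have h4 : ‖w‖ < 1 := mem_ball_zero_iff.1 hw
  have h1 := quad hU hpos hw
  have h2 := roots_le (norm_nonneg w) h4 (hpos 0 (mem_ball_self one_pos))
  by_contra hcon
  rw [not_le] at hcon
  have := mul_pos_of_neg_of_neg (by linarith : (U w).re - (1 - ‖w‖) / (1 + ‖w‖) * (U 0).re < 0)
    (by linarith : (U w).re - (1 + ‖w‖) / (1 - ‖w‖) * (U 0).re < 0)
  linarith

/-- Schwarz lemma on the disc of radius `1/2` -/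
theorem schwarz_half {g : ℂ → ℂ} (hg : DifferentiableOn ℂ g (ball 0 1)) {M : ℝ}
    (hM : ∀ w : ℂ, ‖w‖ < 1 / 2 → ‖g w - g 0‖ ≤ M) {w : ℂ} (hw : ‖w‖ < 1 / 2) :
    ‖g w - g 0‖ ≤ 2 * ‖w‖ * M := by
  have hsub : ball (0 : ℂ) (1 / 2) ⊆ ball 0 1 := ball_subset_ball (by norm_num)
  have hm : MapsTo g (ball (0 : ℂ) (1 / 2)) (closedBall (g 0) M) := by
    intro z hz
    rw [mem_closedBall, dist_eq_norm]
    exact hM z (mem_ball_zero_iff.1 hz)
  have := Complex.dist_le_div_mul_dist_of_mapsTo_ball (hg.mono hsub) hm (mem_ball_zero_iff.2 hw)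
  rw [dist_eq_norm, dist_zero_right] at this
  refine this.trans (le_of_eq ?_)
  ring

end

end Pool.Agent.DWH
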