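import Pool.Agent.DWH.RoomEx
import Pool.Agent.DWH.HFails
import Pool.Agent.DWH.DW

/-!
# The counterexample
-/

open Set Filter Topology Metric

namespace Pool.Agent.DWH

noncomputable section

theorem tendsto_epsEx : Tendsto epsEx atTop (𝓝 0) := by
  have h1 : Tendsto (fun n : ℕ => (2 : ℝ) ^ (n + 1)) atTop atTop :=
    (tendsto_pow_atTop_atTop_of_one_lt (by norm_num : (1 : ℝ) < 2)).comp (tendsto_add_atTop_nat 1)
  have h2 := (Real.tendsto_exp_neg_atTop_nhds_zero.comp h1).div_const 4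
  rw [zero_div] at h2
  exact h2

/-- the explicit domain has the Denjoy-Wolff property, no analytic discs in the boundary, and a
sequential horosphere whose closure contains two boundary points -/
theorem main : ∃ Ω : Set (Fin 2 → ℂ), IsOpen Ω ∧ Convex ℝ Ω ∧ Bornology.IsBounded Ω ∧
    Ω.Nonempty ∧ NoDisc (frontier Ω) ∧ DenjoyWolff Ω ∧ ¬ PropertyH Ω ∧
    ∃ z₀ ∈ Ω, ∃ z : ℕ → Fin 2 → ℂ, (∀ n, z n ∈ Ω) ∧
      ∃ p ∈ frontier Ω, Tendsto z atTop (𝓝 p) ∧ ∃ R : ℝ, 0 < R ∧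
      ∃ q₁ ∈ closure (horosphere Ω z₀ z R) ∩ frontier Ω,
      ∃ q₂ ∈ closure (horosphere Ω z₀ z R) ∩ frontier Ω, q₁ ≠ q₂ := by
  have h := room_rhoEx
  have ht : Tendsto (fun n => 1 - 2 * epsEx n) atTop (𝓝 1) := by
    have := (tendsto_epsEx.const_mul 2).const_sub 1
    simpa using this
  have h2 := h.two_points (β := betaEx) (t := fun n => 1 - 2 * epsEx n) norm_betaEx tendsto_betaEx
    (fun n => by have := epsEx_le n; linarith) (fun n => by have := epsEx_pos n; linarith) ht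
    (fun n w hw => rhoEx_lower n hw)
  exact ⟨Om rhoEx, h.dom.op, h.dom.cvx, h.dom.bdd, ⟨0, zero_mem_Om h⟩, h.noDisc, h.denjoyWolff,
    not_propertyH_of_two_points h2, h2⟩

end

end Pool.Agent.DWH
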