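import Pool.Agent.DWH.Convex

/-!
# Module Room: the domains `Om ρ`
-/

open Set Filter Topology Metric

namespace Pool.Agent.DWH

noncomputable section

/-- a room function: strongly concave, positive, bounded, vanishing at the unit circle, Lipschitz at
each point of the unit circle (the constant depends on the point). -/
structure Room (ρ : ℂ → ℝ) (M : ℝ) : Prop where
  pos : ∀ b ∈ ball (0 : ℂ) 1, 0 < ρ b
  le : ∀ b ∈ ball (0 : ℂ) 1, ρ b ≤ M
  cont : ContinuousOn ρ (ball 0 1)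
  sg : ∀ p ∈ ball (0 : ℂ) 1, ∃ a : ℂ, ∀ b ∈ ball (0 : ℂ) 1,
    ρ b ≤ ρ p + (a * (b - p)).re - ‖b - p‖ ^ 2
  van : ∀ ε > 0, ∃ η > 0, ∀ b ∈ ball (0 : ℂ) 1, 1 - ‖b‖ < η → ρ b < ε
  lip : ∀ β : ℂ, ‖β‖ = 1 → ∃ C > 0, ∀ b ∈ ball (0 : ℂ) 1, ρ b ≤ C * ‖b - β‖

/-- the domain; `z 0 = ζ`, `z 1 = b` -/
def Om (ρ : ℂ → ℝ) : Set (Fin 2 → ℂ) :=
  {z | ‖z 1‖ < 1 ∧ |(z 0).im| < ρ (z 1) ∧ |(z 0).re| < 1 + ρ (z 1)}

/-- the four gaps: `k = 0, 1`: `ρ ∓ Im ζ`; `k = 2, 3`: `1 + ρ ∓ Re ζ`. -/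
def gk (k : Fin 4) : ℝ := if k.1 < 2 then 0 else 1

/-- `Re (uk k * ζ) = Im ζ, - Im ζ, Re ζ, - Re ζ` -/
def uk : Fin 4 → ℂ := ![-Complex.I, Complex.I, 1, -1]

def gap (ρ : ℂ → ℝ) (k : Fin 4) (z : Fin 2 → ℂ) : ℝ := gk k + ρ (z 1) - (uk k * z 0).re

theorem gap_zero {ρ : ℂ → ℝ} {z : Fin 2 → ℂ} : gap ρ 0 z = ρ (z 1) - (z 0).im := by
  simp [gap, gk, uk]

theorem gap_one {ρ : ℂ → ℝ} {z : Fin 2 → ℂ} : gap ρ 1 z = ρ (z 1) + (z 0).im := by
  simp [gap, gk, uk]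

theorem gap_two {ρ : ℂ → ℝ} {z : Fin 2 → ℂ} : gap ρ 2 z = 1 + ρ (z 1) - (z 0).re := by
  simp [gap, gk, uk]

theorem gap_three {ρ : ℂ → ℝ} {z : Fin 2 → ℂ} : gap ρ 3 z = 1 + ρ (z 1) + (z 0).re := by
  simp [gap, gk, uk]

theorem norm_uk (k : Fin 4) : ‖uk k‖ = 1 := by
  fin_cases k <;> simp [uk]

theorem mem_Om {ρ : ℂ → ℝ} {z : Fin 2 → ℂ} : z ∈ Om ρ ↔ ‖z 1‖ < 1 ∧ ∀ k, 0 < gap ρ k z := by
  constructor
  · rintro ⟨h1, h2, h3⟩
    refine ⟨h1, fun k => ?_⟩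
    rw [abs_lt] at h2 h3
    fin_cases k
    · show 0 < gap ρ 0 z
      rw [gap_zero]; linarith [h2.2]
    · show 0 < gap ρ 1 z
      rw [gap_one]; linarith [h2.1]
    · show 0 < gap ρ 2 z
      rw [gap_two]; linarith [h3.2]
    · show 0 < gap ρ 3 z
      rw [gap_three]; linarith [h3.1]
  · rintro ⟨h1, h2⟩
    have g0 := h2 0
    have g1 := h2 1
    have g2 := h2 2
    have g3 := h2 3
    rw [gap_zero] at g0
    rw [gap_one] at g1
    rw [gap_two] at g2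
    rw [gap_three] at g3
    refine ⟨h1, ?_, ?_⟩
    · rw [abs_lt]; constructor <;> linarith
    · rw [abs_lt]; constructor <;> linarith

variable {ρ : ℂ → ℝ} {M : ℝ}

/-- strong concavity -/
theorem Room.concave (h : Room ρ M) {b b' : ℂ} (hb : b ∈ ball (0 : ℂ) 1)
    (hb' : b' ∈ ball (0 : ℂ) 1) {s t : ℝ} (hs : 0 ≤ s) (ht : 0 ≤ t) (hst : s + t = 1) :
    s * ρ b + t * ρ b' + s * t * ‖b - b'‖ ^ 2 ≤ ρ (s • b + t • b') := by
  have hp : s • b + t • b' ∈ ball (0 : ℂ) 1 := (convex_ball (0 : ℂ) 1) hb hb' hs ht hst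
  obtain ⟨a, ha⟩ := h.sg _ hp
  have h1 := ha b hb
  have h2 := ha b' hb'
  have e1 : b - (s • b + t • b') = (t : ℂ) * (b - b') := by
    have h0 : (s : ℂ) + t = 1 := by rw [← Complex.ofReal_add, hst, Complex.ofReal_one]
    have : (s : ℂ) = 1 - t := by linear_combination h0
    simp only [Complex.real_smul]
    rw [this]; ring
  have e2 : b' - (s • b + t • b') = -((s : ℂ) * (b - b')) := by
    have h0 : (s : ℂ) + t = 1 := by rw [← Complex.ofReal_add, hst, Complex.ofReal_one]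
    have : (t : ℂ) = 1 - s := by linear_combination h0
    simp only [Complex.real_smul]
    rw [this]; ring
  rw [e1] at h1
  rw [e2] at h2
  rw [norm_mul, Complex.norm_real, Real.norm_of_nonneg ht] at h1
  rw [norm_neg, norm_mul, Complex.norm_real, Real.norm_of_nonneg hs] at h2
  have r1 : (a * ((t : ℂ) * (b - b'))).re = t * (a * (b - b')).re := by
    rw [show a * ((t : ℂ) * (b - b')) = (t : ℂ) * (a * (b - b')) by ring, Complex.re_ofReal_mul]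
  have r2 : (a * -((s : ℂ) * (b - b'))).re = -(s * (a * (b - b')).re) := by
    rw [show a * -((s : ℂ) * (b - b')) = -((s : ℂ) * (a * (b - b'))) by ring, Complex.neg_re,
      Complex.re_ofReal_mul]
  rw [r1] at h1
  rw [r2] at h2
  have h3 := mul_le_mul_of_nonneg_left h1 hs
  have h4 := mul_le_mul_of_nonneg_left h2 ht
  have hs' : s = 1 - t := by linarith
  have key : s * ρ (s • b + t • b') + t * ρ (s • b + t • b') = ρ (s • b + t • b') := by
    rw [← add_mul, hst, one_mul]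
  have k2 : s * (t * ‖b - b'‖) ^ 2 + t * (s * ‖b - b'‖) ^ 2 = s * t * ‖b - b'‖ ^ 2 := by
    rw [hs']; ring
  nlinarith [h3, h4, key, k2]

theorem Room.M_pos (h : Room ρ M) : 0 < M := by
  have h0 : (0 : ℂ) ∈ ball (0 : ℂ) 1 := by simp
  exact lt_of_lt_of_le (h.pos 0 h0) (h.le 0 h0)

theorem Room.norm_sg (h : Room ρ M) {p a : ℂ} (hp : p ∈ ball (0 : ℂ) 1)
    (ha : ∀ b ∈ ball (0 : ℂ) 1, ρ b ≤ ρ p + (a * (b - p)).re - ‖b - p‖ ^ 2) :
    ‖a‖ * (1 - ‖p‖) ≤ ρ p := by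
  have hp1 : ‖p‖ < 1 := by simpa using hp
  by_cases ha0 : a = 0
  · rw [ha0]; simpa using (h.pos p hp).le
  have han : 0 < ‖a‖ := norm_pos_iff.2 ha0
  have key : ∀ τ : ℝ, 0 < τ → τ < 1 → τ * (‖a‖ * (1 - ‖p‖)) ≤ ρ p := by
    intro τ h0 h1
    set v : ℂ := (starRingEnd ℂ a) / (‖a‖ : ℂ) with hv
    have hvn : ‖v‖ = 1 := by
      rw [hv, norm_div, RCLike.norm_conj, Complex.norm_real, Real.norm_of_nonneg han.le]
      exact div_self han.ne'
    have hav : a * v = (‖a‖ : ℂ) := by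
      rw [hv, mul_div_assoc', Complex.mul_conj, Complex.normSq_eq_norm_sq]
      push_cast
      field_simp
    set b : ℂ := p - ((τ * (1 - ‖p‖) : ℝ) : ℂ) * v with hb
    have hbn : b ∈ ball (0 : ℂ) 1 := by
      rw [mem_ball_zero_iff, hb]
      calc ‖p - ((τ * (1 - ‖p‖) : ℝ) : ℂ) * v‖ ≤ ‖p‖ + ‖((τ * (1 - ‖p‖) : ℝ) : ℂ) * v‖ := norm_sub_le _ _
        _ = ‖p‖ + τ * (1 - ‖p‖) := by
          rw [norm_mul, hvn, Complex.norm_real, Real.norm_of_nonneg (by nlinarith), mul_one]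
        _ < 1 := by nlinarith
    have h2 := ha b hbn
    have e1 : (a * (b - p)).re = -(τ * (1 - ‖p‖) * ‖a‖) := by
      have : a * (b - p) = ((-(τ * (1 - ‖p‖) * ‖a‖) : ℝ) : ℂ) := by
        rw [hb]
        have : a * (p - ((τ * (1 - ‖p‖) : ℝ) : ℂ) * v - p) = -(((τ * (1 - ‖p‖) : ℝ) : ℂ) * (a * v)) := by
          ring
        rw [this, hav]; push_cast; ring
      rw [this, Complex.ofReal_re]
    rw [e1] at h2
    have h3 := h.pos b hbn
    nlinarith [sq_nonneg ‖b - p‖]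
  have hlim : Tendsto (fun τ : ℝ => τ * (‖a‖ * (1 - ‖p‖))) (𝓝[<] 1) (𝓝 (1 * (‖a‖ * (1 - ‖p‖)))) := by
    refine Tendsto.mono_left ?_ nhdsWithin_le_nhds
    exact (continuous_id.mul continuous_const).tendsto 1
  rw [one_mul] at hlim
  refine le_of_tendsto hlim ?_
  have : Ioo (0 : ℝ) 1 ∈ 𝓝[<] (1 : ℝ) := Ioo_mem_nhdsLT (by norm_num)
  filter_upwards [this] with τ hτ
  exact key τ hτ.1 hτ.2

/-- the gap functions are continuous on the cylinder -/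
theorem Room.cont_gap (h : Room ρ M) (k : Fin 4) :
    ContinuousOn (gap ρ k) {z : Fin 2 → ℂ | ‖z 1‖ < 1} := by
  unfold gap
  refine ContinuousOn.sub (ContinuousOn.add continuousOn_const ?_) ?_
  · refine h.cont.comp (by fun_prop) ?_
    intro z hz
    simpa using hz
  · fun_prop

theorem gap_combo (h : Room ρ M) (k : Fin 4) {y z : Fin 2 → ℂ} (hy : ‖y 1‖ < 1) (hz : ‖z 1‖ < 1)
    {s t : ℝ} (hs : 0 ≤ s) (ht : 0 ≤ t) (hst : s + t = 1) :
    s * gap ρ k y + t * gap ρ k z + s * t * ‖y 1 - z 1‖ ^ 2 ≤ gap ρ k (s • y + t • z) := by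
  have h1 := h.concave (b := y 1) (b' := z 1) (by simpa using hy) (by simpa using hz) hs ht hst
  have e : (uk k * (s • y + t • z) 0).re = s * (uk k * y 0).re + t * (uk k * z 0).re := by
    have : uk k * (s • y + t • z) 0 = (s : ℂ) * (uk k * y 0) + (t : ℂ) * (uk k * z 0) := by
      simp only [Pi.add_apply, Pi.smul_apply, Complex.real_smul]; ring
    rw [this, Complex.add_re, Complex.re_ofReal_mul, Complex.re_ofReal_mul]
  have e' : (s • y + t • z) 1 = s • y 1 + t • z 1 := by simp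
  unfold gap
  rw [e, e']
  have : s * gk k + t * gk k = gk k := by rw [← add_mul, hst, one_mul]
  nlinarith

theorem isOpen_Om (h : Room ρ M) : IsOpen (Om ρ) := by
  have hU : IsOpen {z : Fin 2 → ℂ | ‖z 1‖ < 1} := isOpen_lt (by fun_prop) continuous_const
  have e : Om ρ = ⋂ k : Fin 4, ({z : Fin 2 → ℂ | ‖z 1‖ < 1} ∩ (gap ρ k) ⁻¹' (Ioi 0)) := by
    ext z
    rw [mem_Om]
    simp only [mem_iInter, mem_inter_iff, mem_preimage, mem_Ioi]
    constructor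
    · rintro ⟨h1, h2⟩ k
      exact ⟨h1, h2 k⟩
    · intro h1
      exact ⟨(h1 0).1, fun k => (h1 k).2⟩
  rw [e]
  refine isOpen_iInter_of_finite fun k => ?_
  exact (h.cont_gap k).isOpen_inter_preimage hU isOpen_Ioi

theorem Room.dom (h : Room ρ M) : Dom (Om ρ) := by
  refine ⟨isOpen_Om h, ?_, ?_, ?_⟩
  · intro y hy z hz s t hs ht hst
    rw [mem_Om] at hy hz ⊢
    have hn : ‖(s • y + t • z) 1‖ < 1 := by
      have : s • y 1 + t • z 1 ∈ ball (0 : ℂ) 1 :=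
        (convex_ball (0 : ℂ) 1) (by simpa using hy.1) (by simpa using hz.1) hs ht hst
      simpa using this
    refine ⟨hn, fun k => ?_⟩
    have h1 := gap_combo h k hy.1 hz.1 hs ht hst
    have h2 := hy.2 k
    have h3 := hz.2 k
    have h4 : 0 ≤ s * t * ‖y 1 - z 1‖ ^ 2 := by positivity
    rcases hs.lt_or_eq with hs' | hs'
    · have : 0 < s * gap ρ k y := mul_pos hs' h2
      have : 0 ≤ t * gap ρ k z := mul_nonneg ht h3.le
      linarith
    · have ht' : 0 < t := by linarith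
      have : 0 ≤ s * gap ρ k y := mul_nonneg hs h2.le
      have : 0 < t * gap ρ k z := mul_pos ht' h3
      linarith
  · rw [isBounded_iff_forall_norm_le]
    refine ⟨1 + 2 * M + 1, fun z hz => ?_⟩
    have hM := h.M_pos
    obtain ⟨h1, h2, h3⟩ := hz
    have h4 := h.le (z 1) (by simpa using h1)
    rw [pi_norm_le_iff_of_nonneg (by linarith)]
    intro i
    fin_cases i
    · show ‖z 0‖ ≤ _
      have := Complex.norm_le_abs_re_add_abs_im (z 0)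
      linarith
    · show ‖z 1‖ ≤ _
      linarith
  · refine ⟨![0, 1], ?_⟩
    rintro ⟨h1, -, -⟩
    simp at h1

/-- boundary distance and gaps -/
theorem Room.gap_mul_le (h : Room ρ M) {z : Fin 2 → ℂ} (hz : z ∈ Om ρ) :
    ∃ k, gap ρ k z * (1 - ‖z 1‖) ≤ (M + 1) * dlt (Om ρ) z := by
  by_contra hcon
  push Not at hcon
  have hM := h.M_pos
  have hz' := mem_Om.1 hz
  have hb : 0 < 1 - ‖z 1‖ := by linarith [hz'.1]
  have hb1 : 1 - ‖z 1‖ ≤ 1 := by linarith [norm_nonneg (z 1)]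
  set D := dlt (Om ρ) z with hD
  have hD0 : 0 ≤ D := infDist_nonneg
  -- a uniform delta
  obtain ⟨δ, hδ, hδk⟩ : ∃ δ > D, ∀ k, (M + 1) * δ < gap ρ k z * (1 - ‖z 1‖) := by
    have hev : ∀ k : Fin 4, ∀ᶠ δ in 𝓝[>] D, (M + 1) * δ < gap ρ k z * (1 - ‖z 1‖) := by
      intro k
      have h1 : Tendsto (fun δ : ℝ => (M + 1) * δ) (𝓝[>] D) (𝓝 ((M + 1) * D)) :=
        ((continuous_const.mul continuous_id).tendsto D).mono_left nhdsWithin_le_nhds
      exact h1.eventually_lt_const (hcon k)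
    have hev2 := eventually_all.2 hev
    obtain ⟨δ, h1, h2⟩ := (hev2.and self_mem_nhdsWithin).exists
    exact ⟨δ, h2, h1⟩
  have hδ0 : 0 < δ := lt_of_le_of_lt hD0 hδ
  have hδ1 : δ < 1 - ‖z 1‖ := by
    have h0 := hδk 0
    have h1 := hδk 1
    rw [gap_zero] at h0
    rw [gap_one] at h1
    have h2 := h.le (z 1) (by simpa using hz'.1)
    have h3 : (M + 1) * δ < ρ (z 1) * (1 - ‖z 1‖) := by linarith
    have h4 : ρ (z 1) * (1 - ‖z 1‖) ≤ M * (1 - ‖z 1‖) := mul_le_mul_of_nonneg_right h2 hb.le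
    nlinarith
  have hsub : ball z δ ⊆ Om ρ := by
    intro x hx
    rw [mem_ball, dist_eq_norm] at hx
    have hx0 : ‖x 0 - z 0‖ < δ := lt_of_le_of_lt (norm_le_pi_norm (x - z) 0) hx
    have hx1 : ‖x 1 - z 1‖ < δ := lt_of_le_of_lt (norm_le_pi_norm (x - z) 1) hx
    set τ := δ / (1 - ‖z 1‖) with hτ
    have hτ0 : 0 < τ := div_pos hδ0 hb
    have hτ1 : τ < 1 := (div_lt_one hb).2 hδ1
    set q : ℂ := z 1 + (x 1 - z 1) / (τ : ℂ) with hq
    have hqn : ‖q‖ < 1 := by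
      calc ‖q‖ ≤ ‖z 1‖ + ‖(x 1 - z 1) / (τ : ℂ)‖ := norm_add_le _ _
        _ = ‖z 1‖ + ‖x 1 - z 1‖ / τ := by
          rw [norm_div, Complex.norm_real, Real.norm_of_nonneg hτ0.le]
        _ < ‖z 1‖ + δ / τ := by
          have := div_lt_div_of_pos_right hx1 hτ0
          linarith
        _ = 1 := by
          rw [hτ]; field_simp; ring
    have hxq : (1 - τ) • z 1 + τ • q = x 1 := by
      have hτc : (τ : ℂ) ≠ 0 := by exact_mod_cast hτ0.ne'
      simp only [Complex.real_smul, hq]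
      push_cast
      field_simp
      ring
    have hxn : ‖x 1‖ < 1 := by
      have : ‖x 1‖ ≤ ‖z 1‖ + ‖x 1 - z 1‖ := by
        calc ‖x 1‖ = ‖z 1 + (x 1 - z 1)‖ := by ring_nf
          _ ≤ _ := norm_add_le _ _
      linarith
    have hc := h.concave (b := z 1) (b' := q) (by simpa using hz'.1) (by simpa using hqn)
      (s := 1 - τ) (t := τ) (by linarith) hτ0.le (by ring)
    rw [hxq] at hc
    have hq0 := h.pos q (by simpa using hqn)
    have hz1 := h.le (z 1) (by simpa using hz'.1)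
    have hρ : ρ (z 1) - τ * M ≤ ρ (x 1) := by
      have h5 : 0 ≤ (1 - τ) * τ * ‖z 1 - q‖ ^ 2 := by
        have : 0 ≤ 1 - τ := by linarith
        positivity
      have h6 : 0 ≤ τ * ρ q := by positivity
      have h7 : τ * ρ (z 1) ≤ τ * M := mul_le_mul_of_nonneg_left hz1 hτ0.le
      nlinarith
    rw [mem_Om]
    refine ⟨hxn, fun k => ?_⟩
    have h8 : (uk k * x 0).re ≤ (uk k * z 0).re + δ := by
      have : (uk k * x 0).re - (uk k * z 0).re = (uk k * (x 0 - z 0)).re := by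
        rw [mul_sub, Complex.sub_re]
      have h9 : (uk k * (x 0 - z 0)).re ≤ ‖uk k * (x 0 - z 0)‖ := Complex.re_le_norm _
      rw [norm_mul, norm_uk, one_mul] at h9
      linarith
    have h10 : gap ρ k z - τ * M - δ ≤ gap ρ k x := by
      unfold gap
      linarith
    have h11 : τ * M + δ < gap ρ k z := by
      have h12 := hδk k
      have h13 : τ * (1 - ‖z 1‖) = δ := by rw [hτ]; field_simp
      have h14 : (τ * M + δ) * (1 - ‖z 1‖) < gap ρ k z * (1 - ‖z 1‖) := by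
        calc (τ * M + δ) * (1 - ‖z 1‖) = M * (τ * (1 - ‖z 1‖)) + δ * (1 - ‖z 1‖) := by ring
          _ = M * δ + δ * (1 - ‖z 1‖) := by rw [h13]
          _ ≤ M * δ + δ * 1 := by nlinarith
          _ = (M + 1) * δ := by ring
          _ < _ := h12
      exact lt_of_mul_lt_mul_right h14 hb.le
    linarith
  have := le_dlt h.dom hsub
  rw [← hD] at this
  linarith

/-- the midpoint of two points with different `b` is far from the boundary -/
theorem Room.dlt_mid (h : Room ρ M) : ∃ c > 0, ∀ y ∈ Om ρ, ∀ z ∈ Om ρ,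
    c * ‖y 1 - z 1‖ ^ 4 ≤ dlt (Om ρ) ((1 / 2 : ℝ) • y + (1 - 1 / 2 : ℝ) • z) := by
  have hM := h.M_pos
  refine ⟨1 / (32 * (M + 1)), by positivity, fun y hy z hz => ?_⟩
  set m := (1 / 2 : ℝ) • y + (1 - 1 / 2 : ℝ) • z with hm
  have hmem : m ∈ Om ρ := h.dom.cvx hy hz (by norm_num) (by norm_num) (by norm_num)
  have hy' := mem_Om.1 hy
  have hz' := mem_Om.1 hz
  obtain ⟨k, hk⟩ := h.gap_mul_le hmem
  have h1 := gap_combo h k hy'.1 hz'.1 (s := 1 / 2) (t := 1 - 1 / 2) (by norm_num) (by norm_num)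
    (by norm_num)
  rw [← hm] at h1
  have h2 : ‖y 1 - z 1‖ ^ 2 / 4 ≤ gap ρ k m := by
    have := hy'.2 k
    have := hz'.2 k
    linarith
  have h3 : ‖y 1 - z 1‖ ^ 2 / 8 ≤ 1 - ‖m 1‖ := by
    have e : m 1 = (1 / 2 : ℂ) * (y 1 + z 1) := by
      simp [hm]; ring
    have hp := parallelogram_law_with_norm ℝ (y 1) (z 1)
    have hn : ‖m 1‖ = 1 / 2 * ‖y 1 + z 1‖ := by
      rw [e, norm_mul]; norm_num
    have hy2 : ‖y 1‖ * ‖y 1‖ < 1 := by nlinarith [norm_nonneg (y 1), hy'.1]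
    have hz2 : ‖z 1‖ * ‖z 1‖ < 1 := by nlinarith [norm_nonneg (z 1), hz'.1]
    have h5 : ‖m 1‖ ^ 2 ≤ 1 - ‖y 1 - z 1‖ ^ 2 / 4 := by
      rw [hn]; nlinarith
    have h6 : ‖m 1‖ ≤ (1 + ‖m 1‖ ^ 2) / 2 := by nlinarith [sq_nonneg (1 - ‖m 1‖)]
    linarith
  have h4 : ‖y 1 - z 1‖ ^ 4 / 32 ≤ gap ρ k m * (1 - ‖m 1‖) := by
    calc ‖y 1 - z 1‖ ^ 4 / 32 = (‖y 1 - z 1‖ ^ 2 / 4) * (‖y 1 - z 1‖ ^ 2 / 8) := by ring
      _ ≤ _ := mul_le_mul h2 h3 (by positivity) (le_trans (by positivity) h2)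
  have h5 : ‖y 1 - z 1‖ ^ 4 / 32 ≤ (M + 1) * dlt (Om ρ) m := h4.trans hk
  have h6 : 1 / (32 * (M + 1)) * ‖y 1 - z 1‖ ^ 4 = (‖y 1 - z 1‖ ^ 4 / 32) / (M + 1) := by
    field_simp
  rw [h6, div_le_iff₀ (by linarith)]
  linarith

/-- the comparison function of a disc -/
def Uf (ρ : ℂ → ℝ) (k : Fin 4) (a : ℂ) (φ : ℂ → Fin 2 → ℂ) (p : ℂ) (w : ℂ) : ℂ :=
  ((gk k + ρ p : ℝ) : ℂ) + a * (φ w 1 - p) - uk k * φ w 0

theorem Uf_diff {k : Fin 4} {a p : ℂ} {φ : ℂ → Fin 2 → ℂ} (hφ : DifferentiableOn ℂ φ (ball 0 1)) :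
    DifferentiableOn ℂ (Uf ρ k a φ p) (ball 0 1) := by
  have h0 : DifferentiableOn ℂ (fun w => φ w 0) (ball 0 1) := (differentiableOn_pi.1 hφ) 0
  have h1 : DifferentiableOn ℂ (fun w => φ w 1) (ball 0 1) := (differentiableOn_pi.1 hφ) 1
  unfold Uf
  exact ((differentiableOn_const _).add ((h1.sub (differentiableOn_const _)).const_mul a)).sub
    (h0.const_mul _)

theorem Uf_re {k : Fin 4} {a p : ℂ} {φ : ℂ → Fin 2 → ℂ}
    (ha : ∀ b ∈ ball (0 : ℂ) 1, ρ b ≤ ρ p + (a * (b - p)).re - ‖b - p‖ ^ 2) {w : ℂ}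
    (hw : ‖φ w 1‖ < 1) : gap ρ k (φ w) + ‖φ w 1 - p‖ ^ 2 ≤ (Uf ρ k a φ p w).re := by
  have h1 := ha (φ w 1) (by simpa using hw)
  unfold Uf gap
  rw [Complex.sub_re, Complex.add_re, Complex.ofReal_re]
  linarith

theorem Uf_zero {k : Fin 4} {a : ℂ} {φ : ℂ → Fin 2 → ℂ} :
    (Uf ρ k a φ (φ 0 1) 0).re = gap ρ k (φ 0) := by
  unfold Uf gap
  rw [sub_self, mul_zero, add_zero, Complex.sub_re, Complex.ofReal_re]

/-- a unimodular factor -/
theorem exists_unim (b : ℂ) : ∃ u : ℂ, ‖u‖ = 1 ∧ u * b = (‖b‖ : ℂ) := by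
  by_cases hb : b = 0
  · exact ⟨1, by simp, by simp [hb]⟩
  · have hbn : ‖b‖ ≠ 0 := norm_ne_zero_iff.2 hb
    refine ⟨(‖b‖ : ℂ) / b, ?_, ?_⟩
    · rw [norm_div, Complex.norm_real, norm_norm, div_self hbn]
    · rw [div_mul_cancel₀ _ hb]

theorem one_sub_mul_re {u b : ℂ} (hu : ‖u‖ = 1) : 1 - ‖b‖ ≤ (1 - u * b).re := by
  have : (u * b).re ≤ ‖u * b‖ := Complex.re_le_norm _
  rw [norm_mul, hu, one_mul] at this
  rw [Complex.sub_re, Complex.one_re]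
  linarith

/-- fundamental estimates for one disc -/
theorem Room.disc (h : Room ρ M) {φ : ℂ → Fin 2 → ℂ} (hφ : IsDisc (Om ρ) φ) {r : ℝ}
    (h0 : 0 ≤ r) (h1 : r < 1 / 2) (k : Fin 4) :
    ‖φ r 1 - φ 0 1‖ ≤ 4 * r * (1 - ‖φ 0 1‖) ∧
    ‖φ r 1 - φ 0 1‖ ≤ 2 * r * Real.sqrt (3 * gap ρ k (φ 0)) ∧
    ‖φ r 0 - φ 0 0‖ ≤ 8 * r * ρ (φ 0 1) ∧
    ‖φ r 0 - φ 0 0‖ ≤ 4 * r * gap ρ k (φ 0) +
      ρ (φ 0 1) / (1 - ‖φ 0 1‖) * (2 * r * Real.sqrt (3 * gap ρ k (φ 0))) ∧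
    gap ρ k (φ r) ≤ (1 + r) / (1 - r) * gap ρ k (φ 0) ∧
    1 - ‖φ r 1‖ ≤ (1 + r) / (1 - r) * (1 - ‖φ 0 1‖) ∧
    (1 - r) / (1 + r) * (1 - ‖φ 0 1‖) ≤ 1 - ‖φ r 1‖ := by
  have hbd : DifferentiableOn ℂ (fun w => φ w 1) (ball 0 1) := (differentiableOn_pi.1 hφ.1) 1
  have hin : ∀ w ∈ ball (0 : ℂ) 1, ‖φ w 1‖ < 1 ∧ ∀ k, 0 < gap ρ k (φ w) :=
    fun w hw => mem_Om.1 (hφ.2 hw)
  have h00 : (0 : ℂ) ∈ ball (0 : ℂ) 1 := by simp
  have hr : (r : ℂ) ∈ ball (0 : ℂ) 1 := by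
    rw [mem_ball_zero_iff, Complex.norm_real, Real.norm_of_nonneg h0]; linarith
  have hrn : ‖(r : ℂ)‖ = r := by rw [Complex.norm_real, Real.norm_of_nonneg h0]
  have hp := (hin 0 h00).1
  have hpb : φ 0 1 ∈ ball (0 : ℂ) 1 := by simpa using hp
  obtain ⟨a, ha⟩ := h.sg (φ 0 1) hpb
  have hfac : 2 * r / (1 - r) ≤ 4 * r := by
    rw [div_le_iff₀ (by linarith)]; nlinarith
  -- the functions `U_k`
  have hUd : ∀ k, DifferentiableOn ℂ (Uf ρ k a φ (φ 0 1)) (ball 0 1) := fun k => Uf_diff hφ.1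
  have hUre : ∀ k, ∀ w ∈ ball (0 : ℂ) 1,
      gap ρ k (φ w) + ‖φ w 1 - φ 0 1‖ ^ 2 ≤ (Uf ρ k a φ (φ 0 1) w).re :=
    fun k w hw => Uf_re ha (hin w hw).1
  have hUpos : ∀ k, ∀ w ∈ ball (0 : ℂ) 1, 0 ≤ (Uf ρ k a φ (φ 0 1) w).re := by
    intro k w hw
    have := hUre k w hw
    have := (hin w hw).2 k
    have : 0 ≤ ‖φ w 1 - φ 0 1‖ ^ 2 := by positivity
    linarith
  have hU0 : ∀ k, (Uf ρ k a φ (φ 0 1) 0).re = gap ρ k (φ 0) := fun k => Uf_zero
  have hUdist : ∀ k, ‖Uf ρ k a φ (φ 0 1) r - Uf ρ k a φ (φ 0 1) 0‖ ≤ 4 * r * gap ρ k (φ 0) := by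
    intro k
    have h2 := hp_dist (hUd k) (hUpos k) hr
    rw [hrn, hU0 k] at h2
    exact h2.trans (mul_le_mul_of_nonneg_right hfac ((hin 0 h00).2 k).le)
  have hg : 0 < gap ρ k (φ 0) := (hin 0 h00).2 k
  -- (2)
  have H2 : ‖φ r 1 - φ 0 1‖ ≤ 2 * r * Real.sqrt (3 * gap ρ k (φ 0)) := by
    have hM : ∀ w : ℂ, ‖w‖ < 1 / 2 → ‖(fun w => φ w 1) w - (fun w => φ w 1) 0‖ ≤
        Real.sqrt (3 * gap ρ k (φ 0)) := by
      intro w hw
      have hw1 : w ∈ ball (0 : ℂ) 1 := by rw [mem_ball_zero_iff]; linarith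
      apply Real.le_sqrt_of_sq_le
      have h2 := hp_re_le (hUd k) (hUpos k) hw1
      rw [hU0 k] at h2
      have h3 := hUre k w hw1
      have h4 := (hin w hw1).2 k
      have h5 : (1 + ‖w‖) / (1 - ‖w‖) ≤ 3 := by
        rw [div_le_iff₀ (by linarith)]; linarith
      have h6 := mul_le_mul_of_nonneg_right h5 hg.le
      show ‖φ w 1 - φ 0 1‖ ^ 2 ≤ _
      linarith
    have := schwarz_half hbd hM (w := (r : ℂ)) (by rw [hrn]; exact h1)
    rw [hrn] at this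
    exact this
  refine ⟨?_, H2, ?_, ?_, ?_, ?_, ?_⟩
  · -- (1)
    obtain ⟨u, hu, hub⟩ := exists_unim (φ 0 1)
    have hd : DifferentiableOn ℂ (fun w => 1 - u * φ w 1) (ball 0 1) :=
      (differentiableOn_const _).sub (hbd.const_mul u)
    have hpos : ∀ w ∈ ball (0 : ℂ) 1, 0 ≤ (1 - u * φ w 1).re := fun w hw =>
      le_trans (by linarith [(hin w hw).1]) (one_sub_mul_re hu)
    have h2 := hp_dist hd hpos hr
    rw [hrn] at h2
    have h3 : (1 - u * φ 0 1).re = 1 - ‖φ 0 1‖ := by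
      rw [hub, Complex.sub_re, Complex.one_re, Complex.ofReal_re]
    rw [h3] at h2
    have h4 : ‖(1 - u * φ r 1) - (1 - u * φ 0 1)‖ = ‖φ r 1 - φ 0 1‖ := by
      rw [show (1 - u * φ r 1) - (1 - u * φ 0 1) = -(u * (φ r 1 - φ 0 1)) by ring, norm_neg,
        norm_mul, hu, one_mul]
    rw [h4] at h2
    exact h2.trans (mul_le_mul_of_nonneg_right hfac (by linarith))
  · -- (3)
    have e : (2 * Complex.I) * (φ r 0 - φ 0 0) =
        (Uf ρ 0 a φ (φ 0 1) r - Uf ρ 0 a φ (φ 0 1) 0) -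
          (Uf ρ 1 a φ (φ 0 1) r - Uf ρ 1 a φ (φ 0 1) 0) := by
      simp only [Uf, gk, uk]
      simp
      ring
    have h2 : 2 * ‖φ r 0 - φ 0 0‖ ≤ 4 * r * gap ρ 0 (φ 0) + 4 * r * gap ρ 1 (φ 0) := by
      have h3 : ‖(2 * Complex.I) * (φ r 0 - φ 0 0)‖ = 2 * ‖φ r 0 - φ 0 0‖ := by
        rw [norm_mul, norm_mul, Complex.norm_I]; norm_num
      rw [← h3, e]
      exact (norm_sub_le _ _).trans (add_le_add (hUdist 0) (hUdist 1))
    have h4 : gap ρ 0 (φ 0) + gap ρ 1 (φ 0) = 2 * ρ (φ 0 1) := by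
      rw [gap_zero, gap_one]; ring
    have h5 : 0 < ρ (φ 0 1) := h.pos _ hpb
    have h6 : 4 * r * gap ρ 0 (φ 0) + 4 * r * gap ρ 1 (φ 0) = 8 * r * ρ (φ 0 1) := by
      rw [← mul_add, h4]; ring
    have h7 : 0 ≤ 8 * r * ρ (φ 0 1) := by positivity
    linarith
  · -- (4)
    have e : uk k * (φ r 0 - φ 0 0) = a * (φ r 1 - φ 0 1) -
        (Uf ρ k a φ (φ 0 1) r - Uf ρ k a φ (φ 0 1) 0) := by
      simp only [Uf]
      ring
    have h2 : ‖φ r 0 - φ 0 0‖ = ‖uk k * (φ r 0 - φ 0 0)‖ := by rw [norm_mul, norm_uk, one_mul]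
    rw [h2, e]
    have h3 : ‖a‖ ≤ ρ (φ 0 1) / (1 - ‖φ 0 1‖) := by
      rw [le_div_iff₀ (by linarith)]
      exact h.norm_sg hpb ha
    have h4 : ‖a * (φ r 1 - φ 0 1)‖ ≤
        ρ (φ 0 1) / (1 - ‖φ 0 1‖) * (2 * r * Real.sqrt (3 * gap ρ k (φ 0))) := by
      rw [norm_mul]
      exact mul_le_mul h3 H2 (norm_nonneg _) ((norm_nonneg _).trans h3)
    calc ‖a * (φ r 1 - φ 0 1) - (Uf ρ k a φ (φ 0 1) r - Uf ρ k a φ (φ 0 1) 0)‖
        ≤ ‖a * (φ r 1 - φ 0 1)‖ + ‖Uf ρ k a φ (φ 0 1) r - Uf ρ k a φ (φ 0 1) 0‖ :=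
          norm_sub_le _ _
      _ ≤ _ := by linarith [hUdist k]
  · -- (5)
    have h2 := hp_re_le (hUd k) (hUpos k) hr
    rw [hrn, hU0 k] at h2
    have h3 := hUre k r hr
    have : 0 ≤ ‖φ r 1 - φ 0 1‖ ^ 2 := by positivity
    linarith
  · -- (6)
    obtain ⟨u, hu, hub⟩ := exists_unim (φ 0 1)
    have hd : DifferentiableOn ℂ (fun w => 1 - u * φ w 1) (ball 0 1) :=
      (differentiableOn_const _).sub (hbd.const_mul u)
    have hpos : ∀ w ∈ ball (0 : ℂ) 1, 0 ≤ (1 - u * φ w 1).re := fun w hw =>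
      le_trans (by linarith [(hin w hw).1]) (one_sub_mul_re hu)
    have h2 := hp_re_le hd hpos hr
    rw [hrn] at h2
    have h3 : (1 - u * φ 0 1).re = 1 - ‖φ 0 1‖ := by
      rw [hub, Complex.sub_re, Complex.one_re, Complex.ofReal_re]
    rw [h3] at h2
    exact (one_sub_mul_re hu).trans h2
  · -- (7)
    obtain ⟨u, hu, hub⟩ := exists_unim (φ r 1)
    have hd : DifferentiableOn ℂ (fun w => 1 - u * φ w 1) (ball 0 1) :=
      (differentiableOn_const _).sub (hbd.const_mul u)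
    have hpos : ∀ w ∈ ball (0 : ℂ) 1, 0 ≤ (1 - u * φ w 1).re := fun w hw =>
      le_trans (by linarith [(hin w hw).1]) (one_sub_mul_re hu)
    have h2 := hp_le_re hd hpos hr
    rw [hrn] at h2
    have h3 : (1 - u * φ r 1).re = 1 - ‖φ r 1‖ := by
      rw [hub, Complex.sub_re, Complex.one_re, Complex.ofReal_re]
    rw [h3] at h2
    refine le_trans ?_ h2
    exact mul_le_mul_of_nonneg_left (one_sub_mul_re hu)
      (div_nonneg (by linarith) (by linarith))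

/-- in the closure: `|b| ≤ 1`, the gaps are non-negative where `|b| < 1`, and `Im ζ = 0` where
`|b| = 1`. -/
theorem Room.closure_facts (h : Room ρ M) {z : Fin 2 → ℂ} (hz : z ∈ closure (Om ρ)) :
    ‖z 1‖ ≤ 1 ∧ (‖z 1‖ < 1 → ∀ k, 0 ≤ gap ρ k z) ∧ (‖z 1‖ = 1 → (z 0).im = 0) := by
  rw [mem_closure_iff_seq_limit] at hz
  obtain ⟨x, hx, hlim⟩ := hz
  have hx0 : Tendsto (fun n => x n 0) atTop (𝓝 (z 0)) := (tendsto_pi_nhds.1 hlim) 0
  have hx1 : Tendsto (fun n => x n 1) atTop (𝓝 (z 1)) := (tendsto_pi_nhds.1 hlim) 1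
  have hxn : Tendsto (fun n => ‖x n 1‖) atTop (𝓝 ‖z 1‖) := hx1.norm
  refine ⟨le_of_tendsto hxn (Eventually.of_forall fun n => (mem_Om.1 (hx n)).1.le), ?_, ?_⟩
  · intro hz1 k
    have hU : IsOpen {z : Fin 2 → ℂ | ‖z 1‖ < 1} := isOpen_lt (by fun_prop) continuous_const
    have hc : ContinuousAt (gap ρ k) z := (h.cont_gap k).continuousAt (hU.mem_nhds hz1)
    have h2 : Tendsto (fun n => gap ρ k (x n)) atTop (𝓝 (gap ρ k z)) := hc.tendsto.comp hlim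
    exact ge_of_tendsto h2 (Eventually.of_forall fun n => ((mem_Om.1 (hx n)).2 k).le)
  · intro hz1
    have him : Tendsto (fun n => |(x n 0).im|) atTop (𝓝 |(z 0).im|) :=
      ((Complex.continuous_im.tendsto _).comp hx0).abs
    by_contra hne
    have hpos : 0 < |(z 0).im| := abs_pos.2 hne
    obtain ⟨η, hη, hη2⟩ := h.van (|(z 0).im| / 2) (by positivity)
    have h3 : ∀ᶠ n in atTop, 1 - η < ‖x n 1‖ := hxn.eventually_const_lt (by linarith)
    have h4 : ∀ᶠ n in atTop, |(z 0).im| / 2 < |(x n 0).im| := him.eventually_const_lt (by linarith)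
    obtain ⟨n, h5, h6⟩ := (h3.and h4).exists
    have h7 := hη2 (x n 1) (by simpa using (mem_Om.1 (hx n)).1) (by linarith)
    have h8 := (hx n).2.1
    linarith

theorem Room.noDisc (h : Room ρ M) : NoDisc (frontier (Om ρ)) := by
  intro φ hφ
  have hcl : ∀ w ∈ ball (0 : ℂ) 1, ‖φ w 1‖ ≤ 1 ∧ (‖φ w 1‖ < 1 → ∀ k, 0 ≤ gap ρ k (φ w)) ∧
      (‖φ w 1‖ = 1 → (φ w 0).im = 0) := fun w hw =>
    h.closure_facts (frontier_subset_closure (hφ.2 hw))
  have hnot : ∀ w ∈ ball (0 : ℂ) 1, φ w ∉ Om ρ := by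
    intro w hw
    have := hφ.2 hw
    rw [(isOpen_Om h).frontier_eq] at this
    exact this.2
  have h00 : (0 : ℂ) ∈ ball (0 : ℂ) 1 := by simp
  have hbd : DifferentiableOn ℂ (fun w => φ w 1) (ball 0 1) := (differentiableOn_pi.1 hφ.1) 1
  have hzd : DifferentiableOn ℂ (fun w => φ w 0) (ball 0 1) := (differentiableOn_pi.1 hφ.1) 0
  -- the functions `1 - u b`
  have hVd : ∀ u : ℂ, DifferentiableOn ℂ (fun w => 1 - u * φ w 1) (ball 0 1) := fun u =>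
    (differentiableOn_const _).sub (hbd.const_mul u)
  have hVpos : ∀ u : ℂ, ‖u‖ = 1 → ∀ w ∈ ball (0 : ℂ) 1, 0 ≤ (1 - u * φ w 1).re := fun u hu w hw =>
    le_trans (by linarith [(hcl w hw).1]) (one_sub_mul_re hu)
  rcases (hcl 0 h00).1.lt_or_eq with hlt | heq
  · -- `|b 0| < 1`
    have hall : ∀ w ∈ ball (0 : ℂ) 1, ‖φ w 1‖ < 1 := by
      intro w hw
      rcases (hcl w hw).1.lt_or_eq with h1 | h1
      · exact h1
      · exfalso
        obtain ⟨u, hu, hub⟩ := exists_unim (φ w 1)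
        have h2 := hp_le_re (hVd u) (hVpos u hu) hw
        rw [hub, h1] at h2
        simp only [Complex.ofReal_one, sub_self, Complex.zero_re] at h2
        have hw1 : ‖w‖ < 1 := by simpa using hw
        have h3 : 0 < (1 - ‖w‖) / (1 + ‖w‖) :=
          div_pos (by linarith) (by linarith [norm_nonneg w])
        have h4 := one_sub_mul_re (u := u) (b := φ 0 1) hu
        have h5 : 0 < (1 - ‖w‖) / (1 + ‖w‖) * (1 - u * φ 0 1).re := mul_pos h3 (by linarith)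
        linarith
    obtain ⟨k, hk⟩ : ∃ k, gap ρ k (φ 0) = 0 := by
      have h1 := hnot 0 h00
      rw [mem_Om] at h1
      push Not at h1
      obtain ⟨k, hk⟩ := h1 hlt
      exact ⟨k, le_antisymm hk ((hcl 0 h00).2.1 hlt k)⟩
    obtain ⟨a, ha⟩ := h.sg (φ 0 1) (by simpa using hlt)
    have hUre : ∀ w ∈ ball (0 : ℂ) 1,
        gap ρ k (φ w) + ‖φ w 1 - φ 0 1‖ ^ 2 ≤ (Uf ρ k a φ (φ 0 1) w).re :=
      fun w hw => Uf_re ha (hall w hw)
    have hUpos : ∀ w ∈ ball (0 : ℂ) 1, 0 ≤ (Uf ρ k a φ (φ 0 1) w).re := by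
      intro w hw
      have := hUre w hw
      have := (hcl w hw).2.1 (hall w hw) k
      have : 0 ≤ ‖φ w 1 - φ 0 1‖ ^ 2 := by positivity
      linarith
    intro w hw
    have h2 := hp_dist (Uf_diff hφ.1) hUpos hw
    rw [Uf_zero, hk, mul_zero] at h2
    have h3 : Uf ρ k a φ (φ 0 1) w = Uf ρ k a φ (φ 0 1) 0 := by
      have := norm_le_zero_iff.1 h2
      exact sub_eq_zero.1 this
    have h4 : (Uf ρ k a φ (φ 0 1) w).re = 0 := by rw [h3, Uf_zero, hk]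
    have h5 : φ w 1 = φ 0 1 := by
      have h6 := hUre w hw
      have h7 := (hcl w hw).2.1 (hall w hw) k
      have h8 : ‖φ w 1 - φ 0 1‖ ^ 2 ≤ 0 := by linarith
      have h9 : ‖φ w 1 - φ 0 1‖ = 0 := by
        have := sq_nonneg ‖φ w 1 - φ 0 1‖
        exact pow_eq_zero_iff (two_ne_zero) |>.1 (le_antisymm h8 this)
      exact sub_eq_zero.1 (norm_eq_zero.1 h9)
    have h6 : φ w 0 = φ 0 0 := by
      have h7 : uk k * (φ w 0 - φ 0 0) = 0 := by
        have : Uf ρ k a φ (φ 0 1) w - Uf ρ k a φ (φ 0 1) 0 = 0 := sub_eq_zero.2 h3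
        simp only [Uf, h5] at this
        linear_combination -this
      have huk : uk k ≠ 0 := by
        intro h8
        have := norm_uk k
        rw [h8, norm_zero] at this
        norm_num at this
      rcases mul_eq_zero.1 h7 with h8 | h8
      · exact absurd h8 huk
      · exact sub_eq_zero.1 h8
    ext i
    fin_cases i
    · exact h6
    · exact h5
  · -- `|b 0| = 1`: everything is constant
    obtain ⟨u, hu, hub⟩ := exists_unim (φ 0 1)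
    have hre0 : (1 - u * φ 0 1).re = 0 := by
      rw [hub, heq]; simp
    have hb : ∀ w ∈ ball (0 : ℂ) 1, φ w 1 = φ 0 1 := by
      intro w hw
      have h2 := hp_dist (hVd u) (hVpos u hu) hw
      rw [hre0, mul_zero] at h2
      have h3 := norm_le_zero_iff.1 h2
      have h4 : u * (φ w 1 - φ 0 1) = 0 := by linear_combination -h3
      have hu0 : u ≠ 0 := by
        intro h8
        rw [h8, norm_zero] at hu
        norm_num at hu
      rcases mul_eq_zero.1 h4 with h8 | h8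
      · exact absurd h8 hu0
      · exact sub_eq_zero.1 h8
    have him : ∀ w ∈ ball (0 : ℂ) 1, (-Complex.I * φ w 0).re = 0 := by
      intro w hw
      have h1 : (φ w 0).im = 0 := (hcl w hw).2.2 (by rw [hb w hw, heq])
      simp [h1]
    intro w hw
    have h2 := hp_dist (U := fun w => -Complex.I * φ w 0) (hzd.const_mul _)
      (fun w hw => (him w hw).ge) hw
    rw [him 0 h00, mul_zero] at h2
    have h3 := norm_le_zero_iff.1 h2
    have h4 : φ w 0 = φ 0 0 := by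
      have h5 : -Complex.I * (φ w 0 - φ 0 0) = 0 := by linear_combination h3
      rcases mul_eq_zero.1 h5 with h8 | h8
      · simp at h8
      · exact sub_eq_zero.1 h8
    ext i
    fin_cases i
    · exact h4
    · exact hb w hw

end

end Pool.Agent.DWH
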