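import Pool.Agent.DWH.Room

/-!
# Module RoomEx: the explicit room function
-/

open Set Filter Topology Metric ComplexConjugate

namespace Pool.Agent.DWH

noncomputable section

/-- points of the unit circle tending to `1` -/
def betaEx (n : ℕ) : ℂ := ((n + 1 : ℂ) + Complex.I) / ((n + 1 : ℂ) - Complex.I)

def epsEx (n : ℕ) : ℝ := Real.exp (-(2 : ℝ) ^ (n + 1)) / 4

/-- `n`-th summand -/
def kapEx (n : ℕ) (b : ℂ) : ℝ := (1 - ‖b‖ ^ 2) / (epsEx n + (1 - b * conj (betaEx n)).re)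

/-- the room function -/
def rhoEx (b : ℂ) : ℝ := (1 - ‖b‖ ^ 2) + ∑' n : ℕ, (1 / 2 : ℝ) ^ n * kapEx n b

theorem betaEx_den_ne (n : ℕ) : ((n + 1 : ℂ) - Complex.I) ≠ 0 := by
  intro h
  have := congrArg Complex.im h
  simp at this

theorem norm_betaEx (n : ℕ) : ‖betaEx n‖ = 1 := by
  unfold betaEx
  rw [norm_div]
  have h : ‖((n + 1 : ℂ) + Complex.I)‖ = ‖((n + 1 : ℂ) - Complex.I)‖ := by
    have : ((n + 1 : ℂ) - Complex.I) = conj ((n + 1 : ℂ) + Complex.I) := by
      simp [sub_eq_add_neg]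
    rw [this, Complex.norm_conj]
  rw [h, div_self]
  exact norm_ne_zero_iff.mpr (betaEx_den_ne n)

theorem re_betaEx (n : ℕ) : (betaEx n).re = 1 - 2 / (((n : ℝ) + 1) ^ 2 + 1) := by
  unfold betaEx
  have hpos : (0 : ℝ) < ((n : ℝ) + 1) ^ 2 + 1 := by positivity
  have h1 : betaEx n = ((n + 1 : ℂ) + Complex.I) ^ 2 / ((((n : ℝ) + 1) ^ 2 + 1 : ℝ) : ℂ) := by
    unfold betaEx
    have hne : ((((n : ℝ) + 1) ^ 2 + 1 : ℝ) : ℂ) ≠ 0 := by exact_mod_cast hpos.ne'
    rw [div_eq_div_iff (betaEx_den_ne n) hne]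
    push_cast
    have hI : Complex.I ^ 2 = -1 := Complex.I_sq
    linear_combination ((n : ℂ) + 1 + Complex.I) * hI
  have h2 := congrArg Complex.re h1
  unfold betaEx at h2
  rw [h2, Complex.div_ofReal_re]
  have h3 : (((n + 1 : ℂ) + Complex.I) ^ 2).re = ((n : ℝ) + 1) ^ 2 - 1 := by
    simp [pow_two]
  rw [h3]
  field_simp
  ring

theorem tendsto_betaEx : Tendsto betaEx atTop (𝓝 1) := by
  have h : ∀ n : ℕ, betaEx n = 1 + (2 * Complex.I) / ((n + 1 : ℂ) - Complex.I) := by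
    intro n
    unfold betaEx
    have := betaEx_den_ne n
    field_simp
    ring
  have h2 : Tendsto (fun n : ℕ => (2 * Complex.I) / ((n + 1 : ℂ) - Complex.I)) atTop (𝓝 0) := by
    rw [tendsto_zero_iff_norm_tendsto_zero]
    have h3 : Tendsto (fun n : ℕ => (2 : ℝ) / ((n : ℝ) + 1)) atTop (𝓝 0) :=
      tendsto_const_nhds.div_atTop
        (tendsto_atTop_add_const_right _ _ tendsto_natCast_atTop_atTop)
    refine squeeze_zero (fun n => norm_nonneg _) (fun n => ?_) h3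
    rw [norm_div]
    have h4 : ‖(2 * Complex.I : ℂ)‖ = 2 := by simp
    rw [h4]
    have h5 : ((n : ℝ) + 1) ≤ ‖((n + 1 : ℂ) - Complex.I)‖ := by
      have := Complex.re_le_norm ((n + 1 : ℂ) - Complex.I)
      simpa using this
    exact div_le_div_of_nonneg_left (by norm_num) (by positivity) h5
  have h6 : betaEx = fun n : ℕ => 1 + (2 * Complex.I) / ((n + 1 : ℂ) - Complex.I) := funext h
  rw [h6]
  simpa using tendsto_const_nhds.add h2

theorem epsEx_pos (n : ℕ) : 0 < epsEx n := by unfold epsEx; positivity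

theorem epsEx_le (n : ℕ) : epsEx n ≤ 1 / 4 := by
  unfold epsEx
  have : Real.exp (-(2 : ℝ) ^ (n + 1)) ≤ 1 := by
    rw [Real.exp_le_one_iff]
    have : (0 : ℝ) ≤ 2 ^ (n + 1) := by positivity
    linarith
  linarith

/-- `1 - |b| ≤ X` -/
theorem le_X (n : ℕ) (b : ℂ) : 1 - ‖b‖ ≤ (1 - b * conj (betaEx n)).re := by
  have h := Complex.re_le_norm (b * conj (betaEx n))
  rw [norm_mul, Complex.norm_conj, norm_betaEx, mul_one] at h
  rw [Complex.sub_re, Complex.one_re]
  linarith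

theorem mem_ball_one {b : ℂ} : b ∈ ball (0 : ℂ) 1 ↔ ‖b‖ < 1 := by
  rw [mem_ball_zero_iff]

theorem V_pos (n : ℕ) {b : ℂ} (hb : ‖b‖ < 1) : 0 < epsEx n + (1 - b * conj (betaEx n)).re := by
  have := le_X n b
  have := epsEx_pos n
  linarith

theorem one_sub_sq_nonneg {b : ℂ} (hb : ‖b‖ < 1) : 0 < 1 - ‖b‖ ^ 2 := by
  have := norm_nonneg b
  nlinarith

theorem kapEx_nonneg (n : ℕ) {b : ℂ} (hb : ‖b‖ < 1) : 0 ≤ kapEx n b :=
  div_nonneg (one_sub_sq_nonneg hb).le (V_pos n hb).le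

theorem kapEx_le_two (n : ℕ) {b : ℂ} (hb : ‖b‖ < 1) : kapEx n b ≤ 2 := by
  unfold kapEx
  rw [div_le_iff₀ (V_pos n hb)]
  have h1 := le_X n b
  have h2 := epsEx_pos n
  have h3 := norm_nonneg b
  nlinarith

theorem summable_two : Summable (fun n : ℕ => (1 / 2 : ℝ) ^ n * 2) :=
  (summable_geometric_two).mul_right 2

theorem tsum_two : ∑' n : ℕ, (1 / 2 : ℝ) ^ n * 2 = 4 := by
  rw [tsum_mul_right, tsum_geometric_two]; norm_num

theorem summable_kap {b : ℂ} (hb : ‖b‖ < 1) :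
    Summable (fun n : ℕ => (1 / 2 : ℝ) ^ n * kapEx n b) := by
  refine Summable.of_nonneg_of_le (fun n => mul_nonneg (by positivity) (kapEx_nonneg n hb))
    (fun n => ?_) summable_two
  exact mul_le_mul_of_nonneg_left (kapEx_le_two n hb) (by positivity)

theorem tsum_kap_nonneg {b : ℂ} (hb : ‖b‖ < 1) :
    0 ≤ ∑' n : ℕ, (1 / 2 : ℝ) ^ n * kapEx n b :=
  tsum_nonneg fun n => mul_nonneg (by positivity) (kapEx_nonneg n hb)

/-- the supergradient of `kapEx n` at `p` -/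
def aEx (n : ℕ) (p : ℂ) : ℂ :=
  (((1 - (2 * epsEx n + epsEx n ^ 2) / (epsEx n + (1 - p * conj (betaEx n)).re) ^ 2 -
      ((1 - p * conj (betaEx n)).im) ^ 2 / (epsEx n + (1 - p * conj (betaEx n)).re) ^ 2 : ℝ) : ℂ) +
    ((-(2 * (1 - p * conj (betaEx n)).im / (epsEx n + (1 - p * conj (betaEx n)).re)) : ℝ) : ℂ) *
      Complex.I) * conj (betaEx n)

theorem kapEx_eq (n : ℕ) {b : ℂ} (hb : ‖b‖ < 1) {V Y : ℝ}
    (hV : V = epsEx n + (1 - b * conj (betaEx n)).re) (hY : Y = (1 - b * conj (betaEx n)).im) :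
    kapEx n b = 2 + 2 * epsEx n - V - (2 * epsEx n + epsEx n ^ 2 + Y ^ 2) / V := by
  have hV0 : 0 < V := hV ▸ V_pos n hb
  have h1 : ‖b‖ ^ 2 = ((b * conj (betaEx n)).re) ^ 2 + ((b * conj (betaEx n)).im) ^ 2 := by
    have : ‖b‖ = ‖b * conj (betaEx n)‖ := by
      rw [norm_mul, Complex.norm_conj, norm_betaEx, mul_one]
    rw [this, ← Complex.normSq_eq_norm_sq, Complex.normSq_apply]
    ring
  have h2 : (b * conj (betaEx n)).re = 1 + epsEx n - V := by
    rw [hV, Complex.sub_re, Complex.one_re]; ring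
  have h3 : (b * conj (betaEx n)).im = -Y := by
    rw [hY, Complex.sub_im, Complex.one_im]; ring
  have h4 : kapEx n b = (1 - ‖b‖ ^ 2) / V := by rw [hV]; rfl
  rw [h4, h1, h2, h3]
  field_simp
  ring

theorem kapEx_sg (n : ℕ) {p b : ℂ} (hp : ‖p‖ < 1) (hb : ‖b‖ < 1) :
    kapEx n b ≤ kapEx n p + (aEx n p * (b - p)).re := by
  obtain ⟨V0, hV0⟩ : ∃ V, V = epsEx n + (1 - p * conj (betaEx n)).re := ⟨_, rfl⟩
  obtain ⟨Y0, hY0⟩ : ∃ Y, Y = (1 - p * conj (betaEx n)).im := ⟨_, rfl⟩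
  obtain ⟨V, hV⟩ : ∃ V, V = epsEx n + (1 - b * conj (betaEx n)).re := ⟨_, rfl⟩
  obtain ⟨Y, hY⟩ : ∃ Y, Y = (1 - b * conj (betaEx n)).im := ⟨_, rfl⟩
  rw [kapEx_eq n hb hV hY, kapEx_eq n hp hV0 hY0]
  have hV0p : 0 < V0 := hV0 ▸ V_pos n hp
  have hVp : 0 < V := hV ▸ V_pos n hb
  have he := epsEx_pos n
  have h1 : (aEx n p * (b - p)).re =
      -(1 - (2 * epsEx n + epsEx n ^ 2) / V0 ^ 2 - Y0 ^ 2 / V0 ^ 2) * (V - V0) -
        2 * Y0 / V0 * (Y - Y0) := by
    unfold aEx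
    rw [← hV0, ← hY0]
    have e1 : ((b - p) * conj (betaEx n)).re = -(V - V0) := by
      rw [hV, hV0, sub_mul]
      simp only [Complex.sub_re, Complex.one_re]
      ring
    have e2 : ((b - p) * conj (betaEx n)).im = -(Y - Y0) := by
      rw [hY, hY0, sub_mul]
      simp only [Complex.sub_im, Complex.one_im]
      ring
    rw [mul_assoc, mul_comm (conj (betaEx n)) (b - p), Complex.mul_re, e1, e2]
    simp only [Complex.add_re, Complex.add_im, Complex.ofReal_re, Complex.ofReal_im,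
      Complex.mul_re, Complex.mul_im, Complex.I_re, Complex.I_im]
    ring
  rw [h1]
  have h2 : (1 : ℝ) / V ≥ 2 / V0 - V / V0 ^ 2 := by
    have : (1 : ℝ) / V - (2 / V0 - V / V0 ^ 2) = (V0 - V) ^ 2 / (V * V0 ^ 2) := by
      field_simp
      ring
    have h3 : 0 ≤ (V0 - V) ^ 2 / (V * V0 ^ 2) := by positivity
    linarith
  have h3 : Y ^ 2 / V ≥ 2 * (Y0 / V0) * Y - (Y0 / V0) ^ 2 * V := by
    have : Y ^ 2 / V - (2 * (Y0 / V0) * Y - (Y0 / V0) ^ 2 * V) = (Y - Y0 / V0 * V) ^ 2 / V := by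
      field_simp
      ring
    have h4 : 0 ≤ (Y - Y0 / V0 * V) ^ 2 / V := by positivity
    linarith
  have h4 : (2 * epsEx n + epsEx n ^ 2) * (1 / V) ≥
      (2 * epsEx n + epsEx n ^ 2) * (2 / V0 - V / V0 ^ 2) :=
    mul_le_mul_of_nonneg_left h2 (by positivity)
  have e3 : (2 * epsEx n + epsEx n ^ 2 + Y ^ 2) / V =
      (2 * epsEx n + epsEx n ^ 2) * (1 / V) + Y ^ 2 / V := by ring
  have e4 : (2 * epsEx n + epsEx n ^ 2 + Y0 ^ 2) / V0 +
      (1 - (2 * epsEx n + epsEx n ^ 2) / V0 ^ 2 - Y0 ^ 2 / V0 ^ 2) * (V - V0) +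
        2 * Y0 / V0 * (Y - Y0) =
      (V - V0) + (2 * epsEx n + epsEx n ^ 2) * (2 / V0 - V / V0 ^ 2) +
        (2 * (Y0 / V0) * Y - (Y0 / V0) ^ 2 * V) := by
    field_simp
    ring
  linarith

theorem norm_aEx_le (n : ℕ) {p : ℂ} (hp : ‖p‖ < 1) :
    ‖aEx n p‖ ≤ 1 + 2 / (1 - ‖p‖) ^ 2 + 2 / (1 - ‖p‖) := by
  obtain ⟨V0, hV0⟩ : ∃ V, V = epsEx n + (1 - p * conj (betaEx n)).re := ⟨_, rfl⟩
  obtain ⟨Y0, hY0⟩ : ∃ Y, Y = (1 - p * conj (betaEx n)).im := ⟨_, rfl⟩
  have hm : 0 < 1 - ‖p‖ := by linarith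
  have hV : 1 - ‖p‖ ≤ V0 := by
    have := le_X n p
    have := epsEx_pos n
    linarith
  have hV0p : 0 < V0 := lt_of_lt_of_le hm hV
  have hY : |Y0| ≤ 1 := by
    have h1 : Y0 = -(p * conj (betaEx n)).im := by
      rw [hY0, Complex.sub_im, Complex.one_im]; ring
    rw [h1, abs_neg]
    refine (Complex.abs_im_le_norm _).trans ?_
    rw [norm_mul, Complex.norm_conj, norm_betaEx, mul_one]
    exact hp.le
  have he := epsEx_pos n
  have he' := epsEx_le n
  unfold aEx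
  rw [← hV0, ← hY0, norm_mul, Complex.norm_conj, norm_betaEx, mul_one]
  refine (norm_add_le _ _).trans ?_
  rw [norm_mul, Complex.norm_I, mul_one, Complex.norm_real, Complex.norm_real, Real.norm_eq_abs,
    Real.norm_eq_abs]
  have h1 : |1 - (2 * epsEx n + epsEx n ^ 2) / V0 ^ 2 - Y0 ^ 2 / V0 ^ 2| ≤
      1 + 2 / (1 - ‖p‖) ^ 2 := by
    have hc : 2 * epsEx n + epsEx n ^ 2 ≤ 1 := by nlinarith
    have hY2 : Y0 ^ 2 ≤ 1 := by
      rw [← sq_abs]; nlinarith [abs_nonneg Y0]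
    have h2 : (2 * epsEx n + epsEx n ^ 2) / V0 ^ 2 ≤ 1 / (1 - ‖p‖) ^ 2 :=
      div_le_div₀ (by norm_num) hc (by positivity) (pow_le_pow_left₀ hm.le hV 2)
    have h3 : Y0 ^ 2 / V0 ^ 2 ≤ 1 / (1 - ‖p‖) ^ 2 :=
      div_le_div₀ (by norm_num) hY2 (by positivity) (pow_le_pow_left₀ hm.le hV 2)
    have h4 : 0 ≤ (2 * epsEx n + epsEx n ^ 2) / V0 ^ 2 := by positivity
    have h5 : 0 ≤ Y0 ^ 2 / V0 ^ 2 := by positivity
    have h6 : 2 / (1 - ‖p‖) ^ 2 = 1 / (1 - ‖p‖) ^ 2 + 1 / (1 - ‖p‖) ^ 2 := by ring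
    rw [abs_le]
    constructor
    · linarith
    · have : 0 ≤ 1 / (1 - ‖p‖) ^ 2 := by positivity
      linarith
  have h2 : |2 * Y0 / V0| ≤ 2 / (1 - ‖p‖) := by
    rw [abs_div, abs_mul, abs_of_pos hV0p, abs_two]
    exact div_le_div₀ (by norm_num) (by linarith) hm hV
  rw [abs_neg]
  linarith

theorem summable_aEx {p : ℂ} (hp : ‖p‖ < 1) :
    Summable (fun n : ℕ => ((1 / 2 : ℝ) ^ n : ℝ) • aEx n p) := by
  refine Summable.of_norm_bounded
    (g := fun n : ℕ => (1 / 2 : ℝ) ^ n * (1 + 2 / (1 - ‖p‖) ^ 2 + 2 / (1 - ‖p‖)))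
    (summable_geometric_two.mul_right _) (fun n => ?_)
  rw [norm_smul, Real.norm_of_nonneg (by positivity)]
  exact mul_le_mul_of_nonneg_left (norm_aEx_le n hp) (by positivity)

theorem kapEx_continuousOn (n : ℕ) : ContinuousOn (kapEx n) (ball 0 1) := by
  unfold kapEx
  refine ContinuousOn.div ?_ ?_ ?_
  · fun_prop
  · refine Continuous.continuousOn ?_
    exact continuous_const.add (Complex.continuous_re.comp
      (continuous_const.sub (continuous_id.mul continuous_const)))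
  · intro b hb
    exact (V_pos n (mem_ball_one.1 hb)).ne'

theorem kapEx_le_div (n : ℕ) {b : ℂ} (hb : ‖b‖ < 1) : kapEx n b ≤ (1 - ‖b‖ ^ 2) / epsEx n := by
  unfold kapEx
  have h1 := le_X n b
  exact div_le_div_of_nonneg_left (one_sub_sq_nonneg hb).le (epsEx_pos n) (by linarith)

theorem sum_sq_half : Summable (fun n : ℕ => (1 / 2 : ℝ) ^ n * (((n : ℝ) + 1) ^ 2 + 1)) := by
  have h0 : ‖(1 / 2 : ℝ)‖ < 1 := by norm_num
  have h2 := summable_pow_mul_geometric_of_norm_lt_one 2 h0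
  have h1 := summable_pow_mul_geometric_of_norm_lt_one 1 h0
  have h3 := ((h2.add (h1.mul_left 2)).add (summable_geometric_two.mul_left 2))
  refine h3.congr (fun n => ?_)
  ring

/-- the constant at the boundary point `β` -/
def cEx (β : ℂ) (n : ℕ) : ℝ := (1 - β * conj (betaEx n)).re

def CEx (β : ℂ) (n : ℕ) : ℝ := if 0 < cEx β n then 4 / cEx β n else 2 / epsEx n

theorem cEx_nonneg {β : ℂ} (hβ : ‖β‖ = 1) (n : ℕ) : 0 ≤ cEx β n := by
  have := le_X n β
  rw [hβ] at this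
  unfold cEx
  linarith

theorem CEx_nonneg {β : ℂ} (n : ℕ) : 0 ≤ CEx β n := by
  unfold CEx
  split_ifs with h
  · positivity
  · have := epsEx_pos n
    positivity

theorem one_sub_sq_le {β b : ℂ} (hβ : ‖β‖ = 1) (hb : ‖b‖ < 1) : 1 - ‖b‖ ^ 2 ≤ 2 * ‖b - β‖ := by
  have h1 : 1 - ‖b‖ ≤ ‖b - β‖ := by
    have := norm_sub_norm_le β b
    rw [hβ, norm_sub_rev] at this
    exact this
  have := norm_nonneg b
  nlinarith

theorem kapEx_le_C {β : ℂ} (hβ : ‖β‖ = 1) (n : ℕ) {b : ℂ} (hb : ‖b‖ < 1) :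
    kapEx n b ≤ CEx β n * ‖b - β‖ := by
  have hsq := one_sub_sq_le hβ hb
  unfold CEx
  split_ifs with h
  · have hX : cEx β n - ‖b - β‖ ≤ (1 - b * conj (betaEx n)).re := by
      unfold cEx
      have h1 := Complex.re_le_norm ((b - β) * conj (betaEx n))
      rw [norm_mul, Complex.norm_conj, norm_betaEx, mul_one] at h1
      have h2 : (1 - β * conj (betaEx n)).re - (1 - b * conj (betaEx n)).re =
          ((b - β) * conj (betaEx n)).re := by
        rw [← Complex.sub_re]; ring_nf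
      linarith
    have he := epsEx_pos n
    by_cases h3 : ‖b - β‖ ≤ cEx β n / 2
    · unfold kapEx
      rw [div_le_iff₀ (V_pos n hb)]
      have h4 : cEx β n / 2 ≤ epsEx n + (1 - b * conj (betaEx n)).re := by linarith
      have h5 : 4 / cEx β n * ‖b - β‖ * (cEx β n / 2) = 2 * ‖b - β‖ := by
        field_simp
        ring
      have h6 : 4 / cEx β n * ‖b - β‖ * (cEx β n / 2) ≤
          4 / cEx β n * ‖b - β‖ * (epsEx n + (1 - b * conj (betaEx n)).re) :=
        mul_le_mul_of_nonneg_left h4 (by positivity)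
      linarith
    · push Not at h3
      refine (kapEx_le_two n hb).trans ?_
      rw [div_mul_eq_mul_div, le_div_iff₀ h]
      linarith
  · refine (kapEx_le_div n hb).trans ?_
    rw [div_mul_eq_mul_div]
    exact div_le_div_of_nonneg_right hsq (epsEx_pos n).le

theorem eventually_CEx_le {β : ℂ} (hβ : ‖β‖ = 1) :
    ∃ K, ∀ᶠ n : ℕ in atTop, CEx β n ≤ K * (((n : ℝ) + 1) ^ 2 + 1) := by
  by_cases h1 : β = 1
  · refine ⟨2, Eventually.of_forall (fun n => ?_)⟩
    have hc : cEx β n = 2 / (((n : ℝ) + 1) ^ 2 + 1) := by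
      unfold cEx
      rw [h1, one_mul, Complex.sub_re, Complex.one_re, Complex.conj_re, re_betaEx]
      ring
    have hpos : 0 < cEx β n := by rw [hc]; positivity
    unfold CEx
    rw [if_pos hpos, hc]
    apply le_of_eq
    field_simp
    ring
  · have hlim : Tendsto (fun n => cEx β n) atTop (𝓝 (1 - β).re) := by
      have h2 : Tendsto (fun n => cEx β n) atTop (𝓝 (1 - β * conj (1 : ℂ)).re) := by
        unfold cEx
        refine (Complex.continuous_re.tendsto _).comp ?_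
        refine tendsto_const_nhds.sub (tendsto_const_nhds.mul ?_)
        exact (Complex.continuous_conj.tendsto _).comp tendsto_betaEx
      rw [map_one, mul_one] at h2
      exact h2
    have hpos : 0 < (1 - β).re := by
      rw [Complex.sub_re, Complex.one_re]
      have h3 : β.re ≤ 1 := hβ ▸ Complex.re_le_norm β
      rcases lt_or_eq_of_le h3 with h4 | h4
      · linarith
      · exfalso
        apply h1
        have h5 : β.re ^ 2 + β.im ^ 2 = 1 := by
          have := Complex.normSq_eq_norm_sq β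
          rw [Complex.normSq_apply, hβ] at this
          linarith
        have h6 : β.im = 0 := by
          rw [h4] at h5
          have : β.im ^ 2 = 0 := by linarith
          exact pow_eq_zero_iff (two_ne_zero) |>.1 this
        exact Complex.ext (by rw [h4, Complex.one_re]) (by rw [h6, Complex.one_im])
    refine ⟨4 / ((1 - β).re / 2), ?_⟩
    filter_upwards [hlim.eventually (lt_mem_nhds (show (1 - β).re / 2 < (1 - β).re by linarith))]
      with n hn
    have hpos' : 0 < cEx β n := by linarith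
    unfold CEx
    rw [if_pos hpos']
    have h7 : 4 / cEx β n ≤ 4 / ((1 - β).re / 2) :=
      div_le_div_of_nonneg_left (by norm_num) (by linarith) hn.le
    have h8 : 4 / ((1 - β).re / 2) * 1 ≤
        4 / ((1 - β).re / 2) * (((n : ℝ) + 1) ^ 2 + 1) := by
      refine mul_le_mul_of_nonneg_left ?_ (by positivity)
      have : 0 ≤ ((n : ℝ) + 1) ^ 2 := by positivity
      linarith
    linarith

theorem summable_CEx {β : ℂ} (hβ : ‖β‖ = 1) : Summable (fun n => (1 / 2 : ℝ) ^ n * CEx β n) := by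
  obtain ⟨K, hK⟩ := eventually_CEx_le hβ
  refine Summable.of_norm_bounded_eventually_nat
    (g := fun n => K * ((1 / 2 : ℝ) ^ n * (((n : ℝ) + 1) ^ 2 + 1))) (sum_sq_half.mul_left K) ?_
  filter_upwards [hK] with n hn
  rw [Real.norm_of_nonneg (mul_nonneg (by positivity) (CEx_nonneg n))]
  calc (1 / 2 : ℝ) ^ n * CEx β n ≤ (1 / 2 : ℝ) ^ n * (K * (((n : ℝ) + 1) ^ 2 + 1)) :=
        mul_le_mul_of_nonneg_left hn (by positivity)
    _ = _ := by ring

theorem room_rhoEx : Room rhoEx 5 where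
  pos := by
    intro b hb
    have hb' := mem_ball_one.1 hb
    have h1 := tsum_kap_nonneg hb'
    have h2 := one_sub_sq_nonneg hb'
    unfold rhoEx
    linarith
  le := by
    intro b hb
    have hb' := mem_ball_one.1 hb
    unfold rhoEx
    have h1 : ∑' n : ℕ, (1 / 2 : ℝ) ^ n * kapEx n b ≤ ∑' n : ℕ, (1 / 2 : ℝ) ^ n * 2 :=
      (summable_kap hb').tsum_le_tsum
        (fun n => mul_le_mul_of_nonneg_left (kapEx_le_two n hb') (by positivity)) summable_two
    rw [tsum_two] at h1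
    have h2 : 0 ≤ ‖b‖ ^ 2 := by positivity
    linarith
  cont := by
    unfold rhoEx
    refine ContinuousOn.add (by fun_prop) ?_
    refine continuousOn_tsum (u := fun n : ℕ => (1 / 2 : ℝ) ^ n * 2)
      (fun n => (kapEx_continuousOn n).const_mul _ ) summable_two ?_
    intro n b hb
    have hb' := mem_ball_one.1 hb
    rw [Real.norm_of_nonneg (mul_nonneg (by positivity) (kapEx_nonneg n hb'))]
    exact mul_le_mul_of_nonneg_left (kapEx_le_two n hb') (by positivity)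
  sg := by
    intro p hp
    have hp' := mem_ball_one.1 hp
    refine ⟨-2 * conj p + ∑' n : ℕ, ((1 / 2 : ℝ) ^ n : ℝ) • aEx n p, ?_⟩
    intro b hb
    have hb' := mem_ball_one.1 hb
    have hs : Summable (fun n : ℕ => (1 / 2 : ℝ) ^ n * (aEx n p * (b - p)).re) := by
      have h1 := ((summable_aEx hp').mul_right (b - p)).hasSum
      have h2 := (Complex.hasSum_re h1).summable
      refine h2.congr (fun n => ?_)
      simp only [Complex.real_smul, mul_assoc, Complex.re_ofReal_mul]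
    have hre : ((∑' n : ℕ, ((1 / 2 : ℝ) ^ n : ℝ) • aEx n p) * (b - p)).re =
        ∑' n : ℕ, (1 / 2 : ℝ) ^ n * (aEx n p * (b - p)).re := by
      have h1 := ((summable_aEx hp').hasSum.mul_right (b - p))
      have h2 := (Complex.hasSum_re h1).tsum_eq
      rw [← h2]
      refine tsum_congr (fun n => ?_)
      simp only [Complex.real_smul, mul_assoc, Complex.re_ofReal_mul]
    have h3 : ∑' n : ℕ, (1 / 2 : ℝ) ^ n * kapEx n b ≤
        ∑' n : ℕ, ((1 / 2 : ℝ) ^ n * kapEx n p + (1 / 2 : ℝ) ^ n * (aEx n p * (b - p)).re) := by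
      refine (summable_kap hb').tsum_le_tsum (fun n => ?_) ((summable_kap hp').add hs)
      rw [← mul_add]
      exact mul_le_mul_of_nonneg_left (kapEx_sg n hp' hb') (by positivity)
    rw [(summable_kap hp').tsum_add hs, ← hre] at h3
    have h4 : 1 - ‖b‖ ^ 2 = 1 - ‖p‖ ^ 2 + (-2 * conj p * (b - p)).re - ‖b - p‖ ^ 2 := by
      rw [← Complex.normSq_eq_norm_sq, ← Complex.normSq_eq_norm_sq, ← Complex.normSq_eq_norm_sq,
        Complex.normSq_apply, Complex.normSq_apply, Complex.normSq_apply]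
      simp only [Complex.sub_re, Complex.sub_im, Complex.mul_re, Complex.mul_im, Complex.conj_re,
        Complex.conj_im, Complex.neg_re, Complex.neg_im, Complex.re_ofNat, Complex.im_ofNat]
      ring
    unfold rhoEx
    rw [add_mul, Complex.add_re]
    linarith
  van := by
    intro ε hε
    -- the filter of points of the ball tending to the circle
    let 𝓕 : Filter ℂ := comap (fun b : ℂ => 1 - ‖b‖) (𝓝 0) ⊓ 𝓟 (ball 0 1)
    have hF0 : Tendsto (fun b : ℂ => 1 - ‖b‖) 𝓕 (𝓝 0) := tendsto_comap.mono_left inf_le_left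
    have hFb : ∀ᶠ b in 𝓕, b ∈ ball (0 : ℂ) 1 := mem_inf_of_right (mem_principal_self _)
    have hF1 : Tendsto (fun b : ℂ => 1 - ‖b‖ ^ 2) 𝓕 (𝓝 0) := by
      have h1 : Tendsto (fun b : ℂ => (1 - ‖b‖) * (2 - (1 - ‖b‖))) 𝓕 (𝓝 (0 * (2 - 0))) :=
        hF0.mul (tendsto_const_nhds.sub hF0)
      rw [zero_mul] at h1
      refine h1.congr (fun b => ?_)
      ring
    have hk : ∀ n : ℕ, Tendsto (fun b => (1 / 2 : ℝ) ^ n * kapEx n b) 𝓕 (𝓝 0) := by
      intro n
      have h2 : Tendsto (fun b : ℂ => (1 / 2 : ℝ) ^ n * ((1 - ‖b‖ ^ 2) / epsEx n)) 𝓕 (𝓝 0) := by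
        have := (hF1.div_const (epsEx n)).const_mul ((1 / 2 : ℝ) ^ n)
        simpa using this
      refine tendsto_of_tendsto_of_tendsto_of_le_of_le' tendsto_const_nhds h2 ?_ ?_
      · filter_upwards [hFb] with b hb
        exact mul_nonneg (by positivity) (kapEx_nonneg n (mem_ball_one.1 hb))
      · filter_upwards [hFb] with b hb
        exact mul_le_mul_of_nonneg_left (kapEx_le_div n (mem_ball_one.1 hb)) (by positivity)
    have hsum : Tendsto (fun b => ∑' n : ℕ, (1 / 2 : ℝ) ^ n * kapEx n b) 𝓕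
        (𝓝 (∑' _ : ℕ, (0 : ℝ))) := by
      refine tendsto_tsum_of_dominated_convergence (bound := fun n : ℕ => (1 / 2 : ℝ) ^ n * 2)
        summable_two hk ?_
      filter_upwards [hFb] with b hb n
      have hb' := mem_ball_one.1 hb
      rw [Real.norm_of_nonneg (mul_nonneg (by positivity) (kapEx_nonneg n hb'))]
      exact mul_le_mul_of_nonneg_left (kapEx_le_two n hb') (by positivity)
    rw [tsum_zero] at hsum
    have hrho : Tendsto rhoEx 𝓕 (𝓝 0) := by
      have := hF1.add hsum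
      rw [add_zero] at this
      exact this
    have hev := hrho.eventually (gt_mem_nhds hε)
    rw [Filter.eventually_inf_principal, Filter.eventually_comap] at hev
    obtain ⟨η, hη, hη2⟩ := Metric.eventually_nhds_iff.1 hev
    refine ⟨η, hη, fun b hb hb2 => ?_⟩
    have hb' := mem_ball_one.1 hb
    refine hη2 (y := 1 - ‖b‖) ?_ b rfl hb
    rw [Real.dist_eq, sub_zero, abs_of_pos (by linarith)]
    exact hb2
  lip := by
    intro β hβ
    have hs := summable_CEx hβ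
    have h0 : 0 ≤ ∑' n, (1 / 2 : ℝ) ^ n * CEx β n :=
      tsum_nonneg fun n => mul_nonneg (by positivity) (CEx_nonneg n)
    refine ⟨2 + ∑' n, (1 / 2 : ℝ) ^ n * CEx β n, by linarith, fun b hb => ?_⟩
    have hb' := mem_ball_one.1 hb
    have h1 := one_sub_sq_le hβ hb'
    have h2 : ∑' n : ℕ, (1 / 2 : ℝ) ^ n * kapEx n b ≤
        ∑' n : ℕ, ((1 / 2 : ℝ) ^ n * CEx β n) * ‖b - β‖ := by
      refine (summable_kap hb').tsum_le_tsum (fun n => ?_) (hs.mul_right _)
      rw [mul_assoc]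
      exact mul_le_mul_of_nonneg_left (kapEx_le_C hβ n hb') (by positivity)
    rw [tsum_mul_right] at h2
    unfold rhoEx
    rw [add_mul]
    linarith

theorem rhoEx_lower (n : ℕ) {w : ℂ} (hw : w ∈ ball (0 : ℂ) 1) :
    Real.pi / 4 < rhoEx (betaEx n * ((1 + (1 - 2 * epsEx n : ℝ) * w) / 2)) *
      (-Real.log (1 - (1 - 2 * epsEx n) ^ 2)) := by
  have hw' := mem_ball_one.1 hw
  have he := epsEx_pos n
  have he' := epsEx_le n
  obtain ⟨t, ht⟩ : ∃ t : ℝ, t = 1 - 2 * epsEx n := ⟨_, rfl⟩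
  have ht0 : 0 < t := by rw [ht]; linarith
  have ht1 : t < 1 := by rw [ht]; linarith
  rw [← ht]
  set b : ℂ := betaEx n * ((1 + (t : ℂ) * w) / 2) with hbdef
  have hwre : w.re ≤ 1 := (Complex.re_le_norm w).trans hw'.le
  have hsq : w.re ^ 2 + w.im ^ 2 < 1 := by
    have h := Complex.normSq_eq_norm_sq w
    rw [Complex.normSq_apply] at h
    have h2 := norm_nonneg w
    nlinarith
  have hnb : ‖b‖ ^ 2 = ((1 + t * w.re) ^ 2 + (t * w.im) ^ 2) / 4 := by
    rw [hbdef, norm_mul, norm_betaEx, one_mul, ← Complex.normSq_eq_norm_sq, Complex.normSq_apply]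
    have e1 : ((1 + (t : ℂ) * w) / 2).re = (1 + t * w.re) / 2 := by
      simp
    have e2 : ((1 + (t : ℂ) * w) / 2).im = (t * w.im) / 2 := by
      simp
    rw [e1, e2]
    ring
  have hb : ‖b‖ < 1 := by
    have h1 : ‖b‖ ^ 2 < 1 := by
      rw [hnb]
      have i1 : t * w.re ≤ t := by nlinarith
      have i2 : t ^ 2 * (w.re ^ 2 + w.im ^ 2) ≤ t ^ 2 := by
        have : 0 ≤ t ^ 2 := by positivity
        nlinarith
      nlinarith
    have := norm_nonneg b
    nlinarith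
  have hX : (1 - b * conj (betaEx n)).re = (1 - t * w.re) / 2 := by
    have h1 : b * conj (betaEx n) = (1 + (t : ℂ) * w) / 2 := by
      have h2 : betaEx n * conj (betaEx n) = 1 := by
        rw [Complex.mul_conj, Complex.normSq_eq_norm_sq, norm_betaEx]
        norm_num
      rw [hbdef]
      linear_combination ((1 + (t : ℂ) * w) / 2) * h2
    rw [h1]
    have e1 : (1 - (1 + (t : ℂ) * w) / 2).re = 1 - (1 + t * w.re) / 2 := by
      simp
    rw [e1]
    ring
  have hkap : 1 / 2 ≤ kapEx n b := by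
    unfold kapEx
    rw [hX, hnb, le_div_iff₀ (by rw [← hX]; exact V_pos n hb)]
    have h3 : epsEx n = (1 - t) / 2 := by rw [ht]; ring
    rw [h3]
    have i1 : t * w.re ≤ t := by nlinarith
    have i2 : t ^ 2 * (w.re ^ 2 + w.im ^ 2) ≤ t ^ 2 := by
      have : 0 ≤ t ^ 2 := by positivity
      nlinarith
    nlinarith
  have hrho : (1 / 2 : ℝ) ^ (n + 1) < rhoEx b := by
    unfold rhoEx
    have h1 : (1 / 2 : ℝ) ^ n * kapEx n b ≤ ∑' m : ℕ, (1 / 2 : ℝ) ^ m * kapEx m b :=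
      (summable_kap hb).le_tsum n
        (fun m _ => mul_nonneg (by positivity) (kapEx_nonneg m hb))
    have h2 := one_sub_sq_nonneg hb
    have h3 : (1 / 2 : ℝ) ^ n * (1 / 2) ≤ (1 / 2 : ℝ) ^ n * kapEx n b :=
      mul_le_mul_of_nonneg_left hkap (by positivity)
    rw [pow_succ]
    linarith
  have hlog : (2 : ℝ) ^ (n + 1) ≤ -Real.log (1 - t ^ 2) := by
    have h1 : 1 - t ^ 2 ≤ Real.exp (-(2 : ℝ) ^ (n + 1)) := by
      have h2 : 1 - t ^ 2 = 4 * epsEx n * (1 - epsEx n) := by rw [ht]; ring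
      have h3 : 4 * epsEx n = Real.exp (-(2 : ℝ) ^ (n + 1)) := by unfold epsEx; ring
      rw [h2, h3]
      have := Real.exp_pos (-(2 : ℝ) ^ (n + 1))
      nlinarith
    have h2 : 0 < 1 - t ^ 2 := by nlinarith
    have h3 := Real.log_le_log h2 h1
    rw [Real.log_exp] at h3
    linarith
  have hpi : Real.pi / 4 < 1 := by
    have := Real.pi_lt_four
    linarith
  have h1 : (1 / 2 : ℝ) ^ (n + 1) * (2 : ℝ) ^ (n + 1) = 1 := by
    rw [← mul_pow]; norm_num
  have h2 : (1 / 2 : ℝ) ^ (n + 1) * (2 : ℝ) ^ (n + 1) ≤ rhoEx b * (-Real.log (1 - t ^ 2)) :=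
    mul_le_mul hrho.le hlog (by positivity) (le_trans (by positivity) hrho.le)
  linarith

end

end Pool.Agent.DWH
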